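import Mathlib

open CategoryTheory Limits ZeroObject

universe v₁ v₂ v₃ u₁ u₂ u₃

namespace Pool.Agent.H92

variable {A : Type u₁} [Category.{v₁} A] [Abelian A]
  {B : Type u₂} [Category.{v₂} B] [Abelian B]

/-- A class of objects adapted to a left exact functor. -/
structure IsAdapted (F : A ⥤ B) (P : A → Prop) : Prop where
  injective : ∀ I : A, Injective I → P I
  biprod : ∀ X Y : A, P X → P Y → P (X ⊞ Y)
  quot : ∀ S : ShortComplex A, S.ShortExact → P S.X₁ → P S.X₂ → P S.X₃
  epi : ∀ S : ShortComplex A, S.ShortExact → P S.X₁ → P S.X₂ → Epi (F.map S.g)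

omit [Abelian B] in
lemma IsAdapted.of_iso {F : A ⥤ B} {P : A → Prop} (h : IsAdapted F P) {X Y : A} (e : X ≅ Y)
    (hX : P X) : P Y := by
  refine h.quot (ShortComplex.mk (0 : (0 : A) ⟶ X) e.hom (by simp)) ?_
    (h.injective _ inferInstance) hX
  refine { exact := ?_, mono_f := ?_, epi_g := ?_ }
  · rw [ShortComplex.exact_iff_mono _ rfl]
    dsimp
    infer_instance
  · dsimp
    infer_instance
  · dsimp
    infer_instance

open HomologicalComplex

section

variable (K : CochainComplex A ℤ)

lemma exactAt_epi_toCycles (i j : ℤ) (hij : i + 1 = j) (h : K.ExactAt j) :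
    Epi (K.toCycles i j) := by
  obtain rfl : i = (ComplexShape.up ℤ).prev j := by simp; lia
  rw [HomologicalComplex.exactAt_iff, ShortComplex.exact_iff_epi_toCycles] at h
  exact h

lemma shortExact_cycles (i j : ℤ) (hij : i + 1 = j) (h : K.ExactAt j) :
    (ShortComplex.mk (K.iCycles i) (K.toCycles i j) (by
      rw [← cancel_mono (K.iCycles j)]; simp)).ShortExact := by
  have := exactAt_epi_toCycles K i j hij h
  refine { exact := ?_ }
  apply ShortComplex.exact_of_f_is_kernel
  refine KernelFork.IsLimit.ofι _ _ (fun {W} x hx => K.liftCycles x j (by simp [hij]) ?_)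
    (fun {W} x hx => by simp) (fun {W} x hx m hm => by
      rw [← cancel_mono (K.iCycles i)]
      simpa using hm)
  have := hx =≫ K.iCycles j
  simpa using this

end

variable {F : A ⥤ B} {P : A → Prop}

omit [Abelian B] in
lemma IsAdapted.cycles (h : IsAdapted F P) (K : CochainComplex A ℤ) (n : ℤ) [K.IsStrictlyGE n]
    (hK : K.Acyclic) (hP : ∀ i, P (K.X i)) (i : ℤ) : P (K.cycles i) := by
  have key : ∀ m : ℕ, P (K.cycles (n + m)) := by
    intro m
    induction m with
    | zero =>
      -- cycles n = 0 by acyclicity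
      have hz : IsZero (K.X (n - 1)) := K.isZero_of_isStrictlyGE n _ (by lia)
      have he := exactAt_epi_toCycles K (n - 1) n (by lia) (hK n)
      have : IsZero (K.cycles n) := by
        rw [IsZero.iff_id_eq_zero, ← cancel_epi (K.toCycles (n-1) n)]
        exact hz.eq_of_src _ _
      simp only [Nat.cast_zero, add_zero]
      exact h.injective _ (this.injective)
    | succ m ih =>
      have := shortExact_cycles K (n + m) (n + (m + 1 : ℕ)) (by push_cast; lia) (hK _)
      exact h.quot _ this ih (hP _)
  by_cases hi : n ≤ i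
  · obtain ⟨m, rfl⟩ := Int.le.dest hi
    exact key m
  · have hz : IsZero (K.X i) := K.isZero_of_isStrictlyGE n _ (by lia)
    have : IsZero (K.cycles i) := by
      rw [IsZero.iff_id_eq_zero, ← cancel_mono (K.iCycles i)]
      exact hz.eq_of_tgt _ _
    exact h.injective _ (this.injective)

variable [F.Additive] [PreservesFiniteLimits F]

lemma IsAdapted.acyclic_map (h : IsAdapted F P) (K : CochainComplex A ℤ) (n : ℤ)
    [K.IsStrictlyGE n] (hK : K.Acyclic) (hP : ∀ i, P (K.X i)) :
    ((F.mapHomologicalComplex (ComplexShape.up ℤ)).obj K).Acyclic := by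
  intro i
  rw [HomologicalComplex.exactAt_iff' _ (i-1) i (i+1) (by simp) (by simp)]
  have s1 := shortExact_cycles K (i-1) i (by lia) (hK i)
  have e1 : Epi (F.map (K.toCycles (i-1) i)) := h.epi _ s1 (h.cycles K n hK hP _) (hP _)
  have hk' := KernelFork.mapIsLimit _ (K.cyclesIsKernel i (i+1) (by simp)) F
  let T : ShortComplex B := ShortComplex.mk (F.map (K.iCycles i)) (F.map (K.d i (i+1)))
    (by rw [← F.map_comp]; simp)
  have hT : T.Exact := T.exact_of_f_is_kernel hk'
  let S : ShortComplex B := ShortComplex.mk (F.map (K.d (i-1) i)) (F.map (K.d i (i+1)))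
    (by rw [← F.map_comp]; simp)
  let φ : S ⟶ T :=
    { τ₁ := F.map (K.toCycles (i-1) i)
      τ₂ := 𝟙 _
      τ₃ := 𝟙 _
      comm₁₂ := by
        dsimp only [S, T]
        rw [← F.map_comp]
        simp
      comm₂₃ := by
        dsimp only [S, T]
        simp }
  have : Epi φ.τ₁ := e1
  have : IsIso φ.τ₂ := inferInstanceAs (IsIso (𝟙 _))
  have : Mono φ.τ₃ := inferInstanceAs (Mono (𝟙 _))
  have hS : S.Exact := (ShortComplex.exact_iff_of_epi_of_isIso_of_mono φ).2 hT
  exact hS

end Pool.Agent.H92
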