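import Mathlib
import Pool.Agent.H92.Acyclic

open CategoryTheory Limits ZeroObject

universe v₁ v₂ v₃ u₁ u₂ u₃

namespace Pool.Agent.H92

variable {A : Type u₁} [Category.{v₁} A] [Abelian A]
  {B : Type u₂} [Category.{v₂} B] [Abelian B]
  {C : Type u₃} [Category.{v₃} C] [Abelian C]

section

variable {K L : CochainComplex A ℤ} (f : K ⟶ L)

lemma quasiIso_iff_acyclic_mappingCone :
    QuasiIso f ↔ (CochainComplex.mappingCone f).Acyclic := by
  have h1 := HomotopyCategory.quotient_map_mem_quasiIso_iff (C := A) (c := ComplexShape.up ℤ) f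
  rw [HomotopyCategory.quasiIso_eq_trW_subcategoryAcyclic] at h1
  have h2 := (HomotopyCategory.subcategoryAcyclic A).trW_iff_of_distinguished _
    (HomotopyCategory.mappingCone_triangleh_distinguished f)
  have h3 := HomotopyCategory.quotient_obj_mem_subcategoryAcyclic_iff_acyclic
    (CochainComplex.mappingCone f)
  rw [← h3]
  exact h1.symm.trans h2

end

variable {F : A ⥤ B} [F.Additive] [PreservesFiniteLimits F] {P : A → Prop}

lemma IsAdapted.quasiIso_map (h : IsAdapted F P) {K L : CochainComplex A ℤ} (f : K ⟶ L)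
    (n : ℤ) [K.IsStrictlyGE n] [L.IsStrictlyGE n] (hK : ∀ i, P (K.X i)) (hL : ∀ i, P (L.X i))
    (hf : QuasiIso f) : QuasiIso ((F.mapHomologicalComplex (ComplexShape.up ℤ)).map f) := by
  rw [quasiIso_iff_acyclic_mappingCone] at hf ⊢
  have : (CochainComplex.mappingCone f).IsStrictlyGE (n - 1) :=
    CochainComplex.isStrictlyGE_mappingCone f n n (n-1)
  have hac := h.acyclic_map (CochainComplex.mappingCone f) (n-1) hf (fun i => by
    refine h.of_iso (HomologicalComplex.homotopyCofiber.XIsoBiprod f i (i+1) (by simp)).symm ?_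
    exact h.biprod _ _ (hK _) (hL _))
  intro i
  exact (hac i).of_iso (CochainComplex.mappingCone.mapHomologicalComplexIso f F)

variable [HasDerivedCategory A] [HasDerivedCategory B] [EnoughInjectives A]

theorem IsAdapted.isIso_unit (h : IsAdapted F P) (K : CochainComplex.Plus A)
    (hK : ∀ i, P (K.obj.X i)) :
    IsIso (F.rightDerivedFunctorPlusUnit.app ((HomotopyCategory.Plus.quotient A).obj K)) := by
  obtain ⟨n, hn⟩ := K.2
  obtain ⟨L, hL, i, hi⟩ := CochainComplex.Plus.exists_quasiIso_injective K n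
  let L' := (InjectiveObject.ι A).mapCochainComplexPlus.obj L
  have hL' : L'.obj.IsStrictlyGE n := by
    rw [← CochainComplex.isStrictlyGE_mapHomologicalComplex_obj_iff _ (InjectiveObject.ι _)] at hL
    exact hL
  have hinj : ∀ j, Injective (L'.obj.X j) := fun j => (L.obj.X j).property
  have hq : QuasiIso i.hom := hi
  let i' := (HomotopyCategory.Plus.quotient A).map i
  have nat := F.rightDerivedFunctorPlusUnit.naturality i'
  have e1 : IsIso (F.rightDerivedFunctorPlusUnit.app
      ((HomotopyCategory.Plus.quotient A).obj L')) := by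
    infer_instance
  have e2 : IsIso (DerivedCategory.Plus.Qh.map i') := by
    apply Localization.inverts DerivedCategory.Plus.Qh (HomotopyCategory.Plus.quasiIso A)
    rw [HomotopyCategory.Plus.quasiIso_iff]
    exact (HomotopyCategory.quotient_map_mem_quasiIso_iff i.hom).2 hq
  have e3 : IsIso (DerivedCategory.Plus.Qh.map (F.mapHomotopyCategoryPlus.map i')) := by
    apply Localization.inverts DerivedCategory.Plus.Qh (HomotopyCategory.Plus.quasiIso B)
    rw [HomotopyCategory.Plus.quasiIso_iff]
    have : QuasiIso ((F.mapHomologicalComplex (ComplexShape.up ℤ)).map i.hom) :=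
      h.quasiIso_map i.hom n hK (fun j => h.injective _ (hinj j)) hq
    exact (HomotopyCategory.quotient_map_mem_quasiIso_iff _).2 this
  have e4 : IsIso (F.rightDerivedFunctorPlusUnit.app ((HomotopyCategory.Plus.quotient A).obj K) ≫
      (DerivedCategory.Plus.Qh ⋙ F.rightDerivedFunctorPlus).map i') := by
    rw [← nat]
    have : IsIso ((F.mapHomotopyCategoryPlus ⋙ DerivedCategory.Plus.Qh).map i') := e3
    infer_instance
  have e5 : IsIso ((DerivedCategory.Plus.Qh ⋙ F.rightDerivedFunctorPlus).map i') := by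
    dsimp only [Functor.comp_map]
    infer_instance
  exact IsIso.of_isIso_comp_right _ ((DerivedCategory.Plus.Qh ⋙ F.rightDerivedFunctorPlus).map i')

end Pool.Agent.H92

namespace Pool.Agent.H92

variable {A : Type u₁} [Category.{v₁} A] [Abelian A]
  {B : Type u₂} [Category.{v₂} B] [Abelian B]
  {C : Type u₃} [Category.{v₃} C] [Abelian C]

section

variable {F : A ⥤ B} [F.Additive] 
variable [HasDerivedCategory A] [HasDerivedCategory B] [EnoughInjectives A]

noncomputable def rightDerivedIsoOfIsIsoUnit (F : A ⥤ B) [F.Additive] (K : CochainComplex.Plus A)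
    (h : IsIso (F.rightDerivedFunctorPlusUnit.app ((HomotopyCategory.Plus.quotient A).obj K))) :
    F.rightDerivedFunctorPlus.obj (DerivedCategory.Plus.Q.obj K) ≅
      DerivedCategory.Plus.Q.obj (F.mapCochainComplexPlus.obj K) :=
  (asIso (F.rightDerivedFunctorPlusUnit.app ((HomotopyCategory.Plus.quotient A).obj K))).symm

noncomputable def IsAdapted.rightDerivedIso [PreservesFiniteLimits F] {P : A → Prop}
    (h : IsAdapted F P) (K : CochainComplex.Plus A)
    (hK : ∀ i, P (K.obj.X i)) :
    F.rightDerivedFunctorPlus.obj (DerivedCategory.Plus.Q.obj K) ≅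
      DerivedCategory.Plus.Q.obj (F.mapCochainComplexPlus.obj K) :=
  rightDerivedIsoOfIsIsoUnit F K (h.isIso_unit K hK)

noncomputable def rightDerivedIsoOfInjective (F : A ⥤ B) [F.Additive] (K : CochainComplex.Plus A)
    (hK : ∀ i, Injective (K.obj.X i)) :
    F.rightDerivedFunctorPlus.obj (DerivedCategory.Plus.Q.obj K) ≅
      DerivedCategory.Plus.Q.obj (F.mapCochainComplexPlus.obj K) :=
  rightDerivedIsoOfIsIsoUnit F K (by infer_instance)

lemma isIso_Q_map_of_quasiIso {K L : CochainComplex.Plus A} (f : K ⟶ L) (hf : QuasiIso f.hom) :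
    IsIso (DerivedCategory.Plus.Q.map f) := by
  apply Localization.inverts DerivedCategory.Plus.Qh (HomotopyCategory.Plus.quasiIso A)
  rw [HomotopyCategory.Plus.quasiIso_iff]
  exact (HomotopyCategory.quotient_map_mem_quasiIso_iff f.hom).2 hf

/-- Every object of the bounded below derived category is represented by a complex of
injective objects. -/
lemma exists_injective_rep (K : DerivedCategory.Plus A) :
    ∃ (L : CochainComplex.Plus A), (∀ i, Injective (L.obj.X i)) ∧
      Nonempty (DerivedCategory.Plus.Q.obj L ≅ K) := by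
  obtain ⟨K', ⟨e⟩⟩ : ∃ K' : CochainComplex.Plus A, Nonempty (DerivedCategory.Plus.Q.obj K' ≅ K) := by
    obtain ⟨L, hL⟩ := HomotopyCategory.Plus.quotient_obj_surjective
      ((DerivedCategory.Plus.Qh (C := A)).objPreimage K)
    refine ⟨L, ⟨?_⟩⟩
    exact DerivedCategory.Plus.Qh.mapIso (eqToIso hL) ≪≫ DerivedCategory.Plus.Qh.objObjPreimageIso K
  obtain ⟨n, hn⟩ := K'.2
  obtain ⟨L, hL, i, hi⟩ := CochainComplex.Plus.exists_quasiIso_injective K' n
  refine ⟨(InjectiveObject.ι A).mapCochainComplexPlus.obj L, fun j => (L.obj.X j).property, ⟨?_⟩⟩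
  have hq : QuasiIso i.hom := hi
  have := isIso_Q_map_of_quasiIso i hq
  exact (asIso (DerivedCategory.Plus.Q.map i)).symm ≪≫ e

end

variable (F : A ⥤ B) (G : B ⥤ C) [F.Additive] [G.Additive] [PreservesFiniteLimits G]
  [HasDerivedCategory A] [HasDerivedCategory B] [HasDerivedCategory C]
  [EnoughInjectives A] [EnoughInjectives B] {P : B → Prop}

/-- Derived functor of a composition. -/
lemma rightDerived_comp (hG : IsAdapted G P) (hF : ∀ I : A, Injective I → P (F.obj I))
    (K : DerivedCategory.Plus A) :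
    Nonempty ((F ⋙ G).rightDerivedFunctorPlus.obj K ≅
      G.rightDerivedFunctorPlus.obj (F.rightDerivedFunctorPlus.obj K)) := by
  obtain ⟨L, hL, ⟨e⟩⟩ := exists_injective_rep K
  refine ⟨(F ⋙ G).rightDerivedFunctorPlus.mapIso e.symm ≪≫
    rightDerivedIsoOfInjective (F ⋙ G) L hL ≪≫ ?_ ≪≫
    G.rightDerivedFunctorPlus.mapIso ((rightDerivedIsoOfInjective F L hL).symm ≪≫
      F.rightDerivedFunctorPlus.mapIso e)⟩
  exact (hG.rightDerivedIso (F.mapCochainComplexPlus.obj L) (fun i => hF _ (hL i))).symm

end Pool.Agent.H92
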