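import Mathlib

open CategoryTheory Limits AlgebraicGeometry

universe u

namespace Pool.Agent.H92

section

variable {C : Type u} [SmallCategory C] (R : Cᵒᵖ ⥤ RingCat.{u})

instance presheafExactColimits (J : Type u) [SmallCategory J] [IsFiltered J] :
    HasExactColimitsOfShape J (PresheafOfModules.{u} R) := by
  have : HasExactColimitsOfShape J (Cᵒᵖ ⥤ AddCommGrpCat.{u}) := by infer_instance
  have h1 : PreservesFiniteLimits (PresheafOfModules.toPresheaf R) := by infer_instance
  have h2 : (PresheafOfModules.toPresheaf R).ReflectsIsomorphisms := by infer_instance
  have h3 : ReflectsFiniteLimits (PresheafOfModules.toPresheaf R) := by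
    constructor
    intro J _ _
    have : PreservesLimitsOfShape J (PresheafOfModules.toPresheaf R) := by infer_instance
    exact reflectsLimitsOfShape_of_reflectsIsomorphisms
  exact HasExactColimitsOfShape.domain_of_functor J (PresheafOfModules.toPresheaf R)

variable {J : GrothendieckTopology C} (R : Sheaf J RingCat.{u})

instance sheafOfModulesGrothendieck : IsGrothendieckAbelian.{u} (SheafOfModules.{u} R) := by
  let adj := PresheafOfModules.sheafificationAdjunction (𝟙 R.obj)
  have hsep : HasSeparator (SheafOfModules.{u} R) := by
    have h := PresheafOfModules.freeYoneda.isSeparating R.obj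
    let S : C → SheafOfModules.{u} R := fun X =>
      (PresheafOfModules.sheafification (𝟙 R.obj)).obj
        ((PresheafOfModules.free R.obj).obj (yoneda.obj X))
    have hS : ObjectProperty.IsSeparating (ObjectProperty.ofObj S) := by
      intro M N f g hfg
      refine (SheafOfModules.forget R).map_injective (h _ _ ?_)
      rintro _ ⟨X⟩ a
      apply (adj.homEquiv _ _).symm.injective
      have := hfg _ (ObjectProperty.ofObj_apply _ X) ((adj.homEquiv _ _).symm a)
      rw [← Adjunction.homEquiv_naturality_right_symm, ← Adjunction.homEquiv_naturality_right_symm] at this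
      exact this
    exact ⟨_, hS.isSeparator_coproduct⟩
  have hab5 : AB5OfSize.{u, u} (SheafOfModules.{u} R) := by
    constructor
    intro K _ _
    exact adj.hasExactColimitsOfShape K
  exact { }

end

instance modulesGrothendieck (X : Scheme.{u}) : IsGrothendieckAbelian.{u} X.Modules :=
  sheafOfModulesGrothendieck X.ringCatSheaf

instance modulesEnoughInjectives (X : Scheme.{u}) : EnoughInjectives X.Modules := by
  infer_instance

end Pool.Agent.H92
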