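import Mathlib
import Pool.Agent.H92.Inj

open CategoryTheory Limits AlgebraicGeometry MvPolynomial TopologicalSpace Opposite

universe w u

namespace Pool.Agent.H92

section

variable {X Y Z S : Scheme.{u}}

/-- A finite family of sections over `U` which is a basis of the sections over every smaller
open set. -/
def IsBasisOn (M : X.Modules) (U : X.Opens) {ι : Type w} [Fintype ι] (b : ι → Γ(M, U)) : Prop :=
  ∀ (V : X.Opens) (h : V ≤ U),
    Function.Bijective (fun c : ι → Γ(X, V) => ∑ i, c i • M.presheaf.map (homOfLE h).op (b i))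

/-- A sheaf of modules is a vector bundle if it is locally free of finite rank. -/
def IsVB (M : X.Modules) : Prop :=
  ∀ x : X, ∃ (U : X.Opens) (_ : x ∈ U) (n : ℕ) (b : Fin n → Γ(M, U)), IsBasisOn M U b

/-- Coherent sheaves of modules (on locally noetherian schemes): quasi-coherent sheaves whose
sections over affine open sets are finitely generated. -/
def IsCoh (M : X.Modules) : Prop :=
  M.IsQuasicoherent ∧ ∀ U : X.Opens, IsAffineOpen U → Module.Finite Γ(X, U) Γ(M, U)

/-- Bounded complexes of coherent sheaves. -/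
def IsBddCoh (C : CochainComplex X.Modules ℤ) : Prop :=
  (∃ a : ℤ, ∀ i < a, IsZero (C.X i)) ∧ (∃ b : ℤ, ∀ i > b, IsZero (C.X i)) ∧ ∀ i, IsCoh (C.X i)

/-- The complex `C` is isomorphic in the derived category of sheaves of modules on `X` to the
shift by `s` of the derived direct image of the sheaf of modules `E` on `Y`. -/
def IsRPushOf [HasDerivedCategory.{w} X.Modules] [HasDerivedCategory.{w} Y.Modules]
    (p : Y ⟶ X) (E : Y.Modules) (s : ℤ) (C : CochainComplex X.Modules ℤ) : Prop :=
  Nonempty ((DerivedCategory.Plus.ι.obj ((Scheme.Modules.pushforward p).rightDerivedFunctorPlus.obj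
    ((DerivedCategory.Plus.singleFunctor Y.Modules 0).obj E)))⟦s⟧ ≅ DerivedCategory.Q.obj C)

/-- `Y` with projections `p`, `q i` is the fibre product over `S` of `X` and `t` copies of `Z`. -/
def IsProdWith {t : ℕ} (f : X ⟶ S) (g : Z ⟶ S) (p : Y ⟶ X) (q : Fin t → (Y ⟶ Z)) : Prop :=
  (∀ i, q i ≫ g = p ≫ f) ∧
    ∀ (T : Scheme.{u}) (a : T ⟶ X) (b : Fin t → (T ⟶ Z)), (∀ i, b i ≫ g = a ≫ f) →
      ∃! h : T ⟶ Y, h ≫ p = a ∧ ∀ i, h ≫ q i = b i

end

variable (K : Type u) [Field K] (n : ℕ)

/-- The standard grading of the homogeneous coordinate ring of projective space. -/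
abbrev grd : ℕ → Submodule K (MvPolynomial (Fin (n + 1)) K) :=
  MvPolynomial.homogeneousSubmodule (Fin (n + 1)) K

noncomputable instance grdAlgebra : GradedAlgebra (grd K n) := MvPolynomial.gradedAlgebra

/-- Projective space over a field. -/
noncomputable def PSpace : Scheme.{u} := Proj (grd K n)

/-- The structure morphism. -/
noncomputable def PSpace.toSpec : PSpace K n ⟶ Spec (CommRingCat.of K) :=
  Proj.toSpecZero (grd K n) ≫ Spec.map (CommRingCat.ofHom (algebraMap K (grd K n 0)))

end Pool.Agent.H92
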