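import Mathlib
import Pool.Agent.H92.Inj

open CategoryTheory Limits AlgebraicGeometry TopologicalSpace Opposite

universe w v u v₁ u₁ v₂ u₂

namespace Pool.Agent.H92

section

variable {P : Type u₁} [Category.{v₁} P] {S : Type u₂} [Category.{v₂} S]
  {D : Type w} [Category.{v} D] {L : P ⥤ S} {i : S ⥤ P} (adj : L ⊣ i)
  [IsIso adj.counit] (H : S ⥤ D) (J : Type u) [Category.{u} J]

include adj in
lemma preservesColimitsOfShape_of_reflective [HasColimitsOfShape J P]
    [PreservesColimitsOfShape J (L ⋙ H)] : PreservesColimitsOfShape J H where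
  preservesColimit {K} := by
    have : L.IsLeftAdjoint := adj.isLeftAdjoint
    let e : (K ⋙ i) ⋙ L ≅ K :=
      Functor.associator _ _ _ ≪≫ Functor.isoWhiskerLeft K (asIso adj.counit) ≪≫ K.rightUnitor
    have : PreservesColimit ((K ⋙ i) ⋙ L) H := by
      refine preservesColimit_of_preserves_colimit_cocone
        (isColimitOfPreserves L (colimit.isColimit (K ⋙ i))) ?_
      exact isColimitOfPreserves (L ⋙ H) (colimit.isColimit (K ⋙ i))
    exact preservesColimit_of_iso_diagram H e

end

section

variable {C : Type u} [SmallCategory C] {J : GrothendieckTopology C} (R : Sheaf J RingCat.{u})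

instance toSheaf_preservesFiniteColimits :
    PreservesFiniteColimits (SheafOfModules.toSheaf.{u} R) := by
  constructor
  intro K _ _
  let adj := PresheafOfModules.sheafificationAdjunction (𝟙 R.obj)
  have : PreservesColimitsOfShape K
      (PresheafOfModules.sheafification.{u} (𝟙 R.obj) ⋙ SheafOfModules.toSheaf.{u} R) := by
    have : PreservesColimitsOfShape K (PresheafOfModules.toPresheaf R.obj ⋙
      presheafToSheaf J AddCommGrpCat.{u}) := by infer_instance
    exact preservesColimitsOfShape_of_natIso
      (PresheafOfModules.sheafificationCompToSheaf.{u} (𝟙 R.obj)).symm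
  exact preservesColimitsOfShape_of_reflective adj (SheafOfModules.toSheaf.{u} R) K

end

end Pool.Agent.H92

namespace Pool.Agent.H92

variable {X : Scheme.{u}}

/-- The underlying sheaf of abelian groups of a sheaf of modules. -/
noncomputable def toSh (X : Scheme.{u}) : X.Modules ⥤ TopCat.Sheaf AddCommGrpCat.{u} X :=
  SheafOfModules.toSheaf.{u} X.ringCatSheaf

instance : PreservesFiniteColimits (toSh X) :=
  inferInstanceAs (PreservesFiniteColimits (SheafOfModules.toSheaf.{u} X.ringCatSheaf))
instance : PreservesFiniteLimits (toSh X) :=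
  inferInstanceAs (PreservesFiniteLimits (SheafOfModules.toSheaf.{u} X.ringCatSheaf))
instance : (toSh X).Faithful :=
  inferInstanceAs (SheafOfModules.toSheaf.{u} X.ringCatSheaf).Faithful
instance : (toSh X).Additive :=
  inferInstanceAs (SheafOfModules.toSheaf.{u} X.ringCatSheaf).Additive
instance : (toSh X).ReflectsIsomorphisms :=
  inferInstanceAs (SheafOfModules.toSheaf.{u} X.ringCatSheaf).ReflectsIsomorphisms

variable {M N : X.Modules} (g : M ⟶ N)

lemma epi_iff_locallySurjective : Epi g ↔
    ∀ (U : X.Opens) (s : Γ(N, U)), ∀ x ∈ U, ∃ (V : X.Opens) (h : V ≤ U) (t : Γ(M, V)),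
      g.app V t = N.presheaf.map (homOfLE h).op s ∧ x ∈ V := by
  have h1 : Epi g ↔ Epi ((toSh X).map g) :=
    ⟨fun _ => inferInstance, fun _ => (toSh X).epi_of_epi_map inferInstance⟩
  rw [h1, ← TopCat.Sheaf.isLocallySurjective_iff_epi, TopCat.Presheaf.isLocallySurjective_iff]
  constructor
  · intro H U s x hx
    obtain ⟨V, hV, ⟨t, ht⟩, hxV⟩ := H U s x hx
    exact ⟨V, hV, t, ht, hxV⟩
  · intro H U s x hx
    obtain ⟨V, hV, t, ht, hxV⟩ := H U s x hx
    exact ⟨V, hV, ⟨t, ht⟩, hxV⟩

end Pool.Agent.H92

namespace Pool.Agent.H92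

variable {X : Scheme.{u}}

/-- Sections over an open set as a functor to abelian groups. -/
noncomputable def sec (U : X.Opens) : X.Modules ⥤ AddCommGrpCat.{u} :=
  Scheme.Modules.toPresheaf X ⋙ (evaluation _ _).obj (op U)

instance (U : X.Opens) : PreservesFiniteLimits (sec U) := by
  unfold sec
  have : PreservesLimits (Scheme.Modules.toPresheaf X) := inferInstance
  have h1 : PreservesFiniteLimits (Scheme.Modules.toPresheaf X) := inferInstance
  have h2 : PreservesFiniteLimits ((evaluation X.Opensᵒᵖ AddCommGrpCat.{u}).obj (op U)) := by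
    constructor
    intro J _ _
    infer_instance
  exact comp_preservesFiniteLimits _ _

instance (U : X.Opens) : (sec U).Additive where
  map_add := by intros; rfl

lemma sec_obj (U : X.Opens) (M : X.Modules) : (sec U).obj M = Γ(M, U) := rfl
lemma sec_map (U : X.Opens) {M N : X.Modules} (g : M ⟶ N) : (sec U).map g = g.app U := rfl

lemma app_injective_of_mono {M N : X.Modules} (g : M ⟶ N) [Mono g] (U : X.Opens) :
    Function.Injective (g.app U) := by
  have : Mono ((sec U).map g) := inferInstance
  exact (AddCommGrpCat.mono_iff_injective _).1 this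

lemma mono_of_app_injective {M N : X.Modules} (g : M ⟶ N)
    (h : ∀ U, Function.Injective (g.app U)) : Mono g := by
  have : Mono ((Scheme.Modules.toPresheaf X).map g) := by
    have : ∀ U, Mono (((Scheme.Modules.toPresheaf X).map g).app U) := by
      intro U
      exact (AddCommGrpCat.mono_iff_injective _).2 (h U.unop)
    exact NatTrans.mono_of_mono_app _
  exact (Scheme.Modules.toPresheaf X).mono_of_mono_map this

lemma exists_of_exact (S : ShortComplex X.Modules) (hS : S.Exact) [Mono S.f] (U : X.Opens)
    (t : Γ(S.X₂, U)) (ht : S.g.app U t = 0) : ∃ s : Γ(S.X₁, U), S.f.app U s = t := by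
  have h2 : (S.map (sec U)).Exact := hS.map_of_mono_of_preservesKernel (sec U) inferInstance
    inferInstance
  rw [ShortComplex.ab_exact_iff] at h2
  exact h2 t ht

/-- Constructor for exactness: exact on sections. -/
lemma exact_of_sections (S : ShortComplex X.Modules)
    (h : ∀ (U : X.Opens) (t : Γ(S.X₂, U)), S.g.app U t = 0 → ∀ x ∈ U,
      ∃ (V : X.Opens) (hV : V ≤ U) (s : Γ(S.X₁, V)),
        S.f.app V s = S.X₂.presheaf.map (homOfLE hV).op t ∧ x ∈ V) : S.Exact := by
  rw [ShortComplex.exact_iff_epi_kernel_lift, epi_iff_locallySurjective]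
  intro U s x hx
  have hcomp : (kernel.lift S.g S.f S.zero) ≫ kernel.ι S.g = S.f := kernel.lift_ι _ _ _
  obtain ⟨V, hV, t, ht, hxV⟩ := h U ((kernel.ι S.g).app U s) (by
    have : (kernel.ι S.g ≫ S.g).app U s = 0 := by rw [kernel.condition]; rfl
    exact this) x hx
  refine ⟨V, hV, t, ?_, hxV⟩
  apply app_injective_of_mono (kernel.ι S.g) V
  have e1 : (kernel.ι S.g).app V ((kernel.lift S.g S.f S.zero).app V t) = S.f.app V t := by
    have := congrArg (fun φ => Scheme.Modules.Hom.app φ V t) hcomp
    exact this
  rw [e1, ht]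
  have := ((kernel.ι S.g).mapPresheaf.naturality (homOfLE hV).op)
  exact (ConcreteCategory.congr_hom this s).symm

end Pool.Agent.H92
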