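import Mathlib
import Pool.Agent.H92.Sections
import Pool.Agent.H92.Defs

open CategoryTheory Limits AlgebraicGeometry TopologicalSpace Opposite

universe w u

namespace Pool.Agent.H92

variable {X : Scheme.{u}}

lemma app_res {M N : X.Modules} (g : M ⟶ N) {U V : X.Opens} (h : V ≤ U) (s : Γ(M, U)) :
    g.app V (M.presheaf.map (homOfLE h).op s) = N.presheaf.map (homOfLE h).op (g.app U s) :=
  ConcreteCategory.congr_hom (g.mapPresheaf.naturality (homOfLE h).op) s

lemma res_res {M : X.Modules} {U V W : X.Opens} (h : V ≤ U) (h' : W ≤ V) (s : Γ(M, U)) :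
    M.presheaf.map (homOfLE h').op (M.presheaf.map (homOfLE h).op s) =
      M.presheaf.map (homOfLE (h'.trans h)).op s := by
  rw [← ConcreteCategory.comp_apply, ← Functor.map_comp, ← op_comp]
  rfl

lemma res_self {M : X.Modules} {U : X.Opens} (h : U ≤ U) (s : Γ(M, U)) :
    M.presheaf.map (homOfLE h).op s = s := by
  have : (homOfLE h).op = 𝟙 (op U) := rfl
  rw [this, CategoryTheory.Functor.map_id]
  rfl

lemma IsBasisOn.of_le {M : X.Modules} {U : X.Opens} {ι : Type w} [Fintype ι] {b : ι → Γ(M, U)}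
    (hb : IsBasisOn M U b) {V : X.Opens} (h : V ≤ U) :
    IsBasisOn M V (fun i => M.presheaf.map (homOfLE h).op (b i)) := by
  intro W hW
  have := hb W (hW.trans h)
  convert this using 4 with c i
  rw [res_res]

lemma IsBasisOn.map_iso {M N : X.Modules} {U : X.Opens} {ι : Type w} [Fintype ι] {b : ι → Γ(M, U)}
    (hb : IsBasisOn M U b) (e : M ≅ N) : IsBasisOn N U (fun i => e.hom.app U (b i)) := by
  intro V hV
  have h1 := hb V hV
  have h2 : Function.Bijective (e.hom.app V) := by
    have : IsIso (e.hom.app V) := inferInstance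
    exact ConcreteCategory.bijective_of_isIso _
  convert h2.comp h1 using 1
  ext c
  simp only [Function.comp, map_sum, Scheme.Modules.Hom.app_smul]
  congr 1
  ext i
  congr 1
  exact (app_res e.hom hV (b i)).symm

/-- The structure sheaf as a sheaf of modules. -/
noncomputable def OX (X : Scheme.{u}) : X.Modules := SheafOfModules.unit X.ringCatSheaf

/-- The free sheaf of modules. -/
noncomputable def freeM (X : Scheme.{u}) (I : Type u) : X.Modules :=
  (SheafOfModules.free I : SheafOfModules X.ringCatSheaf)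

section free

variable {I : Type u}

noncomputable def ιM (i : I) : OX X ⟶ freeM X I := SheafOfModules.ιFree i

open Classical in
noncomputable def πM (i : I) : freeM X I ⟶ OX X :=
  Cofan.IsColimit.desc (SheafOfModules.isColimitFreeCofan I)
    (fun j => if j = i then 𝟙 (SheafOfModules.unit X.ringCatSheaf) else 0)

lemma freeM_hom_ext {M : X.Modules} (f g : freeM X I ⟶ M) (h : ∀ i, ιM i ≫ f = ιM i ≫ g) :
    f = g :=
  Cofan.IsColimit.hom_ext (SheafOfModules.isColimitFreeCofan I) _ _ h

open Classical in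
lemma ιM_πM (i j : I) : (ιM j ≫ πM i : OX X ⟶ OX X) = if j = i then 𝟙 _ else 0 :=
  Cofan.IsColimit.fac (SheafOfModules.isColimitFreeCofan I) _ _

lemma ιM_πM_self (i : I) : (ιM i ≫ πM i : OX X ⟶ OX X) = 𝟙 _ := by
  rw [ιM_πM, if_pos rfl]

lemma ιM_πM_ne (i j : I) (h : j ≠ i) : (ιM j ≫ πM i : OX X ⟶ OX X) = 0 := by
  rw [ιM_πM, if_neg h]

lemma sum_πM_ιM [Fintype I] : ∑ i, πM i ≫ ιM i = 𝟙 (freeM X I) := by
  classical
  apply freeM_hom_ext
  intro j
  rw [Preadditive.comp_sum, Category.comp_id, Finset.sum_eq_single j]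
  · rw [← Category.assoc, ιM_πM_self, Category.id_comp]
  · intro i _ hi
    rw [← Category.assoc, ιM_πM_ne _ _ hi.symm, zero_comp]
  · intro h
    exact absurd (Finset.mem_univ j) h

/-- The unit section. -/
def oneSec (V : X.Opens) : Γ(OX X, V) := (1 : Γ(X, V))

/-- Functions as sections of the structure sheaf. -/
def mkO (V : X.Opens) (r : Γ(X, V)) : Γ(OX X, V) := r

/-- Sections of the structure sheaf as functions. -/
def unO (V : X.Opens) (r : Γ(OX X, V)) : Γ(X, V) := r

@[simp] lemma unO_mkO (V : X.Opens) (r : Γ(X, V)) : unO V (mkO V r) = r := rfl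
@[simp] lemma mkO_unO (V : X.Opens) (r : Γ(OX X, V)) : mkO V (unO V r) = r := rfl

lemma mkO_injective (V : X.Opens) : Function.Injective (mkO V) := fun _ _ h => h

lemma smul_oneSec (V : X.Opens) (r : Γ(X, V)) : r • oneSec V = mkO V r := by
  change r * 1 = r
  simp

lemma smul_mkO (V : X.Opens) (r s : Γ(X, V)) : r • mkO V s = mkO V (r * s) := rfl

lemma mkO_add (V : X.Opens) (r s : Γ(X, V)) : mkO V (r + s) = mkO V r + mkO V s := rfl

@[simp] lemma mkO_zero (V : X.Opens) : mkO V (0 : Γ(X, V)) = 0 := rfl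

lemma mkO_one (V : X.Opens) : mkO V (1 : Γ(X, V)) = oneSec V := rfl

lemma map_mkO {U V : X.Opens} (h : V ≤ U) (r : Γ(X, U)) :
    (OX X).presheaf.map (homOfLE h).op (mkO U r) = mkO V (X.presheaf.map (homOfLE h).op r) := rfl

lemma map_oneSec {U V : X.Opens} (h : V ≤ U) :
    (OX X).presheaf.map (homOfLE h).op (oneSec U) = oneSec V := by
  change (X.presheaf.map (homOfLE h).op (1 : Γ(X, U))) = 1
  simp

lemma sum_app {M N : X.Modules} {ι : Type*} (s : Finset ι) (f : ι → (M ⟶ N)) (V : X.Opens)
    (t : Γ(M, V)) : (∑ i ∈ s, f i).app V t = ∑ i ∈ s, (f i).app V t := by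
  classical
  induction s using Finset.induction_on with
  | empty => simp
  | insert a s ha ih =>
    rw [Finset.sum_insert ha, Finset.sum_insert ha, Scheme.Modules.Hom.add_app, ← ih]
    rfl

lemma comp_app_apply {M N K : X.Modules} (f : M ⟶ N) (g : N ⟶ K) (V : X.Opens) (t : Γ(M, V)) :
    (f ≫ g).app V t = g.app V (f.app V t) := rfl

lemma id_app_apply {M : X.Modules} (V : X.Opens) (t : Γ(M, V)) :
    (𝟙 M : M ⟶ M).app V t = t := rfl

lemma zero_app_apply {M N : X.Modules} (V : X.Opens) (t : Γ(M, V)) :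
    (0 : M ⟶ N).app V t = 0 := rfl

lemma isBasisOn_freeM [Fintype I] (U : X.Opens) :
    IsBasisOn (freeM X I) U (fun i => (ιM i).app U (oneSec U)) := by
  intro V hV
  have key : (fun c : I → Γ(X, V) =>
      ∑ i, c i • (freeM X I).presheaf.map (homOfLE hV).op ((ιM i).app U (oneSec U))) =
      (fun c : I → Γ(X, V) => ∑ i, (ιM i).app V (mkO V (c i))) := by
    ext1 c
    refine Finset.sum_congr rfl (fun i _ => ?_)
    rw [← app_res, ← Scheme.Modules.Hom.app_smul, map_oneSec, smul_oneSec]
  rw [key]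
  have e : ∀ (j : I) (c : I → Γ(X, V)), ∑ i, (πM j).app V ((ιM i).app V (mkO V (c i)))
      = mkO V (c j) := by
    intro j c
    rw [Finset.sum_eq_single j]
    · rw [← comp_app_apply, ιM_πM_self, id_app_apply]
    · intro i _ hi
      rw [← comp_app_apply, ιM_πM_ne _ _ hi, zero_app_apply]
    · intro h
      exact absurd (Finset.mem_univ j) h
  constructor
  · intro c d hcd
    ext1 j
    have := congrArg ((πM j).app V) hcd
    simp only [map_sum] at this
    rw [e, e] at this
    exact mkO_injective V this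
  · intro t
    refine ⟨fun i => unO V ((πM i).app V t), ?_⟩
    have := congrArg (fun φ => Scheme.Modules.Hom.app φ V t) (sum_πM_ιM (X := X) (I := I))
    dsimp only at this
    rw [sum_app] at this
    exact this

end free

end Pool.Agent.H92
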