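import Mathlib
import Pool.Agent.H92.Basis

open CategoryTheory Limits AlgebraicGeometry TopologicalSpace Opposite

universe w u

namespace Pool.Agent.H92

variable {X : Scheme.{u}}

/-- The morphism from the structure sheaf determined by a global section. -/
noncomputable def secHom {M : X.Modules} (s : Γ(M, (⊤ : X.Opens))) : OX X ⟶ M :=
  (SheafOfModules.unitHomEquiv M).symm (PresheafOfModules.sectionsMk
    (fun V => (M.presheaf.map (homOfLE (le_top : V.unop ≤ ⊤)).op s : Γ(M, V.unop)))
    (fun V W f => res_res (M := M) le_top f.unop.le s))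

lemma secHom_oneSec {M : X.Modules} (s : Γ(M, (⊤ : X.Opens))) (V : X.Opens) :
    (secHom s).app V (oneSec V) = M.presheaf.map (homOfLE le_top).op s := by
  have h := SheafOfModules.unitHomEquiv_apply_coe M (secHom s) (op V)
  rw [secHom, Equiv.apply_symm_apply] at h
  exact h.symm

lemma secHom_mkO {M : X.Modules} (s : Γ(M, (⊤ : X.Opens))) (V : X.Opens) (r : Γ(X, V)) :
    (secHom s).app V (mkO V r) = r • M.presheaf.map (homOfLE le_top).op s := by
  rw [← smul_oneSec, Scheme.Modules.Hom.app_smul, secHom_oneSec]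

lemma OX_hom_ext {M : X.Modules} (f g : OX X ⟶ M)
    (h : f.app ⊤ (oneSec ⊤) = g.app ⊤ (oneSec ⊤)) : f = g := by
  ext V r
  have : ∀ f : OX X ⟶ M, f.app V r = unO V r • M.presheaf.map (homOfLE le_top).op
      (f.app ⊤ (oneSec ⊤)) := by
    intro f
    rw [← app_res, map_oneSec, ← Scheme.Modules.Hom.app_smul, smul_oneSec, mkO_unO]
  rw [this f, this g, h]

/-- The morphism from a free sheaf determined by global sections. -/
noncomputable def freeHom {M : X.Modules} {I : Type u} (b : I → Γ(M, (⊤ : X.Opens))) :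
    freeM X I ⟶ M :=
  Cofan.IsColimit.desc (SheafOfModules.isColimitFreeCofan I) (fun i => secHom (b i))

lemma ιM_freeHom {M : X.Modules} {I : Type u} (b : I → Γ(M, (⊤ : X.Opens))) (i : I) :
    ιM i ≫ freeHom b = secHom (b i) :=
  Cofan.IsColimit.fac (SheafOfModules.isColimitFreeCofan I) _ _

lemma freeHom_app {M : X.Modules} {I : Type u} [Fintype I] (b : I → Γ(M, (⊤ : X.Opens)))
    (V : X.Opens) (c : I → Γ(X, V)) :
    (freeHom b).app V (∑ i, (ιM i).app V (mkO V (c i))) =
      ∑ i, c i • M.presheaf.map (homOfLE le_top).op (b i) := by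
  rw [map_sum]
  refine Finset.sum_congr rfl (fun i _ => ?_)
  rw [← comp_app_apply, ιM_freeHom, secHom_mkO]

lemma freeM_bijective {I : Type u} [Fintype I] (V : X.Opens) :
    Function.Bijective (fun c : I → Γ(X, V) => ∑ i, (ιM i).app V (mkO V (c i))) := by
  have := isBasisOn_freeM (X := X) (I := I) V V le_rfl
  convert this using 4 with c i
  rw [res_self, ← Scheme.Modules.Hom.app_smul, smul_oneSec]

lemma isIso_freeHom {M : X.Modules} {I : Type u} [Fintype I] (b : I → Γ(M, (⊤ : X.Opens)))
    (hb : IsBasisOn M ⊤ b) : IsIso (freeHom b) := by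
  rw [Scheme.Modules.Hom.isIso_iff_isIso_app]
  intro V
  rw [ConcreteCategory.isIso_iff_bijective]
  have h1 := freeM_bijective (X := X) (I := I) V
  have h2 := hb V le_top
  rw [← Function.Bijective.of_comp_iff _ h1]
  convert h2 using 1
  ext1 c
  exact freeHom_app b V c

end Pool.Agent.H92
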