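import Mathlib
import Pool.Agent.H92.Basis2

open CategoryTheory Limits AlgebraicGeometry TopologicalSpace Opposite

universe w u

namespace Pool.Agent.H92

variable {X Y : Scheme.{u}}

/-- Sections of a restriction, seen as sections of the original module. -/
def unRes (j : Y ⟶ X) [IsOpenImmersion j] {M : X.Modules} {V : Y.Opens}
    (x : Γ(M.restrict j, V)) : Γ(M, j ''ᵁ V) := x

/-- Sections of a module, seen as sections of the restriction. -/
def mkRes (j : Y ⟶ X) [IsOpenImmersion j] {M : X.Modules} {V : Y.Opens}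
    (x : Γ(M, j ''ᵁ V)) : Γ(M.restrict j, V) := x

lemma unRes_smul (j : Y ⟶ X) [IsOpenImmersion j] {M : X.Modules} {V : Y.Opens}
    (r : Γ(Y, V)) (x : Γ(M.restrict j, V)) :
    unRes j (r • x) = (j.appIso V).inv r • unRes j x :=
  rfl

lemma unRes_add (j : Y ⟶ X) [IsOpenImmersion j] {M : X.Modules} {V : Y.Opens}
    (x y : Γ(M.restrict j, V)) :
    unRes j (x + y) = unRes j x + unRes j y :=
  rfl

@[simp]
lemma unRes_mkRes (j : Y ⟶ X) [IsOpenImmersion j] {M : X.Modules} {V : Y.Opens}
    (x : Γ(M, j ''ᵁ V)) : unRes j (mkRes j x) = x := rfl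

@[simp]
lemma mkRes_unRes (j : Y ⟶ X) [IsOpenImmersion j] {M : X.Modules} {V : Y.Opens}
    (x : Γ(M.restrict j, V)) : mkRes j (unRes j x) = x := rfl

lemma map_mkRes (j : Y ⟶ X) [IsOpenImmersion j] {M : X.Modules} {V W : Y.Opens} (h : W ≤ V)
    (x : Γ(M, j ''ᵁ V)) : (M.restrict j).presheaf.map (homOfLE h).op (mkRes j x) =
      mkRes j (M.presheaf.map (homOfLE (Scheme.Hom.image_mono _ h)).op x) := rfl

/-- Restriction of a section to an open subscheme. -/
noncomputable def toTop {M : X.Modules} {W : X.Opens} (s : Γ(M, W)) : Γ(M.restrict W.ι, ⊤) :=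
  mkRes W.ι (M.presheaf.map (homOfLE (W.ι_image_le ⊤)).op s)

lemma unRes_sum (j : Y ⟶ X) [IsOpenImmersion j] {M : X.Modules} {V : Y.Opens} {ι : Type w}
    (s : Finset ι) (x : ι → Γ(M.restrict j, V)) :
    unRes j (∑ i ∈ s, x i) = ∑ i ∈ s, unRes j (x i) := by
  classical
  induction s using Finset.induction_on with
  | empty => rfl
  | insert a s ha ih =>
    rw [Finset.sum_insert ha, Finset.sum_insert ha, unRes_add, ih]

lemma isBasisOn_restrict_iff (M : X.Modules) (W : X.Opens) {ι : Type w} [Fintype ι]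
    (b : ι → Γ(M, W)) : IsBasisOn (M.restrict W.ι) ⊤ (fun i => toTop (b i)) ↔ IsBasisOn M W b := by
  have key : ∀ (V' : (W : Scheme.{u}).Opens) (h : V' ≤ ⊤),
      Function.Bijective (fun c : ι → Γ(W, V') =>
        ∑ i, c i • ((M.restrict W.ι).presheaf.map (homOfLE h).op (toTop (b i)))) ↔
      Function.Bijective (fun c : ι → Γ(X, W.ι ''ᵁ V') =>
        ∑ i, c i • (M.presheaf.map (homOfLE (W.ι_image_le V')).op (b i))) := by
    intro V' h
    have hb : Function.Bijective (fun (c : ι → Γ(W, V')) (i : ι) => (W.ι.appIso V').inv (c i)) := by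
      have h1 : Function.Bijective ((W.ι.appIso V').inv) :=
        ConcreteCategory.bijective_of_isIso _
      constructor
      · intro c d h
        ext1 i
        exact h1.1 (congrFun h i)
      · intro c
        choose d hd using fun i => h1.2 (c i)
        exact ⟨d, funext hd⟩
    rw [← Function.Bijective.of_comp_iff _ hb]
    have hid : Function.Bijective (unRes W.ι (M := M) (V := V')) := Function.bijective_id
    rw [← Function.Bijective.of_comp_iff' hid]
    have : (unRes W.ι ∘ fun c : ι → Γ(W, V') =>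
        ∑ i, c i • ((M.restrict W.ι).presheaf.map (homOfLE h).op (toTop (b i)))) =
        (fun c : ι → Γ(X, W.ι ''ᵁ V') =>
        ∑ i, c i • (M.presheaf.map (homOfLE (W.ι_image_le V')).op (b i))) ∘
        (fun (c : ι → Γ(W, V')) (i : ι) => (W.ι.appIso V').inv (c i)) := by
      ext1 c
      simp only [Function.comp]
      rw [unRes_sum]
      refine Finset.sum_congr rfl (fun i _ => ?_)
      rw [unRes_smul, toTop, map_mkRes, unRes_mkRes, res_res]
    rw [this]
  constructor
  · intro h V hV
    obtain ⟨V', rfl⟩ : ∃ V' : (W : Scheme.{u}).Opens, V = W.ι ''ᵁ V' :=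
      ⟨W.ι ⁻¹ᵁ V, by simp [Scheme.Hom.image_preimage_eq_opensRange_inf, hV]⟩
    exact (key V' le_top).1 (h V' le_top)
  · intro h V' hV'
    exact (key V' hV').2 (h _ _)

end Pool.Agent.H92
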