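import Mathlib
import Pool.Agent.H92.Pull

open CategoryTheory Limits AlgebraicGeometry TopologicalSpace Opposite

universe w u

namespace Pool.Agent.H92

variable {X Y : Scheme.{u}} (f : Y ⟶ X)

/-- Sections of a pushforward, seen as sections upstairs. -/
def unPush {N : Y.Modules} {U : X.Opens} (x : Γ((Scheme.Modules.pushforward f).obj N, U)) :
    Γ(N, f ⁻¹ᵁ U) := x

lemma unPush_smul {N : Y.Modules} {U : X.Opens} (r : Γ(X, U))
    (x : Γ((Scheme.Modules.pushforward f).obj N, U)) :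
    unPush f (r • x) = f.app U r • unPush f x := rfl

lemma unPush_add {N : Y.Modules} {U : X.Opens} 
    (x y : Γ((Scheme.Modules.pushforward f).obj N, U)) :
    unPush f (x + y) = unPush f x + unPush f y := rfl

/-- Pullback of a section. -/
noncomputable def pb {M : X.Modules} {U : X.Opens} (s : Γ(M, U)) :
    Γ((Scheme.Modules.pullback f).obj M, f ⁻¹ᵁ U) :=
  unPush f (((Scheme.Modules.pullbackPushforwardAdjunction f).unit.app M).app U s)

lemma pb_add {M : X.Modules} {U : X.Opens} (s t : Γ(M, U)) : pb f (s + t) = pb f s + pb f t := by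
  unfold pb
  rw [map_add]
  rfl

lemma pb_smul {M : X.Modules} {U : X.Opens} (r : Γ(X, U)) (s : Γ(M, U)) :
    pb f (r • s) = f.app U r • pb f s := by
  unfold pb
  rw [Scheme.Modules.Hom.app_smul, unPush_smul]

lemma pb_zero {M : X.Modules} {U : X.Opens} : pb f (0 : Γ(M, U)) = 0 := by
  simp only [pb, map_zero]
  rfl

lemma pb_naturality {M N : X.Modules} (g : M ⟶ N) {U : X.Opens} (s : Γ(M, U)) :
    ((Scheme.Modules.pullback f).map g).app (f ⁻¹ᵁ U) (pb f s) = pb f (g.app U s) := by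
  have := congrArg (fun φ => Scheme.Modules.Hom.app φ U s)
    ((Scheme.Modules.pullbackPushforwardAdjunction f).unit.naturality g)
  exact this.symm

lemma pb_res {M : X.Modules} {U V : X.Opens} (h : V ≤ U) (s : Γ(M, U)) :
    pb f (M.presheaf.map (homOfLE h).op s) =
      ((Scheme.Modules.pullback f).obj M).presheaf.map
        (homOfLE (Scheme.Hom.preimage_mono f h)).op (pb f s) := by
  exact congrArg (unPush f)
    (app_res ((Scheme.Modules.pullbackPushforwardAdjunction f).unit.app M) h s)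

/-- pullback of the structure sheaf -/
noncomputable def pbO : (Scheme.Modules.pullback f).obj (OX X) ⟶ OX Y :=
  SheafOfModules.pullbackObjUnitToUnit f.toRingCatSheafHom

lemma pbO_pb_one (U : X.Opens) :
    (pbO f).app (f ⁻¹ᵁ U) (pb f (oneSec U)) = oneSec (f ⁻¹ᵁ U) := by
  have h := SheafOfModules.pullbackPushforwardAdjunction_homEquiv_pullbackObjUnitToUnit
    f.toRingCatSheafHom
  rw [Adjunction.homEquiv_unit] at h
  have h2 := congrArg (fun φ : OX X ⟶ (Scheme.Modules.pushforward f).obj (OX Y) =>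
    Scheme.Modules.Hom.app φ U (oneSec U)) h
  have h3 : (pbO f).app (f ⁻¹ᵁ U) (pb f (oneSec U)) = mkO (f ⁻¹ᵁ U) (f.app U (1 : Γ(X, U))) := h2
  rw [h3, map_one, mkO_one]

instance opensMap_preservesTerminal :
    PreservesLimit (Functor.empty.{0} (Opens X)) (Opens.map f.base) := by
  apply preservesTerminal_of_iso
  exact (Opens.map f.base).mapIso (terminalIsTerminal.uniqueUpToIso isTerminalTop) ≪≫
    (eqToIso (by rfl : (Opens.map f.base).obj ⊤ = ⊤)) ≪≫
    (isTerminalTop.uniqueUpToIso terminalIsTerminal)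

variable {I : Type u}

noncomputable def pbFree : (Scheme.Modules.pullback f).obj (freeM X I) ≅ freeM Y I :=
  SheafOfModules.pullbackObjFreeIso f.toRingCatSheafHom I

lemma pbFree_pb (i : I) (U : X.Opens) :
    (pbFree f).hom.app (f ⁻¹ᵁ U) (pb f ((ιM i).app U (oneSec U))) =
      (ιM i).app (f ⁻¹ᵁ U) (oneSec (f ⁻¹ᵁ U)) := by
  have h : (Scheme.Modules.pullback f).map (ιM i) ≫ (pbFree f).hom = pbO f ≫ ιM i :=
    SheafOfModules.pullback_map_ιFree_comp_pullbackObjFreeIso_hom f.toRingCatSheafHom i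
  rw [← pb_naturality, ← comp_app_apply, h, comp_app_apply, pbO_pb_one]

lemma isBasisOn_pb_top {M : X.Modules} [Fintype I] (b : I → Γ(M, (⊤ : X.Opens)))
    (hb : IsBasisOn M ⊤ b) :
    IsBasisOn ((Scheme.Modules.pullback f).obj M) (f ⁻¹ᵁ ⊤) (fun i => pb f (b i)) := by
  have := isIso_freeHom b hb
  let e : freeM Y I ≅ (Scheme.Modules.pullback f).obj M :=
    (pbFree f).symm ≪≫ (Scheme.Modules.pullback f).mapIso (asIso (freeHom b))
  have h := (isBasisOn_freeM (X := Y) (I := I) (f ⁻¹ᵁ ⊤)).map_iso e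
  convert h using 2 with i
  have h1 : (freeHom b).app ⊤ ((ιM i).app ⊤ (oneSec ⊤)) = b i := by
    rw [← comp_app_apply, ιM_freeHom, secHom_oneSec, res_self]
  have h2 : (pbFree f).inv.app (f ⁻¹ᵁ ⊤) ((ιM i).app (f ⁻¹ᵁ ⊤) (oneSec (f ⁻¹ᵁ ⊤))) =
      pb f ((ιM i).app ⊤ (oneSec ⊤)) := by
    rw [← pbFree_pb, ← comp_app_apply, Iso.hom_inv_id, id_app_apply]
  have h3 : e.hom = (pbFree f).inv ≫ (Scheme.Modules.pullback f).map (freeHom b) := rfl
  rw [h3, comp_app_apply, h2, pb_naturality, h1]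

end Pool.Agent.H92
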