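import Mathlib
import Pool.Agent.H92.Pull2

open CategoryTheory Limits AlgebraicGeometry TopologicalSpace Opposite

universe w u

namespace Pool.Agent.H92

variable {X Y : Scheme.{u}} (f : Y ⟶ X) (U : X.Opens)

open Scheme.Modules in
/-- compatibility of pushforwards with a restricted morphism -/
noncomputable def betaIso : pushforward (f ⁻¹ᵁ U).ι ⋙ pushforward f ≅
    pushforward (f ∣_ U) ⋙ pushforward U.ι :=
  pushforwardComp _ _ ≪≫ pushforwardCongr (morphismRestrict_ι f U).symm ≪≫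
    (pushforwardComp _ _).symm

open Scheme.Modules in
noncomputable def adj1 : pullback f ⋙ restrictFunctor (f ⁻¹ᵁ U).ι ⊣
    pushforward (f ⁻¹ᵁ U).ι ⋙ pushforward f :=
  (pullbackPushforwardAdjunction f).comp (restrictAdjunction (f ⁻¹ᵁ U).ι)

open Scheme.Modules in
noncomputable def adj2 : restrictFunctor U.ι ⋙ pullback (f ∣_ U) ⊣
    pushforward (f ∣_ U) ⋙ pushforward U.ι :=
  (restrictAdjunction U.ι).comp (pullbackPushforwardAdjunction (f ∣_ U))

open Scheme.Modules in
noncomputable def alphaIso : restrictFunctor U.ι ⋙ pullback (f ∣_ U) ≅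
    pullback f ⋙ restrictFunctor (f ⁻¹ᵁ U).ι :=
  (conjugateIsoEquiv (adj1 f U) (adj2 f U)).symm (betaIso f U)

lemma alpha_unit (M : X.Modules) :
    (adj1 f U).unit.app M ≫ (betaIso f U).hom.app _ =
      (adj2 f U).unit.app M ≫
        (Scheme.Modules.pushforward (f ∣_ U) ⋙ Scheme.Modules.pushforward U.ι).map
          ((alphaIso f U).hom.app M) := by
  have h := unit_conjugateEquiv (adj1 f U) (adj2 f U) (alphaIso f U).hom M
  have h2 : conjugateEquiv (adj1 f U) (adj2 f U) (alphaIso f U).hom = (betaIso f U).hom := by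
    have := (conjugateIsoEquiv (adj1 f U) (adj2 f U)).apply_symm_apply (betaIso f U)
    exact congrArg Iso.hom this
  rw [h2] at h
  exact h

end Pool.Agent.H92

namespace Pool.Agent.H92

variable {X Y : Scheme.{u}} (f : Y ⟶ X) (U : X.Opens)

/-- the component of alpha -/
noncomputable def alphaM (M : X.Modules) :
    (Scheme.Modules.pullback (f ∣_ U)).obj (M.restrict U.ι) ≅
      ((Scheme.Modules.pullback f).obj M).restrict (f ⁻¹ᵁ U).ι :=
  (alphaIso f U).app M

lemma res_injective_of_eq {M : X.Modules} {V W : X.Opens} (h : V = W) (h' : V ≤ W) :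
    Function.Injective (M.presheaf.map (homOfLE h').op) := by
  subst h
  intro s t hst
  rwa [res_self, res_self] at hst

/-- Restriction of a section along an open immersion. -/
noncomputable def toRes (j : Y ⟶ X) [IsOpenImmersion j] {M : X.Modules} {U : X.Opens}
    (s : Γ(M, U)) : Γ(M.restrict j, j ⁻¹ᵁ U) :=
  mkRes j (M.presheaf.map (homOfLE (j.image_preimage_le U)).op s)

lemma adj2_unit_app (M : X.Modules) (s : Γ(M, U)) :
    unPush (f ∣_ U) (unPush U.ι (((adj2 f U).unit.app M).app U s)) =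
      pb (f ∣_ U) (toRes U.ι s) := by
  have h : (adj2 f U).unit.app M =
      (Scheme.Modules.restrictAdjunction U.ι).unit.app M ≫
        (Scheme.Modules.pushforward U.ι).map
          ((Scheme.Modules.pullbackPushforwardAdjunction (f ∣_ U)).unit.app
            ((Scheme.Modules.restrictFunctor U.ι).obj M)) :=
    Adjunction.comp_unit_app _ _ M
  rw [h]
  rfl

lemma adj1_unit_app (M : X.Modules) (s : Γ(M, U)) :
    unPush (f ⁻¹ᵁ U).ι (unPush f (((adj1 f U).unit.app M).app U s)) =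
      toRes (f ⁻¹ᵁ U).ι (pb f s) := by
  have h : (adj1 f U).unit.app M =
      (Scheme.Modules.pullbackPushforwardAdjunction f).unit.app M ≫
        (Scheme.Modules.pushforward f).map
          ((Scheme.Modules.restrictAdjunction (f ⁻¹ᵁ U).ι).unit.app
            ((Scheme.Modules.pullback f).obj M)) :=
    Adjunction.comp_unit_app _ _ M
  rw [h]
  rfl

lemma opens_eq (V : X.Opens) :
    (f ⁻¹ᵁ U).ι ⁻¹ᵁ (f ⁻¹ᵁ V) = (f ∣_ U) ⁻¹ᵁ (U.ι ⁻¹ᵁ V) := by
  rw [← Scheme.Hom.comp_preimage, ← Scheme.Hom.comp_preimage, morphismRestrict_ι]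

lemma beta_app (N : (f ⁻¹ᵁ U : Scheme.{u}).Modules) (V : X.Opens)
    (x : Γ((Scheme.Modules.pushforward (f ⁻¹ᵁ U).ι ⋙ Scheme.Modules.pushforward f).obj N, V)) :
    unPush (f ∣_ U) (unPush U.ι (((betaIso f U).hom.app N).app V x)) =
      N.presheaf.map (homOfLE (opens_eq f U V).ge).op (unPush (f ⁻¹ᵁ U).ι (unPush f x)) := by
  have h : (betaIso f U).hom.app N =
      (Scheme.Modules.pushforwardComp _ _).hom.app N ≫
        (Scheme.Modules.pushforwardCongr (morphismRestrict_ι f U).symm).hom.app N ≫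
          (Scheme.Modules.pushforwardComp _ _).inv.app N := rfl
  rw [h, Scheme.Modules.Hom.comp_app, Scheme.Modules.Hom.comp_app,
    Scheme.Modules.pushforwardComp_hom_app_app, Scheme.Modules.pushforwardComp_inv_app_app,
    Scheme.Modules.pushforwardCongr_hom_app_app]
  rfl

lemma alpha_pb_aux (M : X.Modules) (s : Γ(M, U)) :
    (alphaM f U M).hom.app ((f ∣_ U) ⁻¹ᵁ (U.ι ⁻¹ᵁ U)) (pb (f ∣_ U) (toRes U.ι s)) =
      (((Scheme.Modules.pullback f).obj M).restrict (f ⁻¹ᵁ U).ι).presheaf.map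
        (homOfLE (opens_eq f U U).ge).op (toRes (f ⁻¹ᵁ U).ι (pb f s)) := by
  have h := congrArg (fun φ => Scheme.Modules.Hom.app φ U s) (alpha_unit f U M)
  dsimp only at h
  rw [comp_app_apply, comp_app_apply] at h
  have h1 := congrArg (fun x => unPush (f ∣_ U) (unPush U.ι x)) h
  dsimp only at h1
  rw [beta_app, adj1_unit_app] at h1
  rw [← adj2_unit_app]
  exact h1.symm

lemma alpha_pb (M : X.Modules) (s : Γ(M, U)) :
    (alphaM f U M).hom.app ((f ∣_ U) ⁻¹ᵁ ⊤) (pb (f ∣_ U) (toTop s)) = toTop (pb f s) := by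
  have htop : U.ι ⁻¹ᵁ U = ⊤ := by simp
  have hle : (U.ι ⁻¹ᵁ U) ≤ ⊤ := le_top
  have e1 : toRes U.ι s = (M.restrict U.ι).presheaf.map (homOfLE hle).op (toTop s) := by
    rw [toTop, map_mkRes, toRes, res_res]
  have h := alpha_pb_aux f U M s
  rw [e1, pb_res, app_res] at h
  have heq : (f ∣_ U) ⁻¹ᵁ (U.ι ⁻¹ᵁ U) = (f ∣_ U) ⁻¹ᵁ ⊤ := by rw [htop]
  apply res_injective_of_eq heq (Scheme.Hom.preimage_mono _ hle)
  rw [h]
  have e2 : ∀ (V : (f ⁻¹ᵁ U : Scheme.{u}).Opens) (h' : V ≤ ⊤),
      (((Scheme.Modules.pullback f).obj M).restrict (f ⁻¹ᵁ U).ι).presheaf.map (homOfLE h').op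
        (toTop (pb f s)) = mkRes (f ⁻¹ᵁ U).ι (((Scheme.Modules.pullback f).obj M).presheaf.map
          (homOfLE (Scheme.Opens.ι_image_le _ _)).op (pb f s)) := by
    intro V h'
    rw [toTop, map_mkRes, res_res]
  have e3 : (((Scheme.Modules.pullback f).obj M).restrict (f ⁻¹ᵁ U).ι).presheaf.map
        (homOfLE (opens_eq f U U).ge).op (toRes (f ⁻¹ᵁ U).ι (pb f s)) =
      mkRes (f ⁻¹ᵁ U).ι (((Scheme.Modules.pullback f).obj M).presheaf.map
          (homOfLE (Scheme.Opens.ι_image_le _ _)).op (pb f s)) := by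
    rw [toRes, map_mkRes, res_res]
  rw [e3]
  exact (e2 _ le_top).symm

/-- Pulling back a local basis gives a local basis. -/
theorem IsBasisOn.pb {M : X.Modules} {I : Type u} [Fintype I] {b : I → Γ(M, U)}
    (hb : IsBasisOn M U b) :
    IsBasisOn ((Scheme.Modules.pullback f).obj M) (f ⁻¹ᵁ U) (fun i => pb f (b i)) := by
  rw [← isBasisOn_restrict_iff] at hb ⊢
  have h := (isBasisOn_pb_top (f ∣_ U) _ hb).map_iso (alphaM f U M)
  simp only [alpha_pb] at h
  exact h

end Pool.Agent.H92
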