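import Mathlib
import Pool.Agent.H92.Pull3

open CategoryTheory Limits AlgebraicGeometry TopologicalSpace Opposite

universe w u

namespace Pool.Agent.H92

variable {X : Scheme.{u}}

/-- Restriction of sections. -/
noncomputable def rs {M : X.Modules} {U V : X.Opens} (h : V ≤ U) (s : Γ(M, U)) : Γ(M, V) :=
  M.presheaf.map (homOfLE h).op s

section rs

variable {M N : X.Modules} {U V W : X.Opens}

lemma rs_def (h : V ≤ U) (s : Γ(M, U)) : rs h s = M.presheaf.map (homOfLE h).op s := rfl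

@[simp] lemma rs_add (h : V ≤ U) (s t : Γ(M, U)) : rs h (s + t) = rs h s + rs h t := by
  simp [rs]

@[simp] lemma rs_sub (h : V ≤ U) (s t : Γ(M, U)) : rs h (s - t) = rs h s - rs h t := by
  simp [rs]

@[simp] lemma rs_neg (h : V ≤ U) (s : Γ(M, U)) : rs h (-s) = - rs h s := by
  simp [rs]

@[simp] lemma rs_zero (h : V ≤ U) : rs h (0 : Γ(M, U)) = 0 := by
  simp [rs]

@[simp] lemma rs_sum {ι : Type*} (h : V ≤ U) (s : Finset ι) (f : ι → Γ(M, U)) :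
    rs h (∑ i ∈ s, f i) = ∑ i ∈ s, rs h (f i) := by
  simp [rs]

@[simp] lemma rs_rs (h : V ≤ U) (h' : W ≤ V) (s : Γ(M, U)) :
    rs h' (rs h s) = rs (h'.trans h) s := res_res h h' s

@[simp] lemma rs_self (h : U ≤ U) (s : Γ(M, U)) : rs h s = s := res_self h s

lemma rs_smul (h : V ≤ U) (r : Γ(X, U)) (s : Γ(M, U)) :
    rs h (r • s) = X.presheaf.map (homOfLE h).op r • rs h s := by
  simp [rs]

lemma app_rs (g : M ⟶ N) (h : V ≤ U) (s : Γ(M, U)) : g.app V (rs h s) = rs h (g.app U s) :=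
  app_res g h s

lemma glue_two {U W₀ W₁ : X.Opens} (h₀ : W₀ ≤ U) (h₁ : W₁ ≤ U) (hU : U ≤ W₀ ⊔ W₁)
    (a : Γ(M, W₀)) (b : Γ(M, W₁))
    (hab : rs (inf_le_left : W₀ ⊓ W₁ ≤ W₀) a = rs (inf_le_right : W₀ ⊓ W₁ ≤ W₁) b) :
    ∃ t : Γ(M, U), rs h₀ t = a ∧ rs h₁ t = b := by
  let Us : Bool → X.Opens := fun i => if i then W₁ else W₀
  let sf : ∀ i : Bool, Γ(M, Us i) := fun i => match i with
    | true => b
    | false => a
  obtain ⟨t, ht, -⟩ := TopCat.Sheaf.existsUnique_gluing' ⟨_, M.isSheaf⟩ Us U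
    (fun i => match i with
      | true => homOfLE h₁
      | false => homOfLE h₀) (by
      refine hU.trans ?_
      rw [sup_le_iff]
      exact ⟨le_iSup Us false, le_iSup Us true⟩) sf (by
      rintro (_ | _) (_ | _)
      · rfl
      · exact hab
      · have h2 := congrArg (rs (show W₁ ⊓ W₀ ≤ W₀ ⊓ W₁ by rw [inf_comm])) hab
        rw [rs_rs, rs_rs] at h2
        exact h2.symm
      · rfl)
  exact ⟨t, ht false, ht true⟩

lemma eq_of_rs_two {U W₀ W₁ : X.Opens} (h₀ : W₀ ≤ U) (h₁ : W₁ ≤ U) (hU : U ≤ W₀ ⊔ W₁)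
    (s t : Γ(M, U)) (e₀ : rs h₀ s = rs h₀ t) (e₁ : rs h₁ s = rs h₁ t) : s = t :=
  TopCat.Sheaf.eq_of_locally_eq₂ ⟨_, M.isSheaf⟩ (homOfLE h₀) (homOfLE h₁) hU s t e₀ e₁

end rs

/-- The Mayer–Vietoris surjectivity property. -/
def MV (M : X.Modules) (W₀ W₁ : X.Opens) : Prop :=
  ∀ s : Γ(M, W₀ ⊓ W₁), ∃ (s₀ : Γ(M, W₀)) (s₁ : Γ(M, W₁)),
    s = rs inf_le_left s₀ + rs inf_le_right s₁

/-- A section lifts along a morphism. -/
def Lifts {N Q : X.Modules} (g : N ⟶ Q) {U : X.Opens} (s : Γ(Q, U)) : Prop :=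
  ∃ t : Γ(N, U), g.app U t = s

lemma Lifts.rs {N Q : X.Modules} {g : N ⟶ Q} {U V : X.Opens} {s : Γ(Q, U)} (h : Lifts g s)
    (hV : V ≤ U) : Lifts g (rs hV s) := by
  obtain ⟨t, rfl⟩ := h
  exact ⟨Pool.Agent.H92.rs hV t, app_rs g hV t⟩

lemma lifts_union (S : ShortComplex X.Modules) (hS : S.ShortExact) {U W₀ W₁ : X.Opens}
    (h₀ : W₀ ≤ U) (h₁ : W₁ ≤ U) (hU : U ≤ W₀ ⊔ W₁) (hMV : MV S.X₁ W₀ W₁)
    (s : Γ(S.X₃, U)) (l₀ : Lifts S.g (rs h₀ s)) (l₁ : Lifts S.g (rs h₁ s)) : Lifts S.g s := by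
  have := hS.mono_f
  obtain ⟨t₀, ht₀⟩ := l₀
  obtain ⟨t₁, ht₁⟩ := l₁
  have hd : S.g.app (W₀ ⊓ W₁) (rs inf_le_left t₀ - rs inf_le_right t₁) = 0 := by
    rw [map_sub, app_rs, app_rs, ht₀, ht₁, rs_rs, rs_rs, sub_self]
  obtain ⟨m, hm⟩ := exists_of_exact S hS.exact _ _ hd
  obtain ⟨m₀, m₁, hm01⟩ := hMV m
  have hfg : ∀ (V : X.Opens) (x : Γ(S.X₁, V)), S.g.app V (S.f.app V x) = 0 := by
    intro V x
    rw [← comp_app_apply, S.zero, zero_app_apply]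
  obtain ⟨t, ht0, ht1⟩ := glue_two h₀ h₁ hU (t₀ - S.f.app _ m₀) (t₁ + S.f.app _ m₁) (by
    rw [rs_sub, rs_add, ← app_rs, ← app_rs, sub_eq_iff_eq_add, add_assoc, add_comm (S.f.app _ _),
      ← sub_eq_iff_eq_add', ← hm, hm01, map_add])
  refine ⟨t, eq_of_rs_two h₀ h₁ hU _ _ ?_ ?_⟩
  · rw [← app_rs, ht0, map_sub, hfg, sub_zero, ht₀]
  · rw [← app_rs, ht1, map_add, hfg, add_zero, ht₁]

end Pool.Agent.H92
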