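import Mathlib
import Pool.Agent.H92.MV

open CategoryTheory Limits AlgebraicGeometry TopologicalSpace Opposite

universe w u

namespace Pool.Agent.H92

variable {X : Scheme.{u}}

/-- Mayer–Vietoris surjectivity for all standard two-element covers of affine opens. -/
def AffMV (M : X.Modules) : Prop :=
  ∀ (W : X.Opens), IsAffineOpen W → ∀ (f g : Γ(X, W)), (∃ a b, a * f + b * g = 1) →
    MV M (X.basicOpen f) (X.basicOpen g)

lemma sections_bot_eq_zero {M : X.Modules} {U : X.Opens} (hU : U = ⊥) (s : Γ(M, U)) : s = 0 := by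
  refine TopCat.Sheaf.eq_of_locally_eq' ⟨_, M.isSheaf⟩ (fun i : Empty => i.elim) U
    (fun i => i.elim) ?_ s 0 (fun i => i.elim)
  rw [hU]
  exact bot_le

lemma lifts_affine (S : ShortComplex X.Modules) (hS : S.ShortExact) (hM : AffMV S.X₁)
    {W : X.Opens} (hW : IsAffineOpen W) (s : Γ(S.X₃, W)) : Lifts S.g s := by
  have hepi := hS.epi_g
  -- the ideal of functions such that the section lifts
  let T : Ideal Γ(X, W) :=
    { carrier := {f | Lifts S.g (rs (X.basicOpen_le f) s)}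
      zero_mem' := by
        refine ⟨0, ?_⟩
        rw [map_zero]
        exact (sections_bot_eq_zero (X.basicOpen_zero W) _).symm
      add_mem' := by
        intro f g hf hg
        have hle : X.basicOpen (f + g) ≤ W := X.basicOpen_le _
        have haff : IsAffineOpen (X.basicOpen (f + g)) := hW.basicOpen _
        let r := X.presheaf.map (homOfLE hle).op
        have hu : IsUnit (r (f + g)) := RingedSpace.isUnit_res_basicOpen _ _
        obtain ⟨v, hv⟩ := hu.exists_left_inv
        have hMV := hM _ haff (r f) (r g) ⟨v, v, by rw [← mul_add, ← map_add, hv]⟩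
        have ef : X.basicOpen (r f) = X.basicOpen (f + g) ⊓ X.basicOpen f :=
          X.basicOpen_res _ _
        have eg : X.basicOpen (r g) = X.basicOpen (f + g) ⊓ X.basicOpen g :=
          X.basicOpen_res _ _
        refine lifts_union S hS (X.basicOpen_le (r f)) (X.basicOpen_le (r g)) ?_ hMV _ ?_ ?_
        · rw [ef, eg, ← inf_sup_left]
          exact le_inf le_rfl (X.basicOpen_add_le f g)
        · have := Lifts.rs hf (show X.basicOpen (r f) ≤ X.basicOpen f by
            rw [ef]; exact inf_le_right)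
          rw [rs_rs] at this ⊢
          exact this
        · have := Lifts.rs hg (show X.basicOpen (r g) ≤ X.basicOpen g by
            rw [eg]; exact inf_le_right)
          rw [rs_rs] at this ⊢
          exact this
      smul_mem' := by
        intro a f hf
        have hle : X.basicOpen (a • f) ≤ X.basicOpen f := by
          rw [smul_eq_mul, X.basicOpen_mul]
          exact inf_le_right
        have := Lifts.rs hf hle
        rw [rs_rs] at this
        exact this }
  have hT : (1 : Γ(X, W)) ∈ T := by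
    have hspan : Ideal.span (T : Set Γ(X, W)) = ⊤ := by
      rw [← hW.self_le_iSup_basicOpen_iff]
      intro x hx
      obtain ⟨V, hV, t, ht, hxV⟩ := (epi_iff_locallySurjective S.g).1 hepi W s x hx
      obtain ⟨f, hfV, hxf⟩ := hW.exists_basicOpen_le ⟨x, hxV⟩ hx
      rw [Opens.mem_iSup]
      refine ⟨⟨f, ?_⟩, hxf⟩
      have h1 : Lifts S.g (rs hV s) := ⟨t, ht⟩
      have := Lifts.rs h1 hfV
      rw [rs_rs] at this
      exact this
    rw [Ideal.span_eq] at hspan
    rw [hspan]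
    exact Submodule.mem_top
  have h2 : Lifts S.g (rs (X.basicOpen_le (1 : Γ(X, W))) s) := hT
  have h3 := Lifts.rs h2 (show W ≤ X.basicOpen (1 : Γ(X, W)) by rw [X.basicOpen_one])
  rwa [rs_rs, rs_self] at h3

lemma MV.quot (S : ShortComplex X.Modules) {W₀ W₁ : X.Opens} (h : MV S.X₂ W₀ W₁)
    (hl : ∀ s : Γ(S.X₃, W₀ ⊓ W₁), Lifts S.g s) : MV S.X₃ W₀ W₁ := by
  intro s
  obtain ⟨t, rfl⟩ := hl s
  obtain ⟨t₀, t₁, rfl⟩ := h t
  exact ⟨S.g.app _ t₀, S.g.app _ t₁, by rw [map_add, app_rs, app_rs]⟩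

lemma AffMV.quot (S : ShortComplex X.Modules) (hS : S.ShortExact) (h₁ : AffMV S.X₁)
    (h₂ : AffMV S.X₂) : AffMV S.X₃ := by
  intro W hW f g hfg
  refine (h₂ W hW f g hfg).quot S (fun s => ?_)
  have : IsAffineOpen (X.basicOpen f ⊓ X.basicOpen g) := by
    rw [← X.basicOpen_mul]
    exact hW.basicOpen _
  exact lifts_affine S hS h₁ this s

lemma MV.biprod {M N : X.Modules} {W₀ W₁ : X.Opens} (hM : MV M W₀ W₁) (hN : MV N W₀ W₁) :
    MV (M ⊞ N) W₀ W₁ := by
  intro s
  obtain ⟨a₀, a₁, ha⟩ := hM ((biprod.fst : M ⊞ N ⟶ M).app _ s)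
  obtain ⟨b₀, b₁, hb⟩ := hN ((biprod.snd : M ⊞ N ⟶ N).app _ s)
  refine ⟨(biprod.inl : M ⟶ M ⊞ N).app _ a₀ + (biprod.inr : N ⟶ M ⊞ N).app _ b₀,
    (biprod.inl : M ⟶ M ⊞ N).app _ a₁ + (biprod.inr : N ⟶ M ⊞ N).app _ b₁, ?_⟩
  have htot : (biprod.inl : M ⟶ M ⊞ N).app _ ((biprod.fst : M ⊞ N ⟶ M).app _ s) +
      (biprod.inr : N ⟶ M ⊞ N).app _ ((biprod.snd : M ⊞ N ⟶ N).app _ s) = s := by
    have h := congrArg (fun φ => Scheme.Modules.Hom.app φ (W₀ ⊓ W₁) s)
      (biprod.total (X := M) (Y := N))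
    exact h
  rw [← htot, ha, hb]
  simp only [map_add, rs_add, app_rs]
  abel

lemma AffMV.biprod {M N : X.Modules} (hM : AffMV M) (hN : AffMV N) : AffMV (M ⊞ N) :=
  fun W hW f g hfg => (hM W hW f g hfg).biprod (hN W hW f g hfg)

/-- Flasque sheaves of modules. -/
def Flasque (M : X.Modules) : Prop :=
  ∀ (U V : X.Opens) (h : V ≤ U), Function.Surjective (rs h : Γ(M, U) → Γ(M, V))

lemma Flasque.mv {M : X.Modules} (h : Flasque M) (W₀ W₁ : X.Opens) : MV M W₀ W₁ := by
  intro s
  obtain ⟨t, ht⟩ := h W₀ (W₀ ⊓ W₁) inf_le_left s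
  exact ⟨t, 0, by rw [ht, rs_zero, add_zero]⟩

lemma Flasque.affMV {M : X.Modules} (h : Flasque M) : AffMV M :=
  fun _ _ _ _ _ => h.mv _ _

lemma Flasque.pushforward {Y : Scheme.{u}} (f : Y ⟶ X) {M : Y.Modules} (h : Flasque M) :
    Flasque ((Scheme.Modules.pushforward f).obj M) :=
  fun _ _ hUV => h _ _ (Scheme.Hom.preimage_mono f hUV)

end Pool.Agent.H92
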