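import Mathlib
import Pool.Agent.H92.AffMV

open CategoryTheory Limits AlgebraicGeometry TopologicalSpace Opposite

universe w u

namespace Pool.Agent.H92

section presheaf

variable {C : Type u} [SmallCategory C] {R : Cᵒᵖ ⥤ RingCat.{u}}

lemma freeYonedaEquiv_naturality_left {U V : C} (i : V ⟶ U) {M : PresheafOfModules.{u} R}
    (ψ : (PresheafOfModules.free R).obj (yoneda.obj U) ⟶ M) :
    PresheafOfModules.freeYonedaEquiv ((PresheafOfModules.free R).map (yoneda.map i) ≫ ψ) =
      M.map i.op (PresheafOfModules.freeYonedaEquiv ψ) := by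
  have h := (PresheafOfModules.freeAdjunction R).homEquiv_naturality_left (yoneda.map i) ψ
  rw [PresheafOfModules.freeAdjunction_homEquiv, PresheafOfModules.freeAdjunction_homEquiv] at h
  have h2 := yonedaEquiv_naturality (F := M.presheaf ⋙ forget _)
    (PresheafOfModules.freeHomEquiv ψ) i
  have h3 : PresheafOfModules.freeYonedaEquiv
      ((PresheafOfModules.free R).map (yoneda.map i) ≫ ψ) =
      yonedaEquiv (F := M.presheaf ⋙ forget _) (yoneda.map i ≫ PresheafOfModules.freeHomEquiv ψ) :=
    congrArg (yonedaEquiv (F := M.presheaf ⋙ forget _)) h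
  rw [h3]
  exact h2.symm

instance free_map_mono {U V : C} (i : V ⟶ U) [Mono i] :
    Mono ((PresheafOfModules.free R).map (yoneda.map i)) := by
  apply PresheafOfModules.mono_of_injective
  intro W
  have h : Function.Injective ((yoneda.map i).app W) := by
    intro a b hab
    exact (cancel_mono i).1 hab
  exact Finsupp.mapDomain_injective h

end presheaf

variable {X : Scheme.{u}}

/-- The object representing sections over `U`. -/
noncomputable def repObj (U : X.Opens) : X.Modules :=
  (PresheafOfModules.sheafification (𝟙 X.ringCatSheaf.obj)).obj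
    ((PresheafOfModules.free X.ringCatSheaf.obj).obj (yoneda.obj U))

noncomputable def repMap {U V : X.Opens} (h : V ≤ U) : repObj V ⟶ repObj U :=
  (PresheafOfModules.sheafification (𝟙 X.ringCatSheaf.obj)).map
    ((PresheafOfModules.free X.ringCatSheaf.obj).map (yoneda.map (homOfLE h)))

instance {U V : X.Opens} (h : V ≤ U) : Mono (repMap h) := by
  have : Mono (homOfLE h) := inferInstance
  have : Mono ((PresheafOfModules.sheafification (𝟙 X.ringCatSheaf.obj)).map
    ((PresheafOfModules.free X.ringCatSheaf.obj).map (yoneda.map (homOfLE h)))) := inferInstance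
  exact this

noncomputable def repEquiv {M : X.Modules} {U : X.Opens} : (repObj U ⟶ M) ≃ Γ(M, U) :=
  ((PresheafOfModules.sheafificationAdjunction (𝟙 X.ringCatSheaf.obj)).homEquiv
    ((PresheafOfModules.free X.ringCatSheaf.obj).obj (yoneda.obj U)) M).trans
    PresheafOfModules.freeYonedaEquiv

lemma repEquiv_naturality {M : X.Modules} {U V : X.Opens} (h : V ≤ U) (φ : repObj U ⟶ M) :
    repEquiv (repMap h ≫ φ) = rs h (repEquiv φ) := by
  have h1 := (PresheafOfModules.sheafificationAdjunction
    (𝟙 X.ringCatSheaf.obj)).homEquiv_naturality_left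
      ((PresheafOfModules.free X.ringCatSheaf.obj).map (yoneda.map (homOfLE h))) φ
  have h2 := freeYonedaEquiv_naturality_left (homOfLE h)
    ((PresheafOfModules.sheafificationAdjunction (𝟙 X.ringCatSheaf.obj)).homEquiv
    ((PresheafOfModules.free X.ringCatSheaf.obj).obj (yoneda.obj U)) M φ)
  rw [← h1] at h2
  exact h2

theorem flasque_of_injective (I : X.Modules) (hI : Injective I) : Flasque I := by
  intro U V h s
  let φ := repEquiv.symm s
  obtain ⟨ψ, hψ⟩ := hI.factors φ (repMap h)
  refine ⟨repEquiv ψ, ?_⟩
  rw [← repEquiv_naturality, hψ]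
  exact repEquiv.apply_symm_apply s

end Pool.Agent.H92
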