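import Mathlib
import Pool.Agent.H92.Flasque
import Pool.Agent.H92.Derived

open CategoryTheory Limits AlgebraicGeometry TopologicalSpace Opposite

universe w u

namespace Pool.Agent.H92

variable {X Y : Scheme.{u}}

/-- A morphism covered by two relatively affine open sets. -/
structure TwoCover (π : Y ⟶ X) where
  U₀ : Y.Opens
  U₁ : Y.Opens
  sup_eq : U₀ ⊔ U₁ = ⊤
  aff₀ : ∀ V : X.Opens, IsAffineOpen V → IsAffineOpen (π ⁻¹ᵁ V ⊓ U₀)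
  aff₁ : ∀ V : X.Opens, IsAffineOpen V → IsAffineOpen (π ⁻¹ᵁ V ⊓ U₁)
  aff₀₁ : ∀ V : X.Opens, IsAffineOpen V → IsAffineOpen ((π ⁻¹ᵁ V ⊓ U₀) ⊓ (π ⁻¹ᵁ V ⊓ U₁))

variable {π : Y ⟶ X} (c : TwoCover π)

lemma TwoCover.le_sup (V : X.Opens) : π ⁻¹ᵁ V ≤ (π ⁻¹ᵁ V ⊓ c.U₀) ⊔ (π ⁻¹ᵁ V ⊓ c.U₁) := by
  rw [← inf_sup_left, c.sup_eq, inf_top_eq]

/-- The adapted class for a two-cover. -/
def TwoCover.Acyc (M : Y.Modules) : Prop :=
  AffMV M ∧ ∀ V : X.Opens, IsAffineOpen V → MV M (π ⁻¹ᵁ V ⊓ c.U₀) (π ⁻¹ᵁ V ⊓ c.U₁)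

lemma TwoCover.acyc_of_flasque {M : Y.Modules} (h : Flasque M) : c.Acyc M :=
  ⟨h.affMV, fun _ _ => h.mv _ _⟩

theorem TwoCover.isAdapted : IsAdapted (Scheme.Modules.pushforward π) c.Acyc where
  injective I hI := c.acyc_of_flasque (flasque_of_injective I hI)
  biprod M N hM hN := ⟨hM.1.biprod hN.1, fun V hV => (hM.2 V hV).biprod (hN.2 V hV)⟩
  quot S hS h₁ h₂ := ⟨AffMV.quot S hS h₁.1 h₂.1, fun V hV =>
    (h₂.2 V hV).quot S (fun s => lifts_affine S hS h₁.1 (c.aff₀₁ V hV) s)⟩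
  epi S hS h₁ h₂ := by
    rw [epi_iff_locallySurjective]
    intro U s x hx
    obtain ⟨_, ⟨V, hV, rfl⟩, hxV, hVU⟩ := X.isBasis_affineOpens.exists_subset_of_mem_open hx U.isOpen
    have hVU' : V ≤ U := hVU
    let s' : Γ(S.X₃, π ⁻¹ᵁ V) := rs (Scheme.Hom.preimage_mono π hVU') (unPush π s)
    have hl : Lifts S.g s' :=
      lifts_union S hS inf_le_left inf_le_left (c.le_sup V) (h₁.2 V hV) s'
        (lifts_affine S hS h₁.1 (c.aff₀ V hV) _) (lifts_affine S hS h₁.1 (c.aff₁ V hV) _)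
    obtain ⟨t, ht⟩ := hl
    exact ⟨V, hVU', t, ht, hxV⟩

instance (f : Y ⟶ X) : PreservesFiniteLimits (Scheme.Modules.pushforward f) := by
  have : PreservesLimits (Scheme.Modules.pushforward f) := inferInstance
  infer_instance

end Pool.Agent.H92
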