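import Mathlib
import Pool.Agent.H92.Defs

open CategoryTheory Limits MvPolynomial HomogeneousLocalization

universe w w' u

namespace Pool.Agent.H92

variable (K : Type u) [Field K] (n : ℕ)

variable {n}

lemma X_mem (i : Fin (n + 1)) : (X i : MvPolynomial (Fin (n + 1)) K) ∈ grd K n 1 :=
  isHomogeneous_X K i

/-- The coordinate function `x_j / x_i`. -/
noncomputable def coord (i j : Fin (n + 1)) : Away (grd K n) (X i) :=
  Away.mk (grd K n) (X_mem K i) 1 (X j) (by
    have := X_mem K j
    simpa using this)

/-- Constants. -/
noncomputable def constA (f : MvPolynomial (Fin (n + 1)) K) : K →+* Away (grd K n) f :=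
  (fromZeroRingHom (grd K n) _).comp (algebraMap K (grd K n 0))

/-- Evaluation of polynomials at the coordinate functions. -/
noncomputable def evA (i : Fin (n + 1)) :
    MvPolynomial (Fin (n + 1)) K →+* Away (grd K n) (X i) :=
  eval₂Hom (constA K (X i)) (coord K i)

/-- the localization map -/
noncomputable abbrev loc (f : MvPolynomial (Fin (n + 1)) K) :
    MvPolynomial (Fin (n + 1)) K →+* Localization.Away f := algebraMap _ _

/-- the inverse of the variable -/
noncomputable def invX (i : Fin (n + 1)) :
    Localization.Away (X i : MvPolynomial (Fin (n + 1)) K) :=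
  IsLocalization.Away.invSelf (X i : MvPolynomial (Fin (n + 1)) K)

lemma X_mul_invX (i : Fin (n + 1)) : loc K (X i) (X i) * invX K i = 1 :=
  IsLocalization.Away.mul_invSelf (X i : MvPolynomial (Fin (n + 1)) K)

lemma mk_eq (i : Fin (n + 1)) (d : ℕ) (F : MvPolynomial (Fin (n + 1)) K) :
    Localization.mk F (⟨X i ^ d, d, rfl⟩ : Submonoid.powers (X i)) =
      loc K (X i) F * invX K i ^ d := by
  have h1 : Localization.mk F (⟨X i ^ d, d, rfl⟩ : Submonoid.powers (X i)) *
      loc K (X i) (X i ^ d) = loc K (X i) F := by
    rw [Localization.mk_eq_mk']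
    exact IsLocalization.mk'_spec _ _ _
  calc _ = Localization.mk F (⟨X i ^ d, d, rfl⟩ : Submonoid.powers (X i)) *
        (loc K (X i) (X i) * invX K i) ^ d := by rw [X_mul_invX, one_pow, mul_one]
    _ = _ := by rw [mul_pow, ← map_pow, ← mul_assoc, h1]

lemma val_coord (i j : Fin (n + 1)) : (coord K i j).val = loc K (X i) (X j) * invX K i := by
  rw [coord, Away.val_mk, mk_eq, pow_one]

lemma val_constA (f : MvPolynomial (Fin (n + 1)) K) (a : K) :
    (constA K f a).val = loc K f (C a) := by
  change Localization.mk _ _ = _
  rw [Localization.mk_eq_mk']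
  exact IsLocalization.mk'_one _ _

lemma val_evA (i : Fin (n + 1)) (F : MvPolynomial (Fin (n + 1)) K) {d : ℕ}
    (hF : F ∈ grd K n d) : (evA K i F).val = loc K (X i) F * invX K i ^ d := by
  have h1 : (evA K i F).val = algebraMap (Away (grd K n) (X i)) (Localization.Away (X i))
      (evA K i F) := rfl
  have h2 : (algebraMap (Away (grd K n) (X i)) (Localization.Away (X i))).comp (evA K i) =
      eval₂Hom ((loc K (X i)).comp (C : K →+* _)) (fun j => loc K (X i) (X j) * invX K i) := by
    apply MvPolynomial.ringHom_ext
    · intro a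
      simp only [evA, RingHom.comp_apply, coe_eval₂Hom, eval₂_C]
      exact val_constA K _ a
    · intro j
      simp only [evA, RingHom.comp_apply, coe_eval₂Hom, eval₂_X]
      exact val_coord K i j
  rw [h1, ← RingHom.comp_apply, h2, coe_eval₂Hom, eval₂_eq']
  have h3 : ∀ m ∈ F.support, ((loc K (X i)).comp (C : K →+* _)) (coeff m F) *
      ∏ j, (loc K (X i) (X j) * invX K i) ^ m j =
      loc K (X i) (monomial m (coeff m F)) * invX K i ^ d := by
    intro m hm
    have hdeg : ∑ j, m j = d := by
      have h4 := hF (mem_support_iff.1 hm)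
      rw [← h4]
      simp [Finsupp.weight_apply, Finsupp.sum_fintype]
    simp only [mul_pow, Finset.prod_mul_distrib, Finset.prod_pow_eq_pow_sum, hdeg]
    rw [← mul_assoc]
    congr 1
    rw [monomial_eq, map_mul, RingHom.comp_apply]
    congr 1
    rw [Finsupp.prod_fintype _ _ (fun j => pow_zero _), map_prod]
    simp only [map_pow]
  rw [Finset.sum_congr rfl h3, ← Finset.sum_mul, ← map_sum, support_sum_monomial_coeff]

lemma evA_surjective (i : Fin (n + 1)) : Function.Surjective (evA K i) := by
  intro x
  obtain ⟨d, F, hF, rfl⟩ := Away.mk_surjective (grd K n) (X_mem K i) x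
  refine ⟨F, ?_⟩
  apply HomogeneousLocalization.val_injective
  have hF' : F ∈ grd K n d := by simpa using hF
  rw [val_evA K i F hF', Away.val_mk, mk_eq]

/-- The standard chart. -/
noncomputable def chart (i : Fin (n + 1)) :
    MvPolynomial (Fin n) K →+* Away (grd K n) (X i) :=
  eval₂Hom (constA K (X i)) (fun j => coord K i (i.succAbove j))

/-- Dehomogenization. -/
noncomputable def dehom (i : Fin (n + 1)) :
    MvPolynomial (Fin (n + 1)) K →+* MvPolynomial (Fin n) K :=
  eval₂Hom C (Fin.insertNth i 1 X)

lemma dehom_self (i : Fin (n + 1)) : dehom K i (X i) = 1 := by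
  simp [dehom]

lemma dehom_X (i : Fin (n + 1)) (j : Fin n) : dehom K i (X (i.succAbove j)) = X j := by
  simp [dehom]

lemma dehom_C (i : Fin (n + 1)) (a : K) : dehom K i (C a) = C a := by
  simp [dehom]

lemma coord_self (i : Fin (n + 1)) : coord K i i = 1 := by
  apply HomogeneousLocalization.val_injective
  rw [val_coord, X_mul_invX, HomogeneousLocalization.val_one]

lemma chart_dehom (i : Fin (n + 1)) : (chart K i).comp (dehom K i) = evA K i := by
  apply MvPolynomial.ringHom_ext
  · intro a
    rw [RingHom.comp_apply, dehom_C]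
    simp [chart, evA]
  · intro j
    rw [RingHom.comp_apply]
    by_cases h : j = i
    · subst h
      rw [dehom_self, map_one]
      simp [evA, coord_self]
    · obtain ⟨k, rfl⟩ := Fin.exists_succAbove_eq h
      rw [dehom_X]
      simp [chart, evA]

lemma chart_surjective (i : Fin (n + 1)) : Function.Surjective (chart K i) := by
  intro x
  obtain ⟨F, rfl⟩ := evA_surjective K i x
  exact ⟨dehom K i F, by rw [← RingHom.comp_apply, chart_dehom]⟩

/-- The retraction. -/
noncomputable def dehomL (i : Fin (n + 1)) :
    Localization.Away (X i : MvPolynomial (Fin (n + 1)) K) →+* MvPolynomial (Fin n) K :=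
  IsLocalization.Away.lift (X i) (g := dehom K i) (by rw [dehom_self]; exact isUnit_one)

lemma dehomL_algebraMap (i : Fin (n + 1)) (F : MvPolynomial (Fin (n + 1)) K) :
    dehomL K i (loc K (X i) F) = dehom K i F :=
  IsLocalization.Away.lift_eq _ _ _

lemma dehomL_invX (i : Fin (n + 1)) : dehomL K i (invX K i) = 1 := by
  have h := congrArg (dehomL K i) (X_mul_invX K i)
  rwa [map_mul, map_one, dehomL_algebraMap, dehom_self, one_mul] at h

lemma dehomL_chart (i : Fin (n + 1)) (F : MvPolynomial (Fin n) K) :
    dehomL K i (chart K i F).val = F := by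
  have h : ((dehomL K i).comp (algebraMap (Away (grd K n) (X i)) (Localization.Away (X i)))).comp
      (chart K i) = RingHom.id _ := by
    apply MvPolynomial.ringHom_ext
    · intro a
      simp only [chart, RingHom.comp_apply, coe_eval₂Hom, eval₂_C, RingHom.id_apply]
      rw [show algebraMap (Away (grd K n) (X i)) (Localization.Away (X i)) (constA K (X i) a) =
        loc K (X i) (C a) from val_constA K _ a, dehomL_algebraMap, dehom_C]
    · intro j
      simp only [chart, RingHom.comp_apply, coe_eval₂Hom, eval₂_X, RingHom.id_apply]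
      rw [show algebraMap (Away (grd K n) (X i)) (Localization.Away (X i))
        (coord K i (i.succAbove j)) = loc K (X i) (X (i.succAbove j)) * invX K i
        from val_coord K i _, map_mul, dehomL_algebraMap, dehomL_invX, dehom_X, mul_one]
  exact RingHom.congr_fun h F

theorem chart_bijective (i : Fin (n + 1)) : Function.Bijective (chart K i) := by
  refine ⟨fun F G h => ?_, chart_surjective K i⟩
  rw [← dehomL_chart K i F, h, dehomL_chart]

end Pool.Agent.H92
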