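import Mathlib
import Pool.Agent.H92.Derived

open CategoryTheory Limits ZeroObject

universe v₁ v₂ v₃ u₁ u₂ u₃

namespace Pool.Agent.H92

variable {A : Type u₁} [Category.{v₁} A] [Abelian A]
  {B : Type u₂} [Category.{v₂} B] [Abelian B]
  [HasDerivedCategory A] [HasDerivedCategory B] [EnoughInjectives A]

/-- Isomorphic functors have isomorphic derived functors. -/
lemma rightDerived_congr {F G : A ⥤ B} [F.Additive] [G.Additive] (e : F ≅ G)
    (K : DerivedCategory.Plus A) :
    Nonempty (F.rightDerivedFunctorPlus.obj K ≅ G.rightDerivedFunctorPlus.obj K) := by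
  obtain ⟨L, hL, ⟨i⟩⟩ := exists_injective_rep K
  have h : F.mapCochainComplexPlus.obj L ≅ G.mapCochainComplexPlus.obj L :=
    ObjectProperty.isoMk _ ((NatIso.mapHomologicalComplex e (ComplexShape.up ℤ)).app L.obj)
  exact ⟨F.rightDerivedFunctorPlus.mapIso i.symm ≪≫ rightDerivedIsoOfInjective F L hL ≪≫
    DerivedCategory.Plus.Q.mapIso h ≪≫ (rightDerivedIsoOfInjective G L hL).symm ≪≫
    G.rightDerivedFunctorPlus.mapIso i⟩

/-- The derived functor of the identity. -/
lemma rightDerived_id (K : DerivedCategory.Plus A) :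
    Nonempty ((𝟭 A).rightDerivedFunctorPlus.obj K ≅ K) := by
  obtain ⟨L, hL, ⟨i⟩⟩ := exists_injective_rep K
  have h : (𝟭 A).mapCochainComplexPlus.obj L ≅ L :=
    ObjectProperty.isoMk _ ((Functor.mapHomologicalComplexIdIso A (ComplexShape.up ℤ)).app L.obj)
  exact ⟨(𝟭 A).rightDerivedFunctorPlus.mapIso i.symm ≪≫ rightDerivedIsoOfInjective (𝟭 A) L hL ≪≫
    DerivedCategory.Plus.Q.mapIso h ≪≫ i⟩

end Pool.Agent.H92
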