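import Mathlib

open CategoryTheory Limits TopologicalSpace Opposite

universe w u

namespace Pool.Agent.H92

lemma exists_basis_away {R M : Type*} [CommRing R] [AddCommGroup M] [Module R M]
    [Module.Finite R M] [Module.Projective R M] (p : Ideal R) [p.IsPrime] :
    ∃ r, r ∉ p ∧ ∃ (n : ℕ) (m : Fin n → M),
      (∀ x : M, ∃ (k : ℕ) (c : Fin n → R), r ^ k • x = ∑ i, c i • m i) ∧
      (∀ c : Fin n → R, ∑ i, c i • m i = 0 → ∃ k : ℕ, ∀ i, r ^ k * c i = 0) := by
  have : Module.FinitePresentation R M := Module.finitePresentation_of_projective _ _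
  have hfree : Module.Free (Localization.AtPrime p) (LocalizedModule p.primeCompl M) :=
    Module.free_of_flat_of_isLocalRing
  obtain ⟨r, hr, hfr, -⟩ := Module.FinitePresentation.exists_free_localizedModule_powers
    p.primeCompl (LocalizedModule.mkLinearMap p.primeCompl M) (Localization.AtPrime p)
  refine ⟨r, hr, ?_⟩
  let Rr := Localization (.powers r)
  let Mr := LocalizedModule.Away r M
  have hfin : Module.Finite Rr Mr := inferInstance
  let I := Module.Free.ChooseBasisIndex Rr Mr
  have : Fintype I := inferInstance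
  let b : Module.Basis (Fin (Fintype.card I)) Rr Mr :=
    (Module.Free.chooseBasis Rr Mr).reindex (Fintype.equivFin I)
  -- clear the denominators
  let ι := LocalizedModule.mkLinearMap (.powers r) M
  have h1 : ∀ i, ∃ (m : M) (s : Submonoid.powers r), s.1 • b i = ι m := by
    intro i
    obtain ⟨⟨m, s⟩, h⟩ := IsLocalizedModule.surj (.powers r) ι (b i)
    exact ⟨m, s, h⟩
  choose m s hs using h1
  have hu : ∀ i, ∃ v : Rr, v * algebraMap R Rr (s i) = 1 := fun i =>
    (IsLocalization.map_units Rr (s i)).exists_left_inv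
  choose v hv using hu
  have hb : ∀ i, b i = v i • ι (m i) := by
    intro i
    rw [← hs, ← algebraMap_smul Rr (s i).1 (b i), smul_smul, hv, one_smul]
  refine ⟨Fintype.card I, m, ?_, ?_⟩
  · intro x
    have hx := b.sum_repr (ι x)
    obtain ⟨⟨_, N, rfl⟩, hN⟩ := IsLocalization.exist_integer_multiples_of_finite
      (Submonoid.powers r) (fun i => b.repr (ι x) i * v i)
    choose e he using hN
    have h2 : ι (r ^ N • x) = ι (∑ i, e i • m i) := by
      rw [map_smul, map_sum, ← hx, Finset.smul_sum]
      refine Finset.sum_congr rfl (fun i _ => ?_)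
      rw [map_smul, ← algebraMap_smul Rr (e i) (ι (m i)), he, hb, smul_smul, smul_assoc]
    obtain ⟨⟨_, k, rfl⟩, hk⟩ := (IsLocalizedModule.eq_iff_exists (.powers r) ι).1 h2
    refine ⟨k + N, fun i => r ^ k * e i, ?_⟩
    rw [pow_add, mul_smul]
    simp only [mul_smul, ← Finset.smul_sum]
    exact hk
  · intro c hc
    have h2 := congrArg ι hc
    rw [map_sum, map_zero] at h2
    have h3 : ∑ i, (algebraMap R Rr (c i) * algebraMap R Rr (s i)) • b i = 0 := by
      rw [← h2]
      refine Finset.sum_congr rfl (fun i _ => ?_)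
      rw [map_smul, mul_smul, algebraMap_smul, algebraMap_smul, hs]
    have h4 := (Fintype.linearIndependent_iff.1 b.linearIndependent) _ h3
    have h5 : ∀ i, ∃ k : ℕ, r ^ k * c i = 0 := by
      intro i
      have h6 : algebraMap R Rr (c i) = 0 :=
        ((IsLocalization.map_units Rr (s i)).mul_left_eq_zero).1 (h4 i)
      rw [IsLocalization.map_eq_zero_iff (Submonoid.powers r)] at h6
      obtain ⟨⟨_, k, rfl⟩, hk⟩ := h6
      exact ⟨k, hk⟩
    choose k hk using h5
    refine ⟨∑ i, k i, fun i => ?_⟩
    obtain ⟨l, hl⟩ := Nat.exists_eq_add_of_le (Finset.single_le_sum (f := k)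
      (fun _ _ => Nat.zero_le _) (Finset.mem_univ i))
    rw [hl, add_comm, pow_add, mul_assoc, hk, mul_zero]

end Pool.Agent.H92
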