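import Mathlib
import Pool.Agent.H92.Adapted

open CategoryTheory Limits AlgebraicGeometry TopologicalSpace Opposite

universe w u

namespace Pool.Agent.H92

variable {X : Scheme.{u}}

/-- Restriction of functions. -/
noncomputable def rO {U V : X.Opens} (h : V ≤ U) : Γ(X, U) →+* Γ(X, V) :=
  (X.presheaf.map (homOfLE h).op).hom

lemma rO_apply {U V : X.Opens} (h : V ≤ U) (r : Γ(X, U)) :
    rO h r = X.presheaf.map (homOfLE h).op r := rfl

@[simp] lemma rO_rO {U V W : X.Opens} (h : V ≤ U) (h' : W ≤ V) (r : Γ(X, U)) :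
    rO h' (rO h r) = rO (h'.trans h) r := by
  rw [rO_apply, rO_apply, rO_apply, ← ConcreteCategory.comp_apply, ← Functor.map_comp, ← op_comp]
  rfl

@[simp] lemma rO_self {U : X.Opens} (h : U ≤ U) (r : Γ(X, U)) : rO h r = r := by
  have : (homOfLE h).op = 𝟙 (op U) := rfl
  rw [rO_apply, this, CategoryTheory.Functor.map_id]
  rfl

lemma rs_smul' {M : X.Modules} {U V : X.Opens} (h : V ≤ U) (r : Γ(X, U)) (s : Γ(M, U)) :
    rs h (r • s) = rO h r • rs h s := rs_smul h r s

/-- Sections over affine opens localize: an elementary form of quasi-coherence. -/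
def QC (M : X.Modules) : Prop :=
  ∀ (U : X.Opens), IsAffineOpen U → ∀ f : Γ(X, U),
    (∀ s : Γ(M, X.basicOpen f), ∃ (n : ℕ) (t : Γ(M, U)),
      rs (X.basicOpen_le f) t = rO (X.basicOpen_le f) f ^ n • s) ∧
    (∀ t : Γ(M, U), rs (X.basicOpen_le f) t = 0 → ∃ n : ℕ, f ^ n • t = 0)

lemma fromSpec_algebraMap {U : X.Opens} (hU : IsAffineOpen U) (V : (Spec Γ(X, U)).Opens)
    (r : Γ(X, U)) (hle : hU.fromSpec ''ᵁ V ≤ U) :
    (hU.fromSpec.appIso V).inv (algebraMap Γ(X, U) Γ(Spec Γ(X, U), V) r) = rO hle r := by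
  have h1 : V ≤ hU.fromSpec ⁻¹ᵁ U := by
    rw [hU.fromSpec_preimage_self]; exact le_top
  have h2 : hU.fromSpec.appLE U V h1 =
      (Scheme.ΓSpecIso Γ(X, U)).inv ≫ (Spec Γ(X, U)).presheaf.map (homOfLE le_top).op := by
    rw [Scheme.Hom.appLE, hU.fromSpec_app_self, Category.assoc, ← Functor.map_comp]
    rfl
  have h3 := Scheme.Hom.appLE_appIso_inv hU.fromSpec h1
  rw [h2] at h3
  exact ConcreteCategory.congr_hom h3 r

end Pool.Agent.H92

namespace Pool.Agent.H92

variable {X : Scheme.{u}}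

lemma spec_smul_def {U : X.Opens} (hU : IsAffineOpen U) {M : X.Modules}
    (V : (Spec Γ(X, U)).Opens) (r : Γ(X, U)) (x : Γ(M.restrict hU.fromSpec, V))
    (hle : hU.fromSpec ''ᵁ V ≤ U) :
    unRes hU.fromSpec (r • x) = rO hle r • unRes hU.fromSpec x := by
  rw [← fromSpec_algebraMap hU V r hle]
  rfl

theorem QC.of_isQuasicoherent (M : X.Modules) [M.IsQuasicoherent] : QC M := by
  intro U hU f
  let M' := M.restrict hU.fromSpec
  have hqc : M'.IsQuasicoherent := inferInstance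
  have hiso : IsIso M'.fromTildeΓ := inferInstance
  rw [isIso_fromTildeΓ_iff_isLocalizing] at hiso
  have h := hiso f
  have hD : hU.fromSpec ''ᵁ (PrimeSpectrum.basicOpen f) = X.basicOpen f :=
    hU.fromSpec_image_basicOpen f
  have hT : hU.fromSpec ''ᵁ ⊤ = U := by
    rw [Scheme.Hom.image_top_eq_opensRange, hU.opensRange_fromSpec]
  have hle : (PrimeSpectrum.basicOpen f) ≤ ⊤ := le_top
  constructor
  · intro s
    let s' : Γ(M', PrimeSpectrum.basicOpen f) := mkRes hU.fromSpec (rs hD.le s)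
    obtain ⟨⟨x, ⟨_, n, rfl⟩⟩, hx⟩ := h.surj s'
    refine ⟨n, rs hT.ge (unRes hU.fromSpec (x : Γ(M', ⊤))), ?_⟩
    have hx' : (f ^ n) • s' = M'.presheaf.map (homOfLE hle).op (x : Γ(M', ⊤)) := hx
    have hx2 := congrArg (unRes hU.fromSpec) hx'
    rw [spec_smul_def hU _ _ _ (hD.le.trans (X.basicOpen_le f))] at hx2
    have e1 : unRes hU.fromSpec (M'.presheaf.map (homOfLE hle).op (x : Γ(M', ⊤))) =
      rs (Scheme.Hom.image_mono _ hle) (unRes hU.fromSpec (x : Γ(M', ⊤))) := rfl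
    rw [e1, unRes_mkRes] at hx2
    have hx3 := congrArg (rs hD.ge) hx2
    rw [rs_smul', rs_rs, rs_rs, rs_self, rO_rO, map_pow] at hx3
    rw [rs_rs]
    exact hx3.symm
  · intro t ht
    let t' : Γ(M', ⊤) := mkRes hU.fromSpec (rs hT.le t)
    have h0 : ((modulesSpecToSheaf.obj M').obj.map
        (PrimeSpectrum.basicOpen f).leTop.op).hom t' = 0 := by
      have e0 : unRes hU.fromSpec (M'.presheaf.map (homOfLE hle).op t') =
          rs hD.le (rs (X.basicOpen_le f) t) := by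
        have e1 : unRes hU.fromSpec (M'.presheaf.map (homOfLE hle).op t') =
          rs (Scheme.Hom.image_mono _ hle) (unRes hU.fromSpec t') := rfl
        rw [e1, unRes_mkRes, rs_rs, rs_rs]
      rw [ht, rs_zero] at e0
      exact e0
    obtain ⟨⟨_, n, rfl⟩, hn⟩ := (IsLocalizedModule.eq_zero_iff (.powers f) _).1 h0
    refine ⟨n, ?_⟩
    have hn' : f ^ n • t' = 0 := hn
    have hn2 := congrArg (unRes hU.fromSpec) hn'
    rw [spec_smul_def hU _ _ _ hT.le, unRes_mkRes] at hn2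
    have hn3 := congrArg (rs hT.ge) hn2
    rw [rs_smul', rs_rs, rs_self, rO_rO, rO_self] at hn3
    rw [hn3]
    exact rs_zero _

end Pool.Agent.H92
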