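import Mathlib
import Pool.Agent.H92.QC

open CategoryTheory Limits AlgebraicGeometry TopologicalSpace Opposite

universe w u

namespace Pool.Agent.H92

variable {X : Scheme.{u}}

lemma rO_isUnit {U : X.Opens} (f : Γ(X, U)) : IsUnit (rO (X.basicOpen_le f) f) :=
  RingedSpace.isUnit_res_basicOpen _ _

lemma basicOpen_rO {U V : X.Opens} (h : V ≤ U) (f : Γ(X, U)) :
    X.basicOpen (rO h f) = V ⊓ X.basicOpen f :=
  X.basicOpen_res _ _

theorem QC.affMV {M : X.Modules} (hM : QC M) : AffMV M := by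
  intro W hW f g hfg s
  have h1 : X.basicOpen (rO (X.basicOpen_le f) g) = X.basicOpen f ⊓ X.basicOpen g :=
    basicOpen_rO _ _
  have h2 : X.basicOpen (rO (X.basicOpen_le g) f) = X.basicOpen f ⊓ X.basicOpen g := by
    rw [basicOpen_rO, inf_comm]
  obtain ⟨n, t, ht⟩ := (hM _ (hW.basicOpen f) (rO (X.basicOpen_le f) g)).1 (rs h1.le s)
  obtain ⟨m, t', ht'⟩ := (hM _ (hW.basicOpen g) (rO (X.basicOpen_le g) f)).1 (rs h2.le s)
  obtain ⟨a, b, hab⟩ := hfg
  have hcop : IsCoprime (f ^ m) (g ^ n) := (show IsCoprime f g from ⟨a, b, hab⟩).pow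
  obtain ⟨c, d, hcd⟩ := hcop
  refine ⟨rO (X.basicOpen_le f) d • t, rO (X.basicOpen_le g) c • t', ?_⟩
  have k1 := congrArg (rs h1.ge) ht
  have k2 := congrArg (rs h2.ge) ht'
  rw [rs_smul', map_pow, rO_rO, rO_rO, rs_rs, rs_rs, rs_self] at k1 k2
  rw [rs_smul', rs_smul', rO_rO, rO_rO]
  rw [k1, k2, smul_smul, smul_smul, ← add_smul]
  have e := congrArg (rO ((inf_le_left).trans (X.basicOpen_le f) :
    X.basicOpen f ⊓ X.basicOpen g ≤ W)) hcd
  rw [map_add, map_mul, map_mul, map_pow, map_pow, map_one, add_comm] at e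
  rw [e, one_smul]

lemma QC.kernel (S : ShortComplex X.Modules) (hS : S.Exact) [Mono S.f] (h₂ : QC S.X₂)
    (h₃ : QC S.X₃) : QC S.X₁ := by
  intro U hU f
  have hinj := app_injective_of_mono S.f
  constructor
  · intro s
    obtain ⟨n, t, ht⟩ := (h₂ U hU f).1 (S.f.app _ s)
    have h0 : rs (X.basicOpen_le f) (S.g.app U t) = 0 := by
      rw [← app_rs, ht, Scheme.Modules.Hom.app_smul, ← comp_app_apply, S.zero, zero_app_apply,
        smul_zero]
    obtain ⟨m, hm⟩ := (h₃ U hU f).2 _ h0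
    obtain ⟨t', ht'⟩ := exists_of_exact S hS U (f ^ m • t) (by
      rw [Scheme.Modules.Hom.app_smul, hm])
    refine ⟨m + n, t', hinj _ ?_⟩
    rw [app_rs, ht', rs_smul', ht, smul_smul, map_pow, ← pow_add, Scheme.Modules.Hom.app_smul]
  · intro t ht
    obtain ⟨n, hn⟩ := (h₂ U hU f).2 (S.f.app _ t) (by rw [← app_rs, ht, map_zero])
    refine ⟨n, hinj _ ?_⟩
    rw [Scheme.Modules.Hom.app_smul, hn, map_zero]

lemma QC.quot (S : ShortComplex X.Modules) (hS : S.ShortExact) (h₁ : QC S.X₁) (h₂ : QC S.X₂) :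
    QC S.X₃ := by
  have := hS.mono_f
  intro U hU f
  constructor
  · intro s
    obtain ⟨s', rfl⟩ := lifts_affine S hS h₁.affMV (hU.basicOpen f) s
    obtain ⟨n, t, ht⟩ := (h₂ U hU f).1 s'
    exact ⟨n, S.g.app _ t, by rw [← app_rs, ht, Scheme.Modules.Hom.app_smul]⟩
  · intro t ht
    obtain ⟨t', rfl⟩ := lifts_affine S hS h₁.affMV hU t
    rw [← app_rs] at ht
    obtain ⟨m, hm⟩ := exists_of_exact S hS.exact _ _ ht
    obtain ⟨n, m', hm'⟩ := (h₁ U hU f).1 m
    obtain ⟨k, hk⟩ := (h₂ U hU f).2 (f ^ n • t' - S.f.app _ m') (by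
      rw [rs_sub, ← app_rs, hm', rs_smul', Scheme.Modules.Hom.app_smul, hm, map_pow, sub_self])
    refine ⟨k + n, ?_⟩
    rw [smul_sub, sub_eq_zero, smul_smul, ← pow_add] at hk
    rw [← Scheme.Modules.Hom.app_smul, hk, ← Scheme.Modules.Hom.app_smul, ← comp_app_apply,
      S.zero, zero_app_apply]

lemma QC.of_iso {M N : X.Modules} (e : M ≅ N) (h : QC M) : QC N := by
  intro U hU f
  have key : ∀ (V : X.Opens) (s : Γ(N, V)), e.hom.app V (e.inv.app V s) = s := by
    intro V s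
    rw [← comp_app_apply, e.inv_hom_id, id_app_apply]
  constructor
  · intro s
    obtain ⟨n, t, ht⟩ := (h U hU f).1 (e.inv.app _ s)
    exact ⟨n, e.hom.app _ t, by rw [← app_rs, ht, Scheme.Modules.Hom.app_smul, key]⟩
  · intro t ht
    obtain ⟨n, hn⟩ := (h U hU f).2 (e.inv.app _ t) (by rw [← app_rs, ht, map_zero])
    refine ⟨n, ?_⟩
    rw [← key _ t, ← Scheme.Modules.Hom.app_smul, hn, map_zero]

lemma QC.pushforward {Y : Scheme.{u}} (f : Y ⟶ X) [IsAffineHom f] {M : Y.Modules} (h : QC M) :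
    QC ((Scheme.Modules.pushforward f).obj M) := by
  intro U hU r
  have hU' : IsAffineOpen (f ⁻¹ᵁ U) := hU.preimage f
  have hb : f ⁻¹ᵁ X.basicOpen r = Y.basicOpen (f.app U r) := Scheme.preimage_basicOpen f r
  have hr : ∀ (V : X.Opens) (hV : V ≤ U), rO (Scheme.Hom.preimage_mono f hV) (f.app U r) =
      f.app V (rO hV r) := by
    intro V hV
    exact (ConcreteCategory.congr_hom (f.naturality (homOfLE hV).op) r).symm
  constructor
  · intro s
    obtain ⟨n, t, ht⟩ := (h _ hU' (f.app U r)).1 (rs hb.ge (unPush f s))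
    refine ⟨n, t, ?_⟩
    have h2 := congrArg (rs hb.le) ht
    rw [rs_rs, rs_smul', rs_rs, rs_self, map_pow, rO_rO, hr, ← map_pow] at h2
    exact h2
  · intro t ht
    obtain ⟨n, hn⟩ := (h _ hU' (f.app U r)).2 (unPush f t) (by
      have h2 := congrArg (rs hb.ge) (show rs (Scheme.Hom.preimage_mono f (X.basicOpen_le r))
        (unPush f t) = 0 from ht)
      rw [rs_rs, rs_zero] at h2
      exact h2)
    refine ⟨n, ?_⟩
    rw [← map_pow] at hn
    exact hn

end Pool.Agent.H92
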