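import Mathlib
import Pool.Agent.H92.QC2

open CategoryTheory Limits AlgebraicGeometry TopologicalSpace Opposite

universe w u

namespace Pool.Agent.H92

variable {X : Scheme.{u}}

/-- The localization property at a single affine open. -/
def QCat (M : X.Modules) (U : X.Opens) : Prop :=
  ∀ f : Γ(X, U),
    (∀ s : Γ(M, X.basicOpen f), ∃ (n : ℕ) (t : Γ(M, U)),
      rs (X.basicOpen_le f) t = rO (X.basicOpen_le f) f ^ n • s) ∧
    (∀ t : Γ(M, U), rs (X.basicOpen_le f) t = 0 → ∃ n : ℕ, f ^ n • t = 0)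

lemma pow_smul_le {M : X.Modules} {U : X.Opens} {f : Γ(X, U)} {t : Γ(M, U)} {n m : ℕ}
    (h : f ^ n • t = 0) (hnm : n ≤ m) : f ^ m • t = 0 := by
  obtain ⟨k, rfl⟩ := Nat.exists_eq_add_of_le hnm
  rw [add_comm, pow_add, mul_smul, h, smul_zero]

/-- Ideal trick: a property of functions on an affine open closed under sums. -/
lemma ideal_trick {W : X.Opens} (hW : IsAffineOpen W) (P : Γ(X, W) → Prop)
    (zero : P 0) (add : ∀ f g, P f → P g → P (f + g)) (mul : ∀ a f, P f → P (a * f))
    (loc : ∀ x ∈ W, ∃ f, x ∈ X.basicOpen f ∧ P f) : P 1 := by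
  let T : Ideal Γ(X, W) :=
    { carrier := {f | P f}
      zero_mem' := zero
      add_mem' := fun {f g} hf hg => add f g hf hg
      smul_mem' := fun a f hf => mul a f hf }
  have hT : (1 : Γ(X, W)) ∈ T := by
    have hspan : Ideal.span (T : Set Γ(X, W)) = ⊤ := by
      rw [← hW.self_le_iSup_basicOpen_iff]
      intro x hx
      rw [Opens.mem_iSup]
      obtain ⟨f, hxf, hf⟩ := loc x hx
      exact ⟨⟨f, hf⟩, hxf⟩
    rw [Ideal.span_eq] at hspan
    rw [hspan]
    exact Submodule.mem_top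
  exact hT

/-- Quasi-coherence is local. -/
theorem QC.of_local (M : X.Modules)
    (h : ∀ x : X, ∃ V : X.Opens, x ∈ V ∧ ∀ U : X.Opens, IsAffineOpen U → U ≤ V → QCat M U) :
    QC M := by
  -- separatedness
  have sep : ∀ (U : X.Opens), IsAffineOpen U → ∀ f : Γ(X, U),
      ∀ t : Γ(M, U), rs (X.basicOpen_le f) t = 0 → ∃ n : ℕ, f ^ n • t = 0 := by
    intro U hU f t ht
    have h1 := ideal_trick hU (fun g => ∃ n : ℕ, rs (X.basicOpen_le g) (f ^ n • t) = 0)
      ⟨0, sections_bot_eq_zero (X.basicOpen_zero U) _⟩ (by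
        rintro g₁ g₂ ⟨n₁, h₁⟩ ⟨n₂, h₂⟩
        have hle : X.basicOpen (g₁ + g₂) ≤ U := X.basicOpen_le _
        refine ⟨n₁ + n₂, eq_of_rs_two (W₀ := X.basicOpen (g₁ + g₂) ⊓ X.basicOpen g₁)
          (W₁ := X.basicOpen (g₁ + g₂) ⊓ X.basicOpen g₂) inf_le_left inf_le_left ?_ _ _ ?_ ?_⟩
        · rw [← inf_sup_left]
          exact le_inf le_rfl (X.basicOpen_add_le g₁ g₂)
        · have := congrArg (rs (inf_le_right : X.basicOpen (g₁ + g₂) ⊓ X.basicOpen g₁ ≤ _)) h₁
          rw [rs_rs, rs_zero] at this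
          rw [rs_rs, rs_zero, add_comm n₁, pow_add, mul_smul, rs_smul', this, smul_zero]
        · have := congrArg (rs (inf_le_right : X.basicOpen (g₁ + g₂) ⊓ X.basicOpen g₂ ≤ _)) h₂
          rw [rs_rs, rs_zero] at this
          rw [rs_rs, rs_zero, pow_add, mul_smul, rs_smul', this, smul_zero])
      (by
        rintro a g ⟨n, hn⟩
        have hle : X.basicOpen (a * g) ≤ X.basicOpen g := by
          rw [X.basicOpen_mul]
          exact inf_le_right
        refine ⟨n, ?_⟩
        have := congrArg (rs hle) hn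
        rw [rs_rs, rs_zero] at this
        exact this)
      (by
        intro x hx
        obtain ⟨V, hxV, hV⟩ := h x
        obtain ⟨g, hgV, hxg⟩ := hU.exists_basicOpen_le ⟨x, hxV⟩ hx
        refine ⟨g, hxg, ?_⟩
        obtain ⟨n, hn⟩ := (hV _ (hU.basicOpen g) hgV (rO (X.basicOpen_le g) f)).2
          (rs (X.basicOpen_le g) t) (by
            rw [rs_rs]
            have hle : X.basicOpen (rO (X.basicOpen_le g) f) ≤ X.basicOpen f := by
              rw [basicOpen_rO]
              exact inf_le_right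
            have := congrArg (rs hle) ht
            rw [rs_rs, rs_zero] at this
            exact this)
        exact ⟨n, by rw [rs_smul', map_pow, hn]⟩)
    obtain ⟨n, hn⟩ := h1
    refine ⟨n, ?_⟩
    have h3 := congrArg (rs (show U ≤ X.basicOpen (1 : Γ(X, U)) by rw [X.basicOpen_one])) hn
    rwa [rs_rs, rs_self, rs_zero] at h3
  intro U hU f
  refine ⟨?_, sep U hU f⟩
  intro s
  have h1 := ideal_trick hU (fun g => ∃ (n : ℕ) (t : Γ(M, X.basicOpen g)),
      rs (inf_le_left : X.basicOpen g ⊓ X.basicOpen f ≤ _) t =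
        rs (inf_le_right : X.basicOpen g ⊓ X.basicOpen f ≤ _)
          (rO (X.basicOpen_le f) f ^ n • s))
      (by
        refine ⟨0, 0, ?_⟩
        rw [sections_bot_eq_zero (U := X.basicOpen 0 ⊓ X.basicOpen f) (by
          rw [X.basicOpen_zero, bot_inf_eq]) (rs _ _)]
        rw [sections_bot_eq_zero (U := X.basicOpen 0 ⊓ X.basicOpen f) (by
          rw [X.basicOpen_zero, bot_inf_eq]) (rs _ _)])
      (by
        rintro g₁ g₂ ⟨n₁, t₁, h₁⟩ ⟨n₂, t₂, h₂⟩
        -- make the exponents equal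
        have haff : IsAffineOpen (X.basicOpen g₁ ⊓ X.basicOpen g₂) := by
          rw [← X.basicOpen_mul]; exact hU.basicOpen _
        let u₁ := rO (X.basicOpen_le g₁) f ^ n₂ • t₁
        let u₂ := rO (X.basicOpen_le g₂) f ^ n₁ • t₂
        let G := X.basicOpen g₁ ⊓ X.basicOpen g₂
        have hG : G ≤ U := inf_le_left.trans (X.basicOpen_le _)
        have hGf : X.basicOpen (rO hG f) = G ⊓ X.basicOpen f := basicOpen_rO _ _
        obtain ⟨m, hm⟩ := sep G haff (rO hG f)
          (rs inf_le_left u₁ - rs inf_le_right u₂) (by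
            rw [rs_sub, rs_rs, rs_rs, sub_eq_zero]
            have k₁ := congrArg (rs (show X.basicOpen (rO hG f) ≤ X.basicOpen g₁ ⊓ X.basicOpen f
              by rw [hGf]; exact inf_le_inf_right _ inf_le_left)) h₁
            have k₂ := congrArg (rs (show X.basicOpen (rO hG f) ≤ X.basicOpen g₂ ⊓ X.basicOpen f
              by rw [hGf]; exact inf_le_inf_right _ inf_le_right)) h₂
            rw [rs_rs, rs_rs, rs_smul', map_pow, rO_rO] at k₁ k₂
            dsimp only [u₁, u₂]
            rw [rs_smul', rs_smul', map_pow, map_pow, rO_rO, rO_rO, k₁, k₂, smul_smul, smul_smul,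
              ← pow_add, ← pow_add, add_comm])
        rw [smul_sub, sub_eq_zero] at hm
        have hsum : X.basicOpen (g₁ + g₂) ≤ X.basicOpen g₁ ⊔ X.basicOpen g₂ :=
          X.basicOpen_add_le g₁ g₂
        obtain ⟨t, ht1, ht2⟩ := glue_two (M := M) (U := X.basicOpen g₁ ⊔ X.basicOpen g₂)
          le_sup_left le_sup_right le_rfl
          (rO (X.basicOpen_le g₁) f ^ m • u₁) (rO (X.basicOpen_le g₂) f ^ m • u₂) (by
            rw [rs_smul' inf_le_left _ u₁, rs_smul' inf_le_right _ u₂, map_pow, map_pow, rO_rO,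
              rO_rO]
            exact hm)
        refine ⟨m + (n₁ + n₂), rs hsum t, ?_⟩
        have hleU : X.basicOpen (g₁ + g₂) ≤ U := X.basicOpen_le _
        refine eq_of_rs_two
          (W₀ := (X.basicOpen (g₁ + g₂) ⊓ X.basicOpen f) ⊓ X.basicOpen g₁)
          (W₁ := (X.basicOpen (g₁ + g₂) ⊓ X.basicOpen f) ⊓ X.basicOpen g₂)
          inf_le_left inf_le_left ?_ _ _ ?_ ?_
        · rw [← inf_sup_left]
          exact le_inf le_rfl (inf_le_left.trans hsum)
        · have k₁ := congrArg (rs (show (X.basicOpen (g₁ + g₂) ⊓ X.basicOpen f) ⊓ X.basicOpen g₁ ≤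
            X.basicOpen g₁ ⊓ X.basicOpen f
              by rw [inf_comm]; exact inf_le_inf_left _ inf_le_right)) h₁
          have k₂ := congrArg (rs (show (X.basicOpen (g₁ + g₂) ⊓ X.basicOpen f) ⊓ X.basicOpen g₁ ≤
            X.basicOpen g₁ from inf_le_right)) ht1
          rw [rs_rs] at k₂
          rw [rs_rs, rs_rs, rs_rs, k₂]
          dsimp only [u₁]
          rw [rs_rs, rs_rs, rs_smul', map_pow, rO_rO] at k₁
          rw [rs_smul', rs_smul', rs_smul', map_pow, map_pow, map_pow, rO_rO, rO_rO, k₁,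
            smul_smul, smul_smul, ← pow_add, ← pow_add, add_assoc, add_comm n₂]
        · have k₁ := congrArg (rs (show (X.basicOpen (g₁ + g₂) ⊓ X.basicOpen f) ⊓ X.basicOpen g₂ ≤
            X.basicOpen g₂ ⊓ X.basicOpen f
              by rw [inf_comm]; exact inf_le_inf_left _ inf_le_right)) h₂
          have k₂ := congrArg (rs (show (X.basicOpen (g₁ + g₂) ⊓ X.basicOpen f) ⊓ X.basicOpen g₂ ≤
            X.basicOpen g₂ from inf_le_right)) ht2
          rw [rs_rs] at k₂
          rw [rs_rs, rs_rs, rs_rs, k₂]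
          dsimp only [u₂]
          rw [rs_rs, rs_rs, rs_smul', map_pow, rO_rO] at k₁
          rw [rs_smul', rs_smul', rs_smul', map_pow, map_pow, map_pow, rO_rO, rO_rO, k₁,
            smul_smul, smul_smul, ← pow_add, ← pow_add, add_assoc])
      (by
        rintro a g ⟨n, t, hn⟩
        have hle : X.basicOpen (a * g) ≤ X.basicOpen g := by
          rw [X.basicOpen_mul]
          exact inf_le_right
        refine ⟨n, rs hle t, ?_⟩
        have := congrArg (rs (inf_le_inf_right (X.basicOpen f) hle)) hn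
        rw [rs_rs, rs_rs] at this
        rw [rs_rs]
        exact this)
      (by
        intro x hx
        obtain ⟨V, hxV, hV⟩ := h x
        obtain ⟨g, hgV, hxg⟩ := hU.exists_basicOpen_le ⟨x, hxV⟩ hx
        refine ⟨g, hxg, ?_⟩
        have hb : X.basicOpen (rO (X.basicOpen_le g) f) = X.basicOpen g ⊓ X.basicOpen f :=
          basicOpen_rO _ _
        obtain ⟨n, t, ht⟩ := (hV _ (hU.basicOpen g) hgV (rO (X.basicOpen_le g) f)).1
          (rs (hb.le.trans inf_le_right) s)
        refine ⟨n, t, ?_⟩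
        have := congrArg (rs hb.ge) ht
        rw [rs_rs, rs_smul', rs_rs, map_pow, rO_rO, rO_rO] at this
        rw [this, rs_smul', map_pow, rO_rO])
  obtain ⟨n, t, hn⟩ := h1
  have h1 : X.basicOpen (1 : Γ(X, U)) = U := by rw [X.basicOpen_one]
  refine ⟨n, rs h1.ge t, ?_⟩
  have h3 := congrArg (rs (show X.basicOpen f ≤ X.basicOpen (1 : Γ(X, U)) ⊓ X.basicOpen f by
    rw [h1]; exact le_inf (X.basicOpen_le f) le_rfl)) hn
  rw [rs_rs, rs_rs, rs_self] at h3
  rw [rs_rs, h3]

end Pool.Agent.H92
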