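import Mathlib
import Pool.Agent.H92.QC3

open CategoryTheory Limits AlgebraicGeometry TopologicalSpace Opposite

universe w u

namespace Pool.Agent.H92

variable {X : Scheme.{u}}

/-- The linear combination map. -/
noncomputable def comb {M : X.Modules} {U : X.Opens} {ι : Type w} [Fintype ι] (b : ι → Γ(M, U))
    {V : X.Opens} (h : V ≤ U) (c : ι → Γ(X, V)) : Γ(M, V) :=
  ∑ i, c i • rs h (b i)

lemma isBasisOn_iff {M : X.Modules} {U : X.Opens} {ι : Type w} [Fintype ι] (b : ι → Γ(M, U)) :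
    IsBasisOn M U b ↔ ∀ (V : X.Opens) (h : V ≤ U), Function.Bijective (comb b h) := Iff.rfl

lemma rs_comb {M : X.Modules} {U : X.Opens} {ι : Type w} [Fintype ι] (b : ι → Γ(M, U))
    {V W : X.Opens} (h : V ≤ U) (h' : W ≤ V) (c : ι → Γ(X, V)) :
    rs h' (comb b h c) = comb b (h'.trans h) (fun i => rO h' (c i)) := by
  rw [comb, comb, rs_sum]
  refine Finset.sum_congr rfl (fun i _ => ?_)
  rw [rs_smul', rs_rs]

lemma comb_sub {M : X.Modules} {U : X.Opens} {ι : Type w} [Fintype ι] (b : ι → Γ(M, U))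
    {V : X.Opens} (h : V ≤ U) (c d : ι → Γ(X, V)) :
    comb b h (c - d) = comb b h c - comb b h d := by
  simp only [comb, Pi.sub_apply, sub_smul, Finset.sum_sub_distrib]

lemma comb_smul {M : X.Modules} {U : X.Opens} {ι : Type w} [Fintype ι] (b : ι → Γ(M, U))
    {V : X.Opens} (h : V ≤ U) (r : Γ(X, V)) (c : ι → Γ(X, V)) :
    comb b h (fun i => r * c i) = r • comb b h c := by
  simp only [comb, mul_smul, Finset.smul_sum]

lemma comb_zero {M : X.Modules} {U : X.Opens} {ι : Type w} [Fintype ι] (b : ι → Γ(M, U))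
    {V : X.Opens} (h : V ≤ U) :
    comb b h (0 : ι → Γ(X, V)) = 0 := by
  simp [comb]

lemma eq_of_rs_cover {M : X.Modules} {V : X.Opens} {s t : Γ(M, V)}
    (h : ∀ x ∈ V, ∃ (W : X.Opens) (hW : W ≤ V), x ∈ W ∧ rs hW s = rs hW t) : s = t := by
  choose W hW hx heq using h
  refine TopCat.Sheaf.eq_of_locally_eq' ⟨_, M.isSheaf⟩ (fun i : V => W i.1 i.2) V
    (fun i => homOfLE (hW i.1 i.2)) ?_ s t (fun i => heq i.1 i.2)
  intro x hx'
  rw [Opens.mem_iSup]
  exact ⟨⟨x, hx'⟩, hx x hx'⟩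

lemma eq_of_rO_cover {V : X.Opens} {s t : Γ(X, V)}
    (h : ∀ x ∈ V, ∃ (W : X.Opens) (hW : W ≤ V), x ∈ W ∧ rO hW s = rO hW t) : s = t := by
  choose W hW hx heq using h
  refine TopCat.Sheaf.eq_of_locally_eq' X.sheaf (fun i : V => W i.1 i.2) V
    (fun i => homOfLE (hW i.1 i.2)) ?_ s t (fun i => heq i.1 i.2)
  intro x hx'
  rw [Opens.mem_iSup]
  exact ⟨⟨x, hx'⟩, hx x hx'⟩

lemma glue_rO {V : X.Opens} {ι : Type u} (W : ι → X.Opens) (hW : ∀ i, W i ≤ V)
    (hV : V ≤ ⨆ i, W i)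
    (s : ∀ i, Γ(X, W i))
    (h : ∀ i j, rO (inf_le_left : W i ⊓ W j ≤ W i) (s i) =
      rO (inf_le_right : W i ⊓ W j ≤ W j) (s j)) :
    ∃ t : Γ(X, V), ∀ i, rO (hW i) t = s i := by
  obtain ⟨t, ht, -⟩ := TopCat.Sheaf.existsUnique_gluing' X.sheaf W V (fun i => homOfLE (hW i))
    hV s h
  exact ⟨t, ht⟩

/-- It is enough to check the basis condition on a basis of the topology. -/
lemma isBasisOn_of_basis {M : X.Modules} {U : X.Opens} {ι : Type w} [Fintype ι] (b : ι → Γ(M, U))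
    (H : ∀ (V : X.Opens), V ≤ U → ∀ x ∈ V, ∃ (W : X.Opens) (_ : W ≤ V) (hWU : W ≤ U), x ∈ W ∧
      Function.Bijective (comb b hWU)) : IsBasisOn M U b := by
  have inj : ∀ (V : X.Opens) (h : V ≤ U), Function.Injective (comb b h) := by
    intro V h c d hcd
    ext1 i
    refine eq_of_rO_cover (fun x hx => ?_)
    obtain ⟨W, hW, hWU, hxW, hb⟩ := H V h x hx
    refine ⟨W, hW, hxW, ?_⟩
    have h2 := congrArg (rs hW) hcd
    rw [rs_comb, rs_comb] at h2
    exact congrFun (hb.1 h2) i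
  rw [isBasisOn_iff]
  intro V h
  refine ⟨inj V h, ?_⟩
  intro t
  choose W hW hWU hxW hb using H V h
  choose c hc using fun (x : V) => (hb x.1 x.2).2 (rs (hW x.1 x.2) t)
  have hg : ∀ i : ι, ∃ d : Γ(X, V), ∀ x : V, rO (hW x.1 x.2) d = c x i := by
    intro i
    refine glue_rO (fun x : V => W x.1 x.2) (fun x => hW x.1 x.2) ?_ (fun x => c x i) ?_
    · intro x hx
      rw [Opens.mem_iSup]
      exact ⟨⟨x, hx⟩, hxW x hx⟩
    · intro x y
      have : (fun j => rO (inf_le_left : W x.1 x.2 ⊓ W y.1 y.2 ≤ _) (c x j)) =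
          (fun j => rO (inf_le_right : W x.1 x.2 ⊓ W y.1 y.2 ≤ _) (c y j)) := by
        apply inj (W x.1 x.2 ⊓ W y.1 y.2) (inf_le_left.trans (hWU x.1 x.2))
        rw [← rs_comb b (hWU x.1 x.2) inf_le_left, ← rs_comb b (hWU y.1 y.2) inf_le_right, hc, hc,
          rs_rs, rs_rs]
      exact congrFun this i
  choose d hd using hg
  refine ⟨d, ?_⟩
  refine eq_of_rs_cover (fun x hx => ⟨W x hx, hW x hx, hxW x hx, ?_⟩)
  rw [rs_comb]
  have h3 := hc ⟨x, hx⟩
  rw [← h3]
  congr 1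
  ext1 i
  exact hd i ⟨x, hx⟩

/-- A basis of the sections on an affine open is a basis on all smaller opens. -/
theorem QC.isBasisOn {M : X.Modules} (hM : QC M) {U : X.Opens} (hU : IsAffineOpen U)
    {ι : Type w} [Fintype ι] (b : ι → Γ(M, U)) (hb : Function.Bijective (comb b le_rfl)) :
    IsBasisOn M U b := by
  refine isBasisOn_of_basis b (fun V hV x hx => ?_)
  obtain ⟨f, hfV, hxf⟩ := hU.exists_basicOpen_le ⟨x, hx⟩ (hV hx)
  refine ⟨X.basicOpen f, hfV, X.basicOpen_le f, hxf, ?_⟩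
  have hloc := hU.isLocalization_basicOpen f
  have hu : IsUnit (rO (X.basicOpen_le f) f) := rO_isUnit f
  have halg : ∀ r, algebraMap Γ(X, U) Γ(X, X.basicOpen f) r = rO (X.basicOpen_le f) r :=
    fun r => rfl
  have hden : ∀ c : ι → Γ(X, X.basicOpen f), ∃ (n : ℕ) (d : ι → Γ(X, U)), ∀ i,
      rO (X.basicOpen_le f) (d i) = rO (X.basicOpen_le f) f ^ n * c i := by
    intro c
    obtain ⟨⟨_, n, rfl⟩, hn⟩ := IsLocalization.exist_integer_multiples_of_finite
      (Submonoid.powers f) c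
    choose d hd using hn
    refine ⟨n, d, fun i => ?_⟩
    have := hd i
    rw [halg] at this
    rw [this, Algebra.smul_def, halg, map_pow]
  constructor
  · intro c d hcd
    rw [← sub_eq_zero, ← comb_sub] at hcd
    rw [← sub_eq_zero]
    obtain ⟨n, e, he⟩ := hden (c - d)
    have h1 : rs (X.basicOpen_le f) (comb b le_rfl e) = 0 := by
      rw [rs_comb]
      have : (fun i => rO (X.basicOpen_le f) (e i)) =
        fun i => rO (X.basicOpen_le f) f ^ n * (c - d) i := funext he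
      rw [this, comb_smul, hcd, smul_zero]
    obtain ⟨m, hm⟩ := (hM U hU f).2 _ h1
    rw [← comb_smul] at hm
    have h2 : (fun i => f ^ m * e i) = 0 := by
      apply hb.1
      rw [hm, comb_zero]
    ext1 i
    have h3 := congrArg (rO (X.basicOpen_le f)) (congrFun h2 i)
    rw [map_mul, Pi.zero_apply, map_zero, map_pow, he, ← mul_assoc, ← pow_add] at h3
    exact ((hu.pow (m + n)).mul_right_eq_zero).1 h3
  · intro s
    obtain ⟨n, t, ht⟩ := (hM U hU f).1 s
    obtain ⟨e, rfl⟩ := hb.2 t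
    rw [rs_comb] at ht
    obtain ⟨v, hv⟩ := (hu.pow n).exists_left_inv
    refine ⟨fun i => v * rO (X.basicOpen_le f) (e i), ?_⟩
    rw [comb_smul, ht, smul_smul, hv, one_smul]

lemma IsBasisOn.qcAt {M : X.Modules} {V : X.Opens} {ι : Type w} [Fintype ι] {b : ι → Γ(M, V)}
    (hb : IsBasisOn M V b) {U : X.Opens} (hU : IsAffineOpen U) (hUV : U ≤ V) : QCat M U := by
  intro f
  have hloc := hU.isLocalization_basicOpen f
  have hfU := X.basicOpen_le f
  have halg : ∀ r, algebraMap Γ(X, U) Γ(X, X.basicOpen f) r = rO hfU r :=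
    fun r => rfl
  constructor
  · intro s
    obtain ⟨c, rfl⟩ := (isBasisOn_iff b).1 hb _ (hfU.trans hUV) |>.2 s
    obtain ⟨⟨_, n, rfl⟩, hn⟩ := IsLocalization.exist_integer_multiples_of_finite
      (Submonoid.powers f) c
    choose d hd using hn
    refine ⟨n, comb b hUV d, ?_⟩
    rw [rs_comb, ← comb_smul]
    congr 1
    ext1 i
    have := hd i
    rw [halg] at this
    rw [this, Algebra.smul_def, halg, map_pow]
  · intro t ht
    obtain ⟨c, rfl⟩ := (isBasisOn_iff b).1 hb _ hUV |>.2 t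
    rw [rs_comb] at ht
    have h1 : (fun i => rO hfU (c i)) = 0 :=
      ((isBasisOn_iff b).1 hb _ (hfU.trans hUV)).1 (by rw [ht, comb_zero])
    have h2 : ∀ i, ∃ n : ℕ, f ^ n * c i = 0 := by
      intro i
      have h3 : algebraMap Γ(X, U) Γ(X, X.basicOpen f) (c i) = 0 := congrFun h1 i
      rw [IsLocalization.map_eq_zero_iff (Submonoid.powers f)] at h3
      obtain ⟨⟨_, n, rfl⟩, hn⟩ := h3
      exact ⟨n, hn⟩
    choose n hn using h2
    refine ⟨∑ i, n i, ?_⟩
    rw [← comb_smul]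
    convert comb_zero b hUV using 2
    ext1 i
    obtain ⟨k, hk⟩ := Nat.exists_eq_add_of_le (Finset.single_le_sum (f := n)
      (fun _ _ => Nat.zero_le _) (Finset.mem_univ i))
    rw [hk, add_comm, pow_add, mul_assoc, hn, mul_zero]
    rfl

theorem IsVB.qc {M : X.Modules} (h : IsVB M) : QC M := by
  refine QC.of_local M (fun x => ?_)
  obtain ⟨V, hxV, n, b, hb⟩ := h x
  exact ⟨V, hxV, fun U hU hUV => hb.qcAt hU hUV⟩

end Pool.Agent.H92
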