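import Mathlib
import Pool.Agent.H92.QC4
import Pool.Agent.H92.Proj1

open CategoryTheory Limits AlgebraicGeometry TopologicalSpace Opposite

universe w u

namespace Pool.Agent.H92

variable {X : Scheme.{u}}

lemma mem_basicOpen_iff {U : X.Opens} (hU : IsAffineOpen U) (x : X) (hx : x ∈ U) (r : Γ(X, U)) :
    x ∈ X.basicOpen r ↔ r ∉ (hU.primeIdealOf ⟨x, hx⟩).asIdeal := by
  have h1 : hU.fromSpec (hU.primeIdealOf ⟨x, hx⟩) = x := hU.fromSpec_primeIdealOf ⟨x, hx⟩
  have h2 : x ∈ X.basicOpen r ↔ hU.fromSpec (hU.primeIdealOf ⟨x, hx⟩) ∈ X.basicOpen r := by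
    rw [h1]
  rw [h2]
  have h3 := congrArg (fun V : (Spec Γ(X, U)).Opens =>
    ((hU.primeIdealOf ⟨x, hx⟩ : Spec Γ(X, U)) ∈ V)) (hU.fromSpec_preimage_basicOpen r)
  exact (iff_of_eq h3).trans (PrimeSpectrum.mem_basicOpen _ _)

/-- If the sections over an affine open are finitely generated projective, the sheaf is a
vector bundle there. -/
theorem QC.exists_basis {M : X.Modules} (hM : QC M) {U : X.Opens} (hU : IsAffineOpen U)
    (h1 : Module.Finite Γ(X, U) Γ(M, U)) (h2 : Module.Projective Γ(X, U) Γ(M, U))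
    (x : X) (hx : x ∈ U) :
    ∃ (V : X.Opens) (_ : x ∈ V) (n : ℕ) (b : Fin n → Γ(M, V)), IsBasisOn M V b := by
  obtain ⟨r, hr, n, m, hi, hii⟩ := exists_basis_away (M := Γ(M, U))
    (hU.primeIdealOf ⟨x, hx⟩).asIdeal
  have hle := X.basicOpen_le r
  have hloc := hU.isLocalization_basicOpen r
  have hu : IsUnit (rO (X.basicOpen_le r) r) := rO_isUnit r
  have halg : ∀ f, algebraMap Γ(X, U) Γ(X, X.basicOpen r) f = rO (X.basicOpen_le r) f :=
    fun r => rfl
  refine ⟨X.basicOpen r, (mem_basicOpen_iff hU x hx r).2 hr, n, fun i => rs hle (m i), ?_⟩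
  refine hM.isBasisOn (hU.basicOpen r) _ ?_
  have hcomb : ∀ e : Fin n → Γ(X, U), comb (fun i => rs hle (m i)) le_rfl (fun i => rO hle (e i)) =
      rs hle (∑ i, e i • m i) := by
    intro e
    rw [comb, rs_sum]
    refine Finset.sum_congr rfl (fun i _ => ?_)
    rw [rs_rs, rs_smul']
  constructor
  · intro c d hcd
    rw [← sub_eq_zero, ← comb_sub] at hcd
    rw [← sub_eq_zero]
    obtain ⟨⟨_, N, rfl⟩, hn⟩ := IsLocalization.exist_integer_multiples_of_finite
      (Submonoid.powers r) (c - d)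
    choose e he using hn
    have he' : (fun i => rO hle (e i)) = fun i => rO hle r ^ N * (c - d) i := by
      ext1 i
      have := he i
      rw [halg] at this
      rw [this, Algebra.smul_def, halg, map_pow]
    have h3 : rs hle (∑ i, e i • m i) = 0 := by
      rw [← hcomb, he', comb_smul, hcd, smul_zero]
    obtain ⟨k, hk⟩ := (hM U hU r).2 _ h3
    have h4 : ∑ i, (r ^ k * e i) • m i = 0 := by
      rw [← hk, Finset.smul_sum]
      simp only [mul_smul]
    obtain ⟨l, hl⟩ := hii _ h4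
    ext1 i
    have h5 := congrArg (rO hle) (hl i)
    rw [map_mul, map_mul, map_zero, map_pow, map_pow, congrFun he' i, ← mul_assoc, ← mul_assoc,
      ← pow_add, ← pow_add] at h5
    exact ((hu.pow _).mul_right_eq_zero).1 h5
  · intro s
    obtain ⟨N, t, ht⟩ := (hM U hU r).1 s
    obtain ⟨k, c, hc⟩ := hi t
    have h3 := congrArg (rs hle) hc
    rw [← hcomb, rs_smul', ht, smul_smul, map_pow, ← pow_add] at h3
    obtain ⟨v, hv⟩ := (hu.pow (k + N)).exists_left_inv
    refine ⟨fun i => v * rO hle (c i), ?_⟩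
    rw [comb_smul, ← h3, smul_smul, hv, one_smul]

lemma IsBasisOn.exists_basis {M : X.Modules} {U : X.Opens} {ι : Type w} [Fintype ι]
    {b : ι → Γ(M, U)} (hb : IsBasisOn M U b) {V : X.Opens} (h : V ≤ U) :
    ∃ B : Module.Basis ι Γ(X, V) Γ(M, V), ∀ i, B i = rs h (b i) := by
  have hbij : Function.Bijective (comb b h) := hb V h
  let B : Module.Basis ι Γ(X, V) Γ(M, V) := Module.Basis.mk (v := fun i => rs h (b i))
    (by
      rw [Fintype.linearIndependent_iff]
      intro c hc
      have h1 : c = 0 := hbij.1 (by rw [comb_zero]; exact hc)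
      intro i
      rw [h1]
      rfl)
    (by
      intro t _
      obtain ⟨c, rfl⟩ := hbij.2 t
      exact Submodule.sum_mem _ (fun i _ => Submodule.smul_mem _ _
        (Submodule.subset_span ⟨i, rfl⟩)))
  exact ⟨B, fun i => by simp [B]⟩

lemma IsBasisOn.free {M : X.Modules} {U : X.Opens} {ι : Type w} [Fintype ι]
    {b : ι → Γ(M, U)} (hb : IsBasisOn M U b) {V : X.Opens} (h : V ≤ U) :
    Module.Free Γ(X, V) Γ(M, V) ∧ Module.Finite Γ(X, V) Γ(M, V) := by
  obtain ⟨B, -⟩ := hb.exists_basis h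
  exact ⟨Module.Free.of_basis B, Module.Finite.of_basis B⟩

/-- the linear map on sections -/
noncomputable def appL {M N : X.Modules} (g : M ⟶ N) (U : X.Opens) :
    Γ(M, U) →ₗ[Γ(X, U)] Γ(N, U) where
  toFun := g.app U
  map_add' := map_add _
  map_smul' r s := Scheme.Modules.Hom.app_smul g r s

lemma appL_apply {M N : X.Modules} (g : M ⟶ N) (U : X.Opens) (s : Γ(M, U)) :
    appL g U s = g.app U s := rfl

/-- The kernel of an epimorphism of vector bundles is a vector bundle. -/
theorem IsVB.kernel (S : ShortComplex X.Modules) (hS : S.ShortExact) (h₂ : IsVB S.X₂)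
    (h₃ : IsVB S.X₃) : IsVB S.X₁ := by
  have := hS.mono_f
  have hq : QC S.X₁ := QC.kernel S hS.exact h₂.qc h₃.qc
  intro x
  obtain ⟨V₂, hx₂, n₂, b₂, hb₂⟩ := h₂ x
  obtain ⟨V₃, hx₃, n₃, b₃, hb₃⟩ := h₃ x
  obtain ⟨_, ⟨U, hU, rfl⟩, hxU, hUV⟩ := X.isBasis_affineOpens.exists_subset_of_mem_open
    (show x ∈ V₂ ⊓ V₃ from ⟨hx₂, hx₃⟩) (V₂ ⊓ V₃).isOpen
  have hU2 : U ≤ V₂ := fun y hy => (hUV hy).1
  have hU3 : U ≤ V₃ := fun y hy => (hUV hy).2
  obtain ⟨f₂, g₂⟩ := hb₂.free hU2
  obtain ⟨f₃, g₃⟩ := hb₃.free hU3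
  have hsurj : Function.Surjective (appL S.g U) := fun s =>
    lifts_affine S hS hq.affMV hU s
  obtain ⟨σ, hσ⟩ := Module.projective_lifting_property (appL S.g U) LinearMap.id hsurj
  have hinj := app_injective_of_mono S.f U
  -- retraction onto the kernel
  have hex : ∀ t : Γ(S.X₂, U), ∃ s : Γ(S.X₁, U), S.f.app U s = t - σ (appL S.g U t) := by
    intro t
    apply exists_of_exact S hS.exact
    rw [← appL_apply, map_sub]
    have := LinearMap.congr_fun hσ (appL S.g U t)
    rw [LinearMap.comp_apply] at this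
    rw [this, LinearMap.id_apply, sub_self]
  choose ρ hρ using hex
  let ρL : Γ(S.X₂, U) →ₗ[Γ(X, U)] Γ(S.X₁, U) :=
    { toFun := ρ
      map_add' := by
        intro s t
        apply hinj
        rw [map_add, hρ, hρ, hρ, map_add, map_add]
        abel
      map_smul' := by
        intro r s
        apply hinj
        rw [RingHom.id_apply, Scheme.Modules.Hom.app_smul, hρ, hρ, map_smul, map_smul, smul_sub] }
  have hret : ρL.comp (appL S.f U) = LinearMap.id := by
    ext s
    apply hinj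
    have : appL S.g U (appL S.f U s) = 0 := by
      rw [appL_apply, appL_apply, ← comp_app_apply, S.zero, zero_app_apply]
    rw [LinearMap.comp_apply]
    change S.f.app U (ρ (appL S.f U s)) = _
    rw [hρ, this, map_zero, sub_zero]
    rfl
  have hfin : Module.Finite Γ(X, U) Γ(S.X₁, U) := by
    refine Module.Finite.of_surjective ρL (fun s => ⟨appL S.f U s, ?_⟩)
    exact LinearMap.congr_fun hret s
  have hproj : Module.Projective Γ(X, U) Γ(S.X₁, U) :=
    Module.Projective.of_split (appL S.f U) ρL hret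
  exact hq.exists_basis hU hfin hproj x hxU

end Pool.Agent.H92
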