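import Mathlib
import Pool.Agent.H92.QC5

open CategoryTheory Limits AlgebraicGeometry TopologicalSpace Opposite

universe w w' u

namespace Pool.Agent.H92

variable {X : Scheme.{u}}

lemma IsBasisOn.reindex {M : X.Modules} {U : X.Opens} {ι : Type w} [Fintype ι] {b : ι → Γ(M, U)}
    (hb : IsBasisOn M U b) {ι' : Type w'} [Fintype ι'] (e : ι' ≃ ι) :
    IsBasisOn M U (b ∘ e) := by
  intro V h
  have h1 := hb V h
  have h2 : Function.Bijective (fun (c : ι' → Γ(X, V)) => c ∘ e.symm) :=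
    (Equiv.arrowCongr e (Equiv.refl _)).bijective
  convert h1.comp h2 using 1
  ext1 c
  simp only [Function.comp]
  rw [← Equiv.sum_comp e]
  simp

lemma IsVB.of_iso {M N : X.Modules} (e : M ≅ N) (h : IsVB M) : IsVB N := by
  intro x
  obtain ⟨U, hx, n, b, hb⟩ := h x
  exact ⟨U, hx, n, _, hb.map_iso e⟩

/-- A vector bundle, in terms of affine opens. -/
lemma IsVB.of_qc {M : X.Modules} (h : QC M) (h' : ∀ x : X, ∃ (U : X.Opens) (_ : x ∈ U),
    IsAffineOpen U ∧ Module.Finite Γ(X, U) Γ(M, U) ∧ Module.Projective Γ(X, U) Γ(M, U)) :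
    IsVB M := by
  intro x
  obtain ⟨U, hx, hU, h1, h2⟩ := h' x
  exact h.exists_basis hU h1 h2 x hx

lemma IsVB.exists_affine {M : X.Modules} (h : IsVB M) (x : X) (V : X.Opens) (hx : x ∈ V) :
    ∃ (U : X.Opens) (_ : x ∈ U) (_ : U ≤ V) (_ : IsAffineOpen U) (n : ℕ) (b : Fin n → Γ(M, U)),
      IsBasisOn M U b := by
  obtain ⟨W, hxW, n, b, hb⟩ := h x
  obtain ⟨_, ⟨U, hU, rfl⟩, hxU, hUV⟩ := X.isBasis_affineOpens.exists_subset_of_mem_open
    (show x ∈ V ⊓ W from ⟨hx, hxW⟩) (V ⊓ W).isOpen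
  exact ⟨U, hxU, fun y hy => (hUV hy).1, hU, n, _, hb.of_le (fun y hy => (hUV hy).2)⟩

lemma biprod_total_app {M N : X.Modules} (V : X.Opens) (s : Γ(M ⊞ N, V)) :
    (biprod.inl : M ⟶ M ⊞ N).app _ ((biprod.fst : M ⊞ N ⟶ M).app _ s) +
      (biprod.inr : N ⟶ M ⊞ N).app _ ((biprod.snd : M ⊞ N ⟶ N).app _ s) = s := by
  have h := congrArg (fun φ => Scheme.Modules.Hom.app φ V s)
    (biprod.total (X := M) (Y := N))
  exact h

lemma QC.biprod {M N : X.Modules} (hM : QC M) (hN : QC N) : QC (M ⊞ N) := by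
  intro U hU f
  have hfU := X.basicOpen_le f
  constructor
  · intro s
    obtain ⟨n, a, ha⟩ := (hM U hU f).1 ((biprod.fst : M ⊞ N ⟶ M).app _ s)
    obtain ⟨m, b, hb⟩ := (hN U hU f).1 ((biprod.snd : M ⊞ N ⟶ N).app _ s)
    refine ⟨m + n, (biprod.inl : M ⟶ M ⊞ N).app _ (f ^ m • a) +
      (biprod.inr : N ⟶ M ⊞ N).app _ (f ^ n • b), ?_⟩
    rw [rs_add, ← app_rs, ← app_rs, rs_smul', rs_smul', ha, hb, smul_smul, smul_smul, map_pow,
      map_pow, ← pow_add, ← pow_add, Scheme.Modules.Hom.app_smul, Scheme.Modules.Hom.app_smul,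
      add_comm n m, ← smul_add, biprod_total_app]
  · intro t ht
    obtain ⟨n, hn⟩ := (hM U hU f).2 ((biprod.fst : M ⊞ N ⟶ M).app _ t) (by
      rw [← app_rs, ht, map_zero])
    obtain ⟨m, hm⟩ := (hN U hU f).2 ((biprod.snd : M ⊞ N ⟶ N).app _ t) (by
      rw [← app_rs, ht, map_zero])
    refine ⟨n + m, ?_⟩
    rw [← biprod_total_app U (f ^ (n + m) • t),
      Scheme.Modules.Hom.app_smul (biprod.fst : M ⊞ N ⟶ M) (f ^ (n + m)) t,
      Scheme.Modules.Hom.app_smul (biprod.snd : M ⊞ N ⟶ N) (f ^ (n + m)) t,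
      pow_smul_le hn (Nat.le_add_right n m),
      pow_smul_le hm (Nat.le_add_left m n), map_zero, map_zero, add_zero]

/-- sections of a biproduct -/
noncomputable def biprodSec (M N : X.Modules) (V : X.Opens) :
    Γ(M ⊞ N, V) ≃ₗ[Γ(X, V)] Γ(M, V) × Γ(N, V) where
  toFun s := ((biprod.fst : M ⊞ N ⟶ M).app _ s, (biprod.snd : M ⊞ N ⟶ N).app _ s)
  invFun p := (biprod.inl : M ⟶ M ⊞ N).app _ p.1 + (biprod.inr : N ⟶ M ⊞ N).app _ p.2
  map_add' s t := by simp
  map_smul' r s := by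
    ext
    · exact Scheme.Modules.Hom.app_smul _ _ _
    · exact Scheme.Modules.Hom.app_smul _ _ _
  left_inv s := biprod_total_app V s
  right_inv p := by
    have h1 : (biprod.fst : M ⊞ N ⟶ M).app V ((biprod.inl : M ⟶ M ⊞ N).app V p.1) = p.1 := by
      rw [← comp_app_apply, biprod.inl_fst]; rfl
    have h2 : (biprod.fst : M ⊞ N ⟶ M).app V ((biprod.inr : N ⟶ M ⊞ N).app V p.2) = 0 := by
      rw [← comp_app_apply, biprod.inr_fst]; rfl
    have h3 : (biprod.snd : M ⊞ N ⟶ N).app V ((biprod.inl : M ⟶ M ⊞ N).app V p.1) = 0 := by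
      rw [← comp_app_apply, biprod.inl_snd]; rfl
    have h4 : (biprod.snd : M ⊞ N ⟶ N).app V ((biprod.inr : N ⟶ M ⊞ N).app V p.2) = p.2 := by
      rw [← comp_app_apply, biprod.inr_snd]; rfl
    ext
    · dsimp only
      rw [map_add, h1, h2, add_zero]
    · dsimp only
      rw [map_add, h3, h4, zero_add]

lemma IsVB.biprod {M N : X.Modules} (hM : IsVB M) (hN : IsVB N) : IsVB (M ⊞ N) := by
  refine IsVB.of_qc (hM.qc.biprod hN.qc) (fun x => ?_)
  obtain ⟨V, hxV, -, -, n, b, hb⟩ := hM.exists_affine x ⊤ trivial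
  obtain ⟨U, hxU, hUV, hU, m, c, hc⟩ := hN.exists_affine x V hxV
  obtain ⟨f₁, g₁⟩ := hb.free hUV
  obtain ⟨f₂, g₂⟩ := hc.free le_rfl
  refine ⟨U, hxU, hU, Module.Finite.equiv (biprodSec M N U).symm,
    Module.Projective.of_equiv (biprodSec M N U).symm⟩

lemma IsVB.of_isZero {M : X.Modules} (h : IsZero M) : IsVB M := by
  intro x
  refine ⟨⊤, trivial, 0, Fin.elim0, ?_⟩
  intro V hV
  have hs : Subsingleton Γ(M, V) := by
    constructor
    intro s t
    have : (𝟙 M : M ⟶ M) = 0 := h.eq_of_src _ _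
    have h1 : ∀ s : Γ(M, V), s = 0 := fun s => by
      rw [← id_app_apply V s, this, zero_app_apply]
    rw [h1 s, h1 t]
  constructor
  · intro c d _
    exact Subsingleton.elim _ _
  · intro t
    exact ⟨Fin.elim0, Subsingleton.elim _ _⟩

lemma IsVB.pullback {Y : Scheme.{u}} (f : Y ⟶ X) {M : X.Modules} (h : IsVB M) :
    IsVB ((Scheme.Modules.pullback f).obj M) := by
  intro y
  obtain ⟨U, hx, n, b, hb⟩ := h (f y)
  let e : ULift.{u} (Fin n) ≃ Fin n := Equiv.ulift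
  have h1 := (hb.reindex e).pb f
  exact ⟨f ⁻¹ᵁ U, hx, n, _, h1.reindex e.symm⟩

lemma IsBasisOn.pb' {Y : Scheme.{u}} (f : Y ⟶ X) {M : X.Modules} {U : X.Opens} {n : ℕ}
    {b : Fin n → Γ(M, U)} (hb : IsBasisOn M U b) :
    IsBasisOn ((Scheme.Modules.pullback f).obj M) (f ⁻¹ᵁ U) (fun i => Pool.Agent.H92.pb f (b i)) := by
  let e : ULift.{u} (Fin n) ≃ Fin n := Equiv.ulift
  exact ((hb.reindex e).pb f).reindex e.symm

/-- A morphism which is bijective on sections over a basis is an isomorphism. -/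
lemma isIso_of_basis {M N : X.Modules} (g : M ⟶ N)
    (H : ∀ (V : X.Opens), ∀ x ∈ V, ∃ (W : X.Opens) (_ : W ≤ V), x ∈ W ∧
      Function.Bijective (g.app W)) : IsIso g := by
  have hm : Mono g := by
    refine mono_of_app_injective g (fun V => ?_)
    rw [injective_iff_map_eq_zero]
    intro s hs
    refine eq_of_rs_cover (fun x hx => ?_)
    obtain ⟨W, hW, hxW, hb⟩ := H V x hx
    refine ⟨W, hW, hxW, hb.1 ?_⟩
    rw [rs_zero, map_zero, app_rs, hs, rs_zero]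
  have he : Epi g := by
    rw [epi_iff_locallySurjective]
    intro U s x hx
    obtain ⟨W, hW, hxW, hb⟩ := H U x hx
    obtain ⟨t, ht⟩ := hb.2 (rs hW s)
    exact ⟨W, hW, t, ht, hxW⟩
  exact isIso_of_mono_of_epi g

end Pool.Agent.H92
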