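import Mathlib
import Pool.Agent.H92.VB

open CategoryTheory Limits AlgebraicGeometry TopologicalSpace Opposite Polynomial

universe w w' u

namespace Pool.Agent.H92

variable {X Y : Scheme.{u}}

/-- Evaluation of polynomials with coefficients on the base at a function upstairs. -/
noncomputable def evT (π : Y ⟶ X) {V : X.Opens} {W : Y.Opens} (hW : W ≤ π ⁻¹ᵁ V) (t : Γ(Y, W)) :
    Γ(X, V)[X] →+* Γ(Y, W) :=
  eval₂RingHom ((rO hW).comp (π.app V).hom) t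

/-- The structure of a trivial projective line bundle. -/
structure P1Data (π : Y ⟶ X) extends TwoCover π where
  t : Γ(Y, U₀)
  s : Γ(Y, U₁)
  basicOpen_t : Y.basicOpen t = U₀ ⊓ U₁
  basicOpen_s : Y.basicOpen s = U₀ ⊓ U₁
  ts : rO (inf_le_left : U₀ ⊓ U₁ ≤ U₀) t * rO (inf_le_right : U₀ ⊓ U₁ ≤ U₁) s = 1
  bij₀ : ∀ V : X.Opens, IsAffineOpen V → Function.Bijective
    (evT π (inf_le_left : π ⁻¹ᵁ V ⊓ U₀ ≤ π ⁻¹ᵁ V) (rO inf_le_right t))
  bij₁ : ∀ V : X.Opens, IsAffineOpen V → Function.Bijective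
    (evT π (inf_le_left : π ⁻¹ᵁ V ⊓ U₁ ≤ π ⁻¹ᵁ V) (rO inf_le_right s))
  σ₀ : X ⟶ Y
  σ₁ : X ⟶ Y
  σ₀_π : σ₀ ≫ π = 𝟙 X
  σ₁_π : σ₁ ≫ π = 𝟙 X
  aff_σ₀ : IsAffineHom σ₀
  aff_σ₁ : IsAffineHom σ₁
  σ₀_U : σ₀ ⁻¹ᵁ U₀ = ⊤
  σ₁_U : σ₁ ⁻¹ᵁ U₁ = ⊤
  σ₀_t : σ₀.app U₀ t = 0
  σ₁_s : σ₁.app U₁ s = 0

variable {π : Y ⟶ X}

/-- Exchange the two charts. -/
def P1Data.swap (c : P1Data π) : P1Data π where
  U₀ := c.U₁
  U₁ := c.U₀
  sup_eq := by rw [sup_comm]; exact c.sup_eq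
  aff₀ := c.aff₁
  aff₁ := c.aff₀
  aff₀₁ V hV := by rw [inf_comm]; exact c.aff₀₁ V hV
  t := c.s
  s := c.t
  basicOpen_t := by rw [inf_comm]; exact c.basicOpen_s
  basicOpen_s := by rw [inf_comm]; exact c.basicOpen_t
  ts := by
    have h := congrArg (rO (show c.U₁ ⊓ c.U₀ ≤ c.U₀ ⊓ c.U₁ by rw [inf_comm])) c.ts
    rw [map_mul, map_one, rO_rO, rO_rO, mul_comm] at h
    exact h
  bij₀ := c.bij₁
  bij₁ := c.bij₀
  σ₀ := c.σ₁
  σ₁ := c.σ₀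
  σ₀_π := c.σ₁_π
  σ₁_π := c.σ₀_π
  aff_σ₀ := c.aff_σ₁
  aff_σ₁ := c.aff_σ₀
  σ₀_U := c.σ₁_U
  σ₁_U := c.σ₀_U
  σ₀_t := c.σ₁_s
  σ₁_s := c.σ₀_t

lemma app_rO (f : Y ⟶ X) {U V : X.Opens} (h : V ≤ U) (r : Γ(X, U)) :
    f.app V (rO h r) = rO (Scheme.Hom.preimage_mono f h) (f.app U r) :=
  ConcreteCategory.congr_hom (f.naturality (homOfLE h).op) r

lemma rO_evT {V : X.Opens} {W W' : Y.Opens} (hW : W ≤ π ⁻¹ᵁ V) (hW' : W' ≤ W) (t : Γ(Y, W))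
    (p : Γ(X, V)[X]) : rO hW' (evT π hW t p) = evT π (hW'.trans hW) (rO hW' t) p := by
  rw [evT, evT, coe_eval₂RingHom, coe_eval₂RingHom, Polynomial.hom_eval₂]
  congr 1
  ext r
  simp

lemma evT_C {V : X.Opens} {W : Y.Opens} (hW : W ≤ π ⁻¹ᵁ V) (t : Γ(Y, W)) (r : Γ(X, V)) :
    evT π hW t (C r) = rO hW (π.app V r) := by
  simp [evT]

lemma evT_X {V : X.Opens} {W : Y.Opens} (hW : W ≤ π ⁻¹ᵁ V) (t : Γ(Y, W)) :
    evT π hW t Polynomial.X = t := by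
  simp [evT]

variable (c : P1Data π)

/-- chart over V -/
abbrev P1Data.W₀ (V : X.Opens) : Y.Opens := π ⁻¹ᵁ V ⊓ c.U₀

/-- chart over V -/
abbrev P1Data.W₁ (V : X.Opens) : Y.Opens := π ⁻¹ᵁ V ⊓ c.U₁

/-- the coordinate on the first chart -/
noncomputable def P1Data.t₀ (V : X.Opens) : Γ(Y, c.W₀ V) := rO inf_le_right c.t

/-- the coordinate on the second chart -/
noncomputable def P1Data.s₁ (V : X.Opens) : Γ(Y, c.W₁ V) := rO inf_le_right c.s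

lemma P1Data.basicOpen_t₀ (V : X.Opens) : Y.basicOpen (c.t₀ V) = c.W₀ V ⊓ c.W₁ V := by
  rw [P1Data.t₀, basicOpen_rO, c.basicOpen_t]
  ext x
  simp
  tauto

lemma P1Data.t₀_s₁ (V : X.Opens) :
    rO (inf_le_left : c.W₀ V ⊓ c.W₁ V ≤ c.W₀ V) (c.t₀ V) *
      rO (inf_le_right : c.W₀ V ⊓ c.W₁ V ≤ c.W₁ V) (c.s₁ V) = 1 := by
  have h := congrArg (rO (show c.W₀ V ⊓ c.W₁ V ≤ c.U₀ ⊓ c.U₁ from
    inf_le_inf inf_le_right inf_le_right)) c.ts
  rw [map_mul, map_one, rO_rO, rO_rO] at h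
  rw [P1Data.t₀, P1Data.s₁, rO_rO, rO_rO]
  exact h

lemma P1Data.t₀_regular {V : X.Opens} (hV : IsAffineOpen V) (a : Γ(Y, c.W₀ V))
    (h : c.t₀ V * a = 0) : a = 0 := by
  obtain ⟨p, rfl⟩ := (c.bij₀ V hV).2 a
  have h1 : evT π inf_le_left (rO inf_le_right c.t) (Polynomial.X * p) = 0 := by
    rw [map_mul, evT_X]; exact h
  have h2 : Polynomial.X * p = 0 := (c.bij₀ V hV).1 (by rw [h1, map_zero])
  have h3 : p = 0 := by
    ext i
    rw [← Polynomial.coeff_X_mul, h2]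
    simp
  rw [h3, map_zero]

/-- restriction to the overlap is injective -/
lemma P1Data.rO_injective {V : X.Opens} (hV : IsAffineOpen V) :
    Function.Injective (rO (inf_le_left : c.W₀ V ⊓ c.W₁ V ≤ c.W₀ V)) := by
  rw [injective_iff_map_eq_zero]
  intro a ha
  have hloc := (c.aff₀ V hV).isLocalization_basicOpen (c.t₀ V)
  have h1 : algebraMap Γ(Y, c.W₀ V) Γ(Y, Y.basicOpen (c.t₀ V)) a = 0 := by
    have := congrArg (rO (c.basicOpen_t₀ V).le) ha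
    rw [rO_rO, map_zero] at this
    exact this
  rw [IsLocalization.map_eq_zero_iff (Submonoid.powers (c.t₀ V))] at h1
  obtain ⟨⟨_, n, rfl⟩, hn⟩ := h1
  dsimp only at hn
  induction n with
  | zero => simpa using hn
  | succ n ih =>
    rw [pow_succ', mul_assoc] at hn
    exact ih (c.t₀_regular hV _ hn)

lemma P1Data.mvO {V : X.Opens} (hV : IsAffineOpen V) (x : Γ(Y, c.W₀ V ⊓ c.W₁ V)) :
    ∃ (a : Γ(Y, c.W₀ V)) (b : Γ(Y, c.W₁ V)), x = rO inf_le_left a + rO inf_le_right b := by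
  have hD := c.basicOpen_t₀ V
  have hloc := (c.aff₀ V hV).isLocalization_basicOpen (c.t₀ V)
  obtain ⟨⟨a, ⟨_, n, rfl⟩⟩, hn⟩ := IsLocalization.surj (Submonoid.powers (c.t₀ V))
    (rO hD.le x)
  obtain ⟨p, rfl⟩ := (c.bij₀ V hV).2 a
  dsimp only at hn
  have h1 : x * rO inf_le_left (c.t₀ V) ^ n =
      rO inf_le_left (evT π inf_le_left (rO inf_le_right c.t) p) := by
    have := congrArg (rO hD.ge) (show rO hD.le x * rO (Y.basicOpen_le _) (c.t₀ V ^ n) =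
      rO (Y.basicOpen_le _) (evT π inf_le_left (rO inf_le_right c.t) p) from hn)
    rw [map_mul, map_pow, map_pow, rO_rO, rO_rO, rO_rO, rO_self] at this
    exact this
  have h2 : x = rO inf_le_left (evT π inf_le_left (c.t₀ V) p) *
      rO inf_le_right (c.s₁ V) ^ n := by
    have h3 := c.t₀_s₁ V
    calc x = x * (rO inf_le_left (c.t₀ V) * rO inf_le_right (c.s₁ V)) ^ n := by
          rw [h3, one_pow, mul_one]
      _ = (x * rO inf_le_left (c.t₀ V) ^ n) * rO inf_le_right (c.s₁ V) ^ n := by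
          rw [mul_pow, mul_assoc]
      _ = _ := by rw [h1]; rfl
  rw [h2]
  clear h1 h2 hn
  induction p using Polynomial.induction_on' with
  | add p q hp hq =>
    obtain ⟨a, b, hab⟩ := hp
    obtain ⟨a', b', hab'⟩ := hq
    refine ⟨a + a', b + b', ?_⟩
    rw [map_add, map_add, add_mul, hab, hab', map_add, map_add]
    abel
  | monomial i r =>
    rw [← C_mul_X_pow_eq_monomial, map_mul, map_pow, evT_X, evT_C, map_mul, map_pow, rO_rO]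
    by_cases hi : n ≤ i
    · obtain ⟨k, rfl⟩ := Nat.exists_eq_add_of_le hi
      refine ⟨rO inf_le_left (π.app V r) * c.t₀ V ^ k, 0, ?_⟩
      rw [map_zero, add_zero, map_mul, map_pow, rO_rO, pow_add]
      have h3 : rO (inf_le_left : c.W₀ V ⊓ c.W₁ V ≤ c.W₀ V) (c.t₀ V) ^ n *
          rO (inf_le_right : c.W₀ V ⊓ c.W₁ V ≤ c.W₁ V) (c.s₁ V) ^ n = 1 := by
        rw [← mul_pow, c.t₀_s₁, one_pow]
      linear_combination (rO ((inf_le_left : c.W₀ V ⊓ c.W₁ V ≤ c.W₀ V).trans inf_le_left)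
        (π.app V r)) * (rO (inf_le_left : c.W₀ V ⊓ c.W₁ V ≤ c.W₀ V) (c.t₀ V)) ^ k * h3
    · obtain ⟨k, rfl⟩ := Nat.exists_eq_add_of_le (le_of_not_ge hi)
      refine ⟨0, rO inf_le_left (π.app V r) * c.s₁ V ^ k, ?_⟩
      rw [map_zero, zero_add, map_mul, map_pow, rO_rO, pow_add]
      have h3 : rO (inf_le_left : c.W₀ V ⊓ c.W₁ V ≤ c.W₀ V) (c.t₀ V) ^ i *
          rO (inf_le_right : c.W₀ V ⊓ c.W₁ V ≤ c.W₁ V) (c.s₁ V) ^ i = 1 := by
        rw [← mul_pow, c.t₀_s₁, one_pow]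
      linear_combination (rO ((inf_le_left : c.W₀ V ⊓ c.W₁ V ≤ c.W₀ V).trans inf_le_left)
        (π.app V r)) * (rO (inf_le_right : c.W₀ V ⊓ c.W₁ V ≤ c.W₁ V) (c.s₁ V)) ^ k * h3

/-- A polynomial in the two inverse coordinates is constant. -/
lemma P1Data.const {V : X.Opens} (hV : IsAffineOpen V) (p q : Γ(X, V)[X])
    (h : rO (inf_le_left : c.W₀ V ⊓ c.W₁ V ≤ c.W₀ V) (evT π inf_le_left (c.t₀ V) p) =
      rO (inf_le_right : c.W₀ V ⊓ c.W₁ V ≤ c.W₁ V) (evT π inf_le_left (c.s₁ V) q)) :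
    p = C (p.coeff 0) := by
  rw [rO_evT, rO_evT] at h
  have h1 := c.t₀_s₁ V
  have inj : Function.Injective (evT π (inf_le_left.trans inf_le_left)
      (rO (inf_le_left : c.W₀ V ⊓ c.W₁ V ≤ c.W₀ V) (c.t₀ V))) := by
    intro a b hab
    rw [← rO_evT inf_le_left inf_le_left, ← rO_evT inf_le_left inf_le_left] at hab
    exact (c.bij₀ V hV).1 (c.rO_injective hV hab)
  let t' := rO (inf_le_left : c.W₀ V ⊓ c.W₁ V ≤ c.W₀ V) (c.t₀ V)
  let s' := rO (inf_le_right : c.W₀ V ⊓ c.W₁ V ≤ c.W₁ V) (c.s₁ V)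
  let φ := (rO ((inf_le_left : c.W₀ V ⊓ c.W₁ V ≤ c.W₀ V).trans inf_le_left)).comp (π.app V).hom
  let inv : Invertible s' := ⟨t', h1, by rw [mul_comm]; exact h1⟩
  have h2 : eval₂ φ t' (reverse q) * s' ^ q.natDegree = eval₂ φ s' q :=
    Polynomial.eval₂_reverse_mul_pow φ s' q
  have h3 : evT π (inf_le_left.trans inf_le_left) t' (reverse q) =
      evT π (inf_le_left.trans inf_le_left) t' (Polynomial.X ^ q.natDegree * p) := by
    rw [map_mul, map_pow, evT_X, h]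
    change _ = t' ^ q.natDegree * eval₂ φ s' q
    rw [← h2, mul_comm, mul_assoc, ← mul_pow, mul_comm s']
    change _ = _ * (t' * s') ^ _
    rw [show t' * s' = 1 from h1, one_pow, mul_one]
    rfl
  have h4 := inj h3
  ext i
  cases i with
  | zero => simp
  | succ i =>
    have h5 := congrArg (fun r => Polynomial.coeff r (i + 1 + q.natDegree)) h4
    rw [Polynomial.coeff_X_pow_mul] at h5
    rw [← h5, Polynomial.coeff_C_succ]
    exact Polynomial.coeff_eq_zero_of_natDegree_lt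
      (lt_of_le_of_lt (Polynomial.reverse_natDegree_le q) (by lia))

lemma P1Data.rO_π_injective {V : X.Opens} (hV : IsAffineOpen V) (r : Γ(X, V))
    (h : rO (inf_le_left.trans inf_le_left : c.W₀ V ⊓ c.W₁ V ≤ π ⁻¹ᵁ V) (π.app V r) = 0) :
    r = 0 := by
  have h1 : rO (inf_le_left : c.W₀ V ⊓ c.W₁ V ≤ c.W₀ V)
      (evT π inf_le_left (c.t₀ V) (C r)) = 0 := by
    rw [evT_C, rO_rO, h]
  have h2 := c.rO_injective hV (h1.trans (map_zero _).symm)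
  have h3 := (c.bij₀ V hV).1 (h2.trans (map_zero _).symm)
  exact Polynomial.C_eq_zero.1 h3

include c in
/-- global functions on the projective line -/
lemma P1Data.bijπ {V : X.Opens} (hV : IsAffineOpen V) : Function.Bijective (π.app V) := by
  constructor
  · rw [injective_iff_map_eq_zero]
    intro r hr
    exact c.rO_π_injective hV r (by rw [hr, map_zero])
  · intro x
    obtain ⟨p, hp⟩ := (c.bij₀ V hV).2 (rO inf_le_left x)
    obtain ⟨q, hq⟩ := (c.bij₁ V hV).2 (rO inf_le_left x)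
    have h1 := c.const hV p q (by
      have e1 : evT π inf_le_left (c.t₀ V) p = rO inf_le_left x := hp
      have e2 : evT π inf_le_left (c.s₁ V) q = rO inf_le_left x := hq
      rw [e1, e2, rO_rO, rO_rO])
    have h2 := c.swap.const hV q p (by
      have e1 : evT π inf_le_left (c.t₀ V) p = rO inf_le_left x := hp
      have e2 : evT π inf_le_left (c.s₁ V) q = rO inf_le_left x := hq
      have e1' : evT π inf_le_left (c.swap.s₁ V) p = rO inf_le_left x := hp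
      have e2' : evT π inf_le_left (c.swap.t₀ V) q = rO inf_le_left x := hq
      rw [e1', e2', rO_rO, rO_rO])
    rw [h1, evT_C] at hp
    rw [h2, evT_C] at hq
    have h3 : p.coeff 0 - q.coeff 0 = 0 := by
      apply c.rO_π_injective hV
      have e1 := congrArg (rO (inf_le_left : c.W₀ V ⊓ c.W₁ V ≤ c.W₀ V)) hp
      have e2 := congrArg (rO (inf_le_right : c.W₀ V ⊓ c.W₁ V ≤ c.W₁ V)) hq
      rw [rO_rO, rO_rO] at e1 e2
      rw [map_sub, map_sub, e1, e2, sub_self]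
    rw [sub_eq_zero] at h3
    refine ⟨p.coeff 0, ?_⟩
    refine TopCat.Sheaf.eq_of_locally_eq₂ Y.sheaf
      (homOfLE (inf_le_left : c.W₀ V ≤ π ⁻¹ᵁ V)) (homOfLE (inf_le_left : c.W₁ V ≤ π ⁻¹ᵁ V))
      (c.le_sup V) _ _ hp ?_
    rw [h3]
    exact hq

lemma σ_π_app {σ : X ⟶ Y} (h : σ ≫ π = 𝟙 X) {V : X.Opens} (r : Γ(X, V)) {W : X.Opens}
    (h1 : W ≤ σ ⁻¹ᵁ (π ⁻¹ᵁ V)) (h2 : W ≤ V) :
    rO h1 (σ.app (π ⁻¹ᵁ V) (π.app V r)) = rO h2 r := by
  have h3 : (σ ≫ π) ⁻¹ᵁ V = V := by rw [h]; rfl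
  have h4 : (σ ≫ π).app V r = rO h3.le r := by
    have := Scheme.Hom.congr_app h V
    have h5 := ConcreteCategory.congr_hom this r
    exact h5
  have h5 : (σ ≫ π).app V r = σ.app (π ⁻¹ᵁ V) (π.app V r) := by
    rw [Scheme.Hom.comp_app]
    rfl
  rw [← h5, h4]
  exact rO_rO _ _ _

lemma P1Data.σ₀_W₀ (V : X.Opens) : c.σ₀ ⁻¹ᵁ (c.W₀ V) = V := by
  rw [Scheme.Hom.preimage_inf, c.σ₀_U, inf_top_eq, ← Scheme.Hom.comp_preimage, c.σ₀_π]
  rfl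

lemma P1Data.σ₀_U₁ : c.σ₀ ⁻¹ᵁ c.U₁ = ⊥ := by
  have h1 : c.σ₀ ⁻¹ᵁ c.U₁ = c.σ₀ ⁻¹ᵁ (c.U₀ ⊓ c.U₁) := by
    rw [Scheme.Hom.preimage_inf, c.σ₀_U, top_inf_eq]
  rw [h1, ← c.basicOpen_t, Scheme.preimage_basicOpen, c.σ₀_t, Scheme.basicOpen_zero]

lemma P1Data.σ₀_evT {V : X.Opens} (p : Γ(X, V)[X]) :
    c.σ₀.app (c.W₀ V) (evT π inf_le_left (c.t₀ V) p) = rO (c.σ₀_W₀ V).le (p.coeff 0) := by
  have ht : c.σ₀.app (c.W₀ V) (c.t₀ V) = 0 := by
    rw [P1Data.t₀, app_rO, c.σ₀_t, map_zero]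
  rw [evT, coe_eval₂RingHom]
  have h := Polynomial.hom_eval₂ p ((rO (inf_le_left : c.W₀ V ≤ π ⁻¹ᵁ V)).comp (π.app V).hom)
    (c.σ₀.app (c.W₀ V)).hom (c.t₀ V)
  have ht' : (c.σ₀.app (c.W₀ V)).hom (c.t₀ V) = 0 := ht
  rw [ht', Polynomial.eval₂_at_zero] at h
  refine h.trans ?_
  change c.σ₀.app (c.W₀ V) (rO inf_le_left (π.app V (p.coeff 0))) = _
  rw [app_rO]
  exact σ_π_app c.σ₀_π _ _ _

lemma P1Data.σ₀_eq_zero_iff {V : X.Opens} (hV : IsAffineOpen V) (a : Γ(Y, c.W₀ V)) :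
    c.σ₀.app (c.W₀ V) a = 0 ↔ ∃ b, a = c.t₀ V * b := by
  have hle := (c.σ₀_W₀ V).le
  have hinj : Function.Injective (rO hle) := by
    intro x y hxy
    have := congrArg (rO (c.σ₀_W₀ V).ge) hxy
    rwa [rO_rO, rO_rO, rO_self, rO_self] at this
  constructor
  · intro h
    obtain ⟨p, rfl⟩ := (c.bij₀ V hV).2 a
    have h1 : rO hle (p.coeff 0) = 0 := by
      rw [← c.σ₀_evT]; exact h
    have h2 : p.coeff 0 = 0 := hinj (by rw [h1, map_zero])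
    obtain ⟨q, rfl⟩ := Polynomial.X_dvd_iff.2 h2
    refine ⟨evT π inf_le_left (c.t₀ V) q, ?_⟩
    rw [map_mul, evT_X]
    rfl
  · rintro ⟨b, rfl⟩
    have ht : c.σ₀.app (c.W₀ V) (c.t₀ V) = 0 := by
      rw [P1Data.t₀, app_rO, c.σ₀_t, map_zero]
    rw [map_mul, ht, zero_mul]

end Pool.Agent.H92
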