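import Mathlib
import Pool.Agent.H92.Away
import Pool.Agent.H92.QC2

open CategoryTheory Limits AlgebraicGeometry MvPolynomial HomogeneousLocalization TopologicalSpace

universe w w' u

namespace Pool.Agent.H92

variable (K : Type u) [Field K] (n : ℕ)

variable {n}

/-- The basic open sets. -/
noncomputable def PSpace.D (f : MvPolynomial (Fin (n + 1)) K) : (PSpace K n).Opens :=
  Proj.basicOpen (grd K n) f

/-- Sections over basic open sets. -/
noncomputable def PSpace.toSec (f : MvPolynomial (Fin (n + 1)) K) :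
    Away (grd K n) f →+* Γ(PSpace K n, PSpace.D K f) :=
  (Proj.awayToSection (grd K n) f).hom

/-- The standard open sets. -/
noncomputable def PSpace.U (i : Fin (n + 1)) : (PSpace K n).Opens := PSpace.D K (X i)

lemma PSpace.isAffineOpen_U (i : Fin (n + 1)) : IsAffineOpen (PSpace.U K i) :=
  Proj.isAffineOpen_basicOpen (grd K n) (X i) (X_mem K i) one_pos

/-- The coordinate functions. -/
noncomputable def PSpace.crd (i j : Fin (n + 1)) : Γ(PSpace K n, PSpace.U K i) :=
  PSpace.toSec K (X i) (coord K i j)

lemma PSpace.iSup_U : ⨆ i, PSpace.U K (n := n) i = ⊤ := by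
  refine Proj.iSup_basicOpen_eq_top' (grd K n) (fun i => X i) (fun i => ⟨1, X_mem K i⟩) ?_
  rw [eq_top_iff]
  rintro F -
  induction F using MvPolynomial.induction_on with
  | C a =>
    exact Subalgebra.algebraMap_mem (Algebra.adjoin (grd K n 0) (Set.range fun i => X i))
      (algebraMap K (grd K n 0) a)
  | add p q hp hq => exact add_mem hp hq
  | mul_X p i hp => exact mul_mem hp (Algebra.subset_adjoin ⟨i, rfl⟩)

lemma PSpace.toSec_bijective (i : Fin (n + 1)) : Function.Bijective (PSpace.toSec K (X i)) := by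
  have h : IsIso (Proj.basicOpenIsoAway (grd K n) (X i) (X_mem K i) one_pos).hom := inferInstance
  exact ConcreteCategory.bijective_of_isIso
    (Proj.basicOpenIsoAway (grd K n) (X i) (X_mem K i) one_pos).hom

lemma PSpace.U_inf (i j : Fin (n + 1)) : PSpace.U K i ⊓ PSpace.U K j = PSpace.D K (X i * X j) :=
  (Proj.basicOpen_mul (grd K n) (X i) (X j)).symm

lemma PSpace.toSec_awayMap {f g x : MvPolynomial (Fin (n + 1)) K} {d : ℕ} (hg : g ∈ grd K n d)
    (hx : x = f * g) (h : PSpace.D K x ≤ PSpace.D K f) (a : Away (grd K n) f) :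
    PSpace.toSec K x (awayMap (grd K n) hg hx a) = rO h (PSpace.toSec K f a) := by
  have h1 := congrArg CommRingCat.Hom.hom (Proj.awayMap_awayToSection (grd K n) hg hx)
  rw [CommRingCat.hom_comp, CommRingCat.hom_comp] at h1
  have h2 := RingHom.congr_fun h1 a
  rw [RingHom.comp_apply, RingHom.comp_apply] at h2
  unfold PSpace.toSec rO
  exact h2

lemma PSpace.crd_mul_aux (i j k : Fin (n + 1)) :
    awayMap (grd K n) (X_mem K j) (rfl : (X i * X j) = X i * X j) (coord K i j) *
      awayMap (grd K n) (X_mem K i) (mul_comm (X i) (X j)) (coord K j k) =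
      awayMap (grd K n) (X_mem K j) (rfl : (X i * X j) = X i * X j) (coord K i k) := by
  apply HomogeneousLocalization.val_injective
  simp only [coord, HomogeneousLocalization.val_mul, awayMap_mk, Away.val_mk, Localization.mk_mul]
  rw [Localization.mk_eq_mk_iff, Localization.r_iff_exists]
  refine ⟨1, ?_⟩
  simp only [Submonoid.coe_one, Submonoid.coe_mul]
  ring

/-- The cocycle relation of the coordinate functions. -/
lemma PSpace.crd_mul (i j k : Fin (n + 1)) :
    rO (inf_le_left : PSpace.U K i ⊓ PSpace.U K j ≤ _) (PSpace.crd K i j) *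
      rO (inf_le_right : PSpace.U K i ⊓ PSpace.U K j ≤ _) (PSpace.crd K j k) =
      rO (inf_le_left : PSpace.U K i ⊓ PSpace.U K j ≤ _) (PSpace.crd K i k) := by
  have h4 := PSpace.U_inf K i j
  have e1 := PSpace.toSec_awayMap K (X_mem K j) (rfl : (X i * X j) = X i * X j)
    (h4.ge.trans inf_le_left) (coord K i j)
  have e2 := PSpace.toSec_awayMap K (X_mem K i) (mul_comm (X i) (X j))
    (h4.ge.trans inf_le_right) (coord K j k)
  have e3 := PSpace.toSec_awayMap K (X_mem K j) (rfl : (X i * X j) = X i * X j)
    (h4.ge.trans inf_le_left) (coord K i k)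
  have h3 := congrArg (PSpace.toSec K (X i * X j)) (PSpace.crd_mul_aux K i j k)
  rw [map_mul, e1, e2, e3] at h3
  have hinj : ∀ {V W : (PSpace K n).Opens} (h : V = W) (h' : W ≤ V),
      Function.Injective (rO h') := by
    rintro V W rfl h' a b hab
    rwa [rO_self, rO_self] at hab
  apply hinj h4 h4.ge
  rw [map_mul, rO_rO, rO_rO, rO_rO]
  exact h3

lemma PSpace.crd_self (i : Fin (n + 1)) : PSpace.crd K i i = 1 := by
  rw [PSpace.crd, coord_self, map_one]
  rfl

end Pool.Agent.H92
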