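import Mathlib
import Pool.Agent.H92.PSpace

open CategoryTheory Limits AlgebraicGeometry MvPolynomial HomogeneousLocalization TopologicalSpace

universe w w' u

namespace Pool.Agent.H92

section

variable {σ : Type*} {A : Type u} [CommRing A] [SetLike σ A] [AddSubgroupClass σ A]
  (𝒜 : ℕ → σ) [GradedRing 𝒜] {f g : A} {m m' : ℕ}

lemma proj_basicOpen_awayToSection (f_deg : f ∈ 𝒜 m) (hm : 0 < m) (g_deg : g ∈ 𝒜 m')
    (hm' : 0 < m') :
    (Proj 𝒜).basicOpen (Proj.awayToSection 𝒜 f (Away.isLocalizationElem f_deg g_deg)) =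
      Proj.basicOpen 𝒜 f ⊓ Proj.basicOpen 𝒜 g := by
  have h1 := Proj.awayι_preimage_basicOpen 𝒜 f_deg hm g_deg hm'
  have h2 : Proj.basicOpenToSpec 𝒜 f ≫ Proj.awayι 𝒜 f f_deg hm = (Proj.basicOpen 𝒜 f).ι := by
    rw [← Proj.basicOpenIsoSpec_hom 𝒜 f f_deg hm, ← Proj.basicOpenIsoSpec_inv_ι,
      Iso.hom_inv_id_assoc]
  have h3 := congrArg (fun V => (Proj.basicOpenToSpec 𝒜 f) ⁻¹ᵁ V) h1
  rw [← Scheme.Hom.comp_preimage, h2] at h3
  have h4 : (Proj.basicOpenToSpec 𝒜 f) ⁻¹ᵁ (PrimeSpectrum.basicOpen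
      (Away.isLocalizationElem f_deg g_deg)) = (Proj.basicOpen 𝒜 f).ι ⁻¹ᵁ
        (Proj 𝒜).basicOpen (Proj.awayToSection 𝒜 f (Away.isLocalizationElem f_deg g_deg)) := by
    rw [← Scheme.Opens.toSpecΓ_preimage_basicOpen]
    rfl
  rw [h4] at h3
  have h5 := congrArg (fun V => (Proj.basicOpen 𝒜 f).ι ''ᵁ V) h3
  rw [Scheme.Hom.image_preimage_eq_opensRange_inf, Scheme.Hom.image_preimage_eq_opensRange_inf,
    Scheme.Opens.opensRange_ι] at h5
  rw [h5]
  exact (inf_eq_right.2 ((Proj 𝒜).basicOpen_le _)).symm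

end

variable (K : Type u) [Field K] {n : ℕ}

lemma PSpace.coord_eq (i j : Fin (n + 1)) :
    coord K i j = Away.isLocalizationElem (X_mem K i) (X_mem K j) := by
  apply HomogeneousLocalization.val_injective
  rw [coord, Away.isLocalizationElem, Away.val_mk, Away.val_mk]
  simp only [pow_one]

lemma PSpace.basicOpen_crd (i j : Fin (n + 1)) :
    (PSpace K n).basicOpen (PSpace.crd K i j) = PSpace.U K i ⊓ PSpace.U K j := by
  have h := proj_basicOpen_awayToSection (grd K n) (X_mem K i) one_pos (X_mem K j) one_pos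
  unfold PSpace.crd
  rw [PSpace.coord_eq]
  exact h

lemma appLE_of_ι_comp {X : Scheme.{u}} {R : CommRingCat.{u}} (g : X ⟶ Spec R) (U : X.Opens)
    (φ : R ⟶ Γ(X, U)) (h : U.ι ≫ g = U.toSpecΓ ≫ Spec.map φ) :
    g.appLE ⊤ U le_top = (Scheme.ΓSpecIso R).hom ≫ φ := by
  have h1 := congrArg Scheme.Hom.appTop h
  rw [Scheme.Hom.comp_appTop, Scheme.Hom.comp_appTop, Scheme.Opens.toSpecΓ_appTop,
    Scheme.ΓSpecIso_naturality_assoc] at h1
  have h2 := congrArg (fun f => f ≫ U.topIso.hom) h1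
  simp only [Category.assoc, Iso.inv_hom_id, Category.comp_id] at h2
  rw [← h2, Scheme.Hom.appLE]
  congr 1
  rw [Scheme.Opens.ι_appTop, Scheme.Opens.topIso_hom]
  exact X.presheaf.map_comp (homOfLE _).op (eqToHom _).op

lemma proj_ι_toSpecZero {σ : Type*} {A : Type u} [CommRing A] [SetLike σ A]
    [AddSubgroupClass σ A] (𝒜 : ℕ → σ) [GradedRing 𝒜] {f : A} {m : ℕ} (f_deg : f ∈ 𝒜 m)
    (hm : 0 < m) : (Proj.basicOpen 𝒜 f).ι ≫ Proj.toSpecZero 𝒜 =
      (Proj.basicOpen 𝒜 f).toSpecΓ ≫ Spec.map (CommRingCat.ofHom (fromZeroRingHom 𝒜 _) ≫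
        Proj.awayToSection 𝒜 f) := by
  have h1 := Proj.awayι_toSpecZero 𝒜 f f_deg hm
  rw [← Proj.basicOpenIsoSpec_inv_ι, Category.assoc, Iso.inv_comp_eq,
    Proj.basicOpenIsoSpec_hom] at h1
  rw [h1, Spec.map_comp, Proj.basicOpenToSpec, Category.assoc]

lemma PSpace.toSpec_appLE (i : Fin (n + 1)) :
    (PSpace.toSpec K n).appLE ⊤ (PSpace.U K i) le_top =
      (Scheme.ΓSpecIso (CommRingCat.of K)).hom ≫
        CommRingCat.ofHom ((PSpace.toSec K (X i)).comp (constA K (X i))) := by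
  apply appLE_of_ι_comp
  have h := proj_ι_toSpecZero (grd K n) (X_mem K i) one_pos
  have h1 : (PSpace.U K i).ι ≫ PSpace.toSpec K n = ((Proj.basicOpen (grd K n) (X i)).ι ≫
    Proj.toSpecZero (grd K n)) ≫ Spec.map (CommRingCat.ofHom (algebraMap K (grd K n 0))) := rfl
  rw [h1, h, Category.assoc, ← Spec.map_comp]
  rfl

end Pool.Agent.H92
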