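import Mathlib

open CategoryTheory Limits AlgebraicGeometry TopologicalSpace Opposite Polynomial

universe w w' u

namespace Pool.Agent.H92

/-- Base change of a polynomial ring. -/
lemma poly_pushout {k R B P : CommRingCat.{u}} {i : k ⟶ R} {j : k ⟶ B} {f : R ⟶ P} {g : B ⟶ P}
    (h : IsPushout i j f g) (t : B) (ht : Function.Bijective (eval₂RingHom j.hom t)) :
    Function.Bijective (eval₂RingHom f.hom (g t)) := by
  let e : k[X] ≃+* B := RingEquiv.ofBijective _ ht
  have heX : e X = t := by simp [e]
  have heC : ∀ a, e (C a) = j a := by intro a; simp [e]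
  have hw : i ≫ CommRingCat.ofHom (C : R →+* R[X]) =
      j ≫ CommRingCat.ofHom ((mapRingHom i.hom).comp e.symm.toRingHom) := by
    refine CommRingCat.hom_ext (RingHom.ext (fun a => ?_))
    change C (i a) = Polynomial.map i.hom (e.symm (j a))
    rw [← heC, e.symm_apply_apply, Polynomial.map_C]
  let ψ : P ⟶ CommRingCat.of R[X] := h.desc (CommRingCat.ofHom C)
    (CommRingCat.ofHom ((mapRingHom i.hom).comp e.symm.toRingHom)) hw
  have h1 : ∀ r, ψ (f r) = C r := by
    intro r
    have := ConcreteCategory.congr_hom (h.inl_desc (CommRingCat.ofHom C)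
      (CommRingCat.ofHom ((mapRingHom i.hom).comp e.symm.toRingHom)) hw) r
    exact this
  have h2 : ∀ b, ψ (g b) = Polynomial.map i.hom (e.symm b) := by
    intro b
    have := ConcreteCategory.congr_hom (h.inr_desc (CommRingCat.ofHom C)
      (CommRingCat.ofHom ((mapRingHom i.hom).comp e.symm.toRingHom)) hw) b
    exact this
  have hleft : ψ.hom.comp (eval₂RingHom f.hom (g t)) = RingHom.id _ := by
    ext r
    · simp only [RingHom.comp_apply, coe_eval₂RingHom, eval₂_C, RingHom.id_apply]
      rw [show ψ.hom (f.hom r) = C r from h1 r]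
    · simp only [RingHom.comp_apply, coe_eval₂RingHom, eval₂_X, RingHom.id_apply]
      rw [show ψ.hom (g t) = _ from h2 t, ← heX, e.symm_apply_apply, Polynomial.map_X]
  have hright : ψ ≫ CommRingCat.ofHom (eval₂RingHom f.hom (g t)) = 𝟙 P := by
    apply h.hom_ext
    · ext r
      change eval₂ f.hom (g t) (ψ (f r)) = f r
      rw [h1, eval₂_C]
    · ext b
      change eval₂ f.hom (g t) (ψ (g b)) = g b
      obtain ⟨q, rfl⟩ := e.surjective b
      rw [h2, e.symm_apply_apply, eval₂_map]
      have h3 : f.hom.comp i.hom = g.hom.comp j.hom := by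
        have := h.w
        ext a
        exact ConcreteCategory.congr_hom this a
      rw [h3, ← Polynomial.hom_eval₂]
      rfl
  constructor
  · intro p q hpq
    have := congrArg ψ.hom hpq
    have e1 := RingHom.congr_fun hleft p
    have e2 := RingHom.congr_fun hleft q
    rw [RingHom.comp_apply] at e1 e2
    rw [e1, e2] at this
    exact this
  · intro p
    exact ⟨ψ p, ConcreteCategory.congr_hom hright p⟩

end Pool.Agent.H92
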