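import Mathlib
import Pool.Agent.H92.PSpace2
import Pool.Agent.H92.PolyPush
import Pool.Agent.H92.P1

open CategoryTheory Limits AlgebraicGeometry HomogeneousLocalization TopologicalSpace

universe w w' u

namespace Pool.Agent.H92

open Polynomial in
lemma poly_bij {k K A B : Type*} [CommRing k] [CommRing K] [CommRing A] [CommRing B] (e : k ≃+* K)
    (φ : K →+* A) (a : A)
    (h : Function.Bijective (MvPolynomial.eval₂Hom φ (fun _ : Fin 1 => a))) (ψ : A →+* B)
    (hψ : Function.Bijective ψ) :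
    Function.Bijective (eval₂RingHom ((ψ.comp φ).comp (e : k →+* K)) (ψ a)) := by
  have h1 : eval₂RingHom ((ψ.comp φ).comp (e : k →+* K)) (ψ a) =
      (ψ.comp (MvPolynomial.eval₂Hom φ (fun _ : Fin 1 => a))).comp
        (((MvPolynomial.uniqueAlgEquiv K (Fin 1)).symm : K[X] →+* _).comp
          (mapRingHom (e : k →+* K))) := by
    apply Polynomial.ringHom_ext
    · intro r
      simp
    · simp
  rw [h1, RingHom.coe_comp, RingHom.coe_comp]
  refine (hψ.comp h).comp ?_
  rw [RingHom.coe_comp]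
  exact (MvPolynomial.uniqueAlgEquiv K (Fin 1)).symm.bijective.comp (Polynomial.mapEquiv e).bijective

end Pool.Agent.H92

namespace Pool.Agent.H92

variable (K : Type u) [Field K]

lemma P1_bij (i j : Fin 2) (hij : i.succAbove 0 = j) :
    Function.Bijective (Polynomial.eval₂RingHom
      ((PSpace.toSpec K 1).appLE ⊤ (PSpace.U K i) le_top).hom (PSpace.crd K i j)) := by
  subst hij
  have h := chart_bijective K i
  have h1 : chart K i = MvPolynomial.eval₂Hom (constA K (MvPolynomial.X i))
      (fun _ : Fin 1 => coord K i (i.succAbove 0)) := by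
    apply MvPolynomial.ringHom_ext
    · intro r
      simp [chart]
    · intro k
      have : k = 0 := Subsingleton.elim _ _
      subst this
      simp [chart]
  rw [h1] at h
  have h2 := poly_bij (Scheme.ΓSpecIso (CommRingCat.of K)).commRingCatIsoToRingEquiv
    (constA K (MvPolynomial.X i)) (coord K i (i.succAbove 0)) h
    (PSpace.toSec K (MvPolynomial.X i)) (PSpace.toSec_bijective K i)
  rw [PSpace.toSpec_appLE]
  exact h2

/-- evaluation at the origin of the chart -/
noncomputable def ev0 {n : ℕ} (i : Fin (n + 1)) : Away (grd K n) (MvPolynomial.X i) →+* K :=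
  (MvPolynomial.eval (fun _ => 0)).comp ((dehomL K i).comp (algebraMap _ _))

lemma ev0_constA {n : ℕ} (i : Fin (n + 1)) (a : K) : ev0 K i (constA K _ a) = a := by
  have h := dehomL_chart K i (MvPolynomial.C a)
  have h1 : chart K i (MvPolynomial.C a) = constA K (MvPolynomial.X i) a := by simp [chart]
  rw [h1] at h
  change MvPolynomial.eval _ (dehomL K i (constA K (MvPolynomial.X i) a).val) = a
  rw [h]
  simp

lemma ev0_coord {n : ℕ} (i : Fin (n + 1)) (j : Fin n) :
    ev0 K i (coord K i (i.succAbove j)) = 0 := by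
  have h := dehomL_chart K i (MvPolynomial.X j)
  have h1 : chart K i (MvPolynomial.X j) = coord K i (i.succAbove j) := by simp [chart]
  rw [h1] at h
  change MvPolynomial.eval _ (dehomL K i (coord K i (i.succAbove j)).val) = 0
  rw [h]
  simp

/-- The chart as an open immersion. -/
noncomputable def PSpace.aw {n : ℕ} (i : Fin (n + 1)) :
    Spec (CommRingCat.of (Away (grd K n) (MvPolynomial.X i))) ⟶ PSpace K n :=
  Proj.awayι (grd K n) (MvPolynomial.X i) (X_mem K i) one_pos

lemma PSpace.aw_preimage_self {n : ℕ} (i : Fin (n + 1)) :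
    PSpace.aw K i ⁻¹ᵁ PSpace.U K i = ⊤ := by
  have h := Proj.opensRange_awayι (grd K n) (MvPolynomial.X i) (X_mem K i) one_pos
  have h1 : Proj.awayι (grd K n) (MvPolynomial.X i) (X_mem K i) one_pos ⁻¹ᵁ
      Proj.basicOpen (grd K n) (MvPolynomial.X i) = ⊤ := by
    rw [← h]
    exact Scheme.Hom.preimage_opensRange _
  exact h1

lemma PSpace.aw_preimage {n : ℕ} (i j : Fin (n + 1)) :
    PSpace.aw K i ⁻¹ᵁ PSpace.U K j = PrimeSpectrum.basicOpen (coord K i j) := by
  have h := Proj.awayι_preimage_basicOpen (grd K n) (X_mem K i) one_pos (X_mem K j) one_pos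
  rw [← PSpace.coord_eq] at h
  exact h

/-- The origin of a chart. -/
noncomputable def PSpace.pt {n : ℕ} (i : Fin (n + 1)) : Spec (CommRingCat.of K) ⟶ PSpace K n :=
  Spec.map (CommRingCat.ofHom (ev0 K i)) ≫ PSpace.aw K i

lemma PSpace.pt_toSpec {n : ℕ} (i : Fin (n + 1)) : PSpace.pt K i ≫ PSpace.toSpec K n = 𝟙 _ := by
  have h : PSpace.pt K i ≫ PSpace.toSpec K n = Spec.map (CommRingCat.ofHom (ev0 K i)) ≫
    (Proj.awayι (grd K n) (MvPolynomial.X i) (X_mem K i) one_pos ≫ Proj.toSpecZero (grd K n)) ≫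
      Spec.map (CommRingCat.ofHom (algebraMap K (grd K n 0))) := by
    rw [PSpace.pt, PSpace.toSpec]
    simp only [Category.assoc]
    rfl
  rw [h, Proj.awayι_toSpecZero, ← Spec.map_comp, ← Spec.map_comp, ← Spec.map_id]
  congr 1
  ext a
  exact ev0_constA K i a

lemma PSpace.pt_preimage_self {n : ℕ} (i : Fin (n + 1)) :
    PSpace.pt K i ⁻¹ᵁ PSpace.U K i = ⊤ := by
  rw [PSpace.pt, Scheme.Hom.comp_preimage, PSpace.aw_preimage_self]
  rfl

lemma PSpace.pt_preimage {n : ℕ} (i : Fin (n + 1)) (j : Fin n) :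
    PSpace.pt K i ⁻¹ᵁ PSpace.U K (i.succAbove j) = ⊥ := by
  rw [PSpace.pt, Scheme.Hom.comp_preimage, PSpace.aw_preimage]
  have h3 : Spec.map (CommRingCat.ofHom (ev0 K i)) ⁻¹ᵁ
      (PrimeSpectrum.basicOpen (coord K i (i.succAbove j))) =
      PrimeSpectrum.basicOpen (ev0 K i (coord K i (i.succAbove j))) := rfl
  rw [h3, ev0_coord]
  exact PrimeSpectrum.basicOpen_zero

lemma PSpace.pt_crd {n : ℕ} (i : Fin (n + 1)) (j : Fin n) :
    (PSpace.pt K i).app (PSpace.U K i) (PSpace.crd K i (i.succAbove j)) = 0 := by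
  apply eq_zero_of_basicOpen_eq_bot
  rw [← Scheme.preimage_basicOpen, PSpace.basicOpen_crd, Scheme.Hom.preimage_inf,
    PSpace.pt_preimage, inf_bot_eq]

end Pool.Agent.H92
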