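import Mathlib
import Pool.Agent.H92.P1Inst

open CategoryTheory Limits AlgebraicGeometry HomogeneousLocalization TopologicalSpace

universe w w' u

namespace Pool.Agent.H92

variable (K : Type u) [Field K]

instance PSpace.isSeparated (n : ℕ) : IsSeparated (PSpace.toSpec K n) := by
  have h : IsSeparated (Proj.toSpecZero (grd K n) ≫
    Spec.map (CommRingCat.ofHom (algebraMap K (grd K n 0)))) := inferInstance
  exact h

variable {K} {X : Scheme.{u}} (f : X ⟶ Spec (CommRingCat.of K))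

/-- The product with the projective line. -/
noncomputable abbrev P1Y : Scheme.{u} := pullback f (PSpace.toSpec K 1)

/-- The projection. -/
noncomputable abbrev P1π : P1Y f ⟶ X := pullback.fst f (PSpace.toSpec K 1)

noncomputable abbrev P1q : P1Y f ⟶ PSpace K 1 := pullback.snd f (PSpace.toSpec K 1)

lemma P1_pushout (i : Fin 2) (V : X.Opens) (hV : IsAffineOpen V) :
    IsAffineOpen (P1π f ⁻¹ᵁ V ⊓ P1q f ⁻¹ᵁ PSpace.U K i) ∧
    IsPushout (f.appLE ⊤ V le_top) ((PSpace.toSpec K 1).appLE ⊤ (PSpace.U K i) le_top)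
      ((P1π f).appLE V (P1π f ⁻¹ᵁ V ⊓ P1q f ⁻¹ᵁ PSpace.U K i) inf_le_left)
      ((P1q f).appLE (PSpace.U K i) (P1π f ⁻¹ᵁ V ⊓ P1q f ⁻¹ᵁ PSpace.U K i) inf_le_right) := by
  have H : IsPullback (P1π f) (P1q f) f (PSpace.toSpec K 1) := IsPullback.of_hasPullback _ _
  have hT : IsAffineOpen (⊤ : (Spec (CommRingCat.of K)).Opens) := isAffineOpen_top _
  have h := isIso_pushoutSection_of_isAffineOpen H (US := ⊤) (UT := PSpace.U K i) (UX := V)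
    le_top le_top (UY := P1π f ⁻¹ᵁ V ⊓ P1q f ⁻¹ᵁ PSpace.U K i) rfl hT
    (PSpace.isAffineOpen_U K i) hV
  refine ⟨?_, (isIso_pushoutSection_iff H (US := ⊤) (UT := PSpace.U K i) (UX := V)
    le_top le_top (UY := P1π f ⁻¹ᵁ V ⊓ P1q f ⁻¹ᵁ PSpace.U K i) rfl).1 h⟩
  have a1 : IsAffine _ := hT
  have a2 : IsAffine _ := PSpace.isAffineOpen_U K i
  have a3 : IsAffine _ := hV
  exact .of_isIso (Scheme.Hom.isPullback_resLE H (US := ⊤) (UT := PSpace.U K i) (UX := V)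
    le_top le_top (UY := P1π f ⁻¹ᵁ V ⊓ P1q f ⁻¹ᵁ PSpace.U K i) rfl).isoPullback.hom

/-- The sections. -/
noncomputable def P1σ (i : Fin 2) : X ⟶ P1Y f :=
  pullback.lift (𝟙 X) (f ≫ PSpace.pt K i) (by rw [Category.id_comp, Category.assoc,
    PSpace.pt_toSpec, Category.comp_id])

lemma P1σ_π (i : Fin 2) : P1σ f i ≫ P1π f = 𝟙 X := pullback.lift_fst _ _ _

lemma P1σ_q (i : Fin 2) : P1σ f i ≫ P1q f = f ≫ PSpace.pt K i := pullback.lift_snd _ _ _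

lemma P1σ_affine (i : Fin 2) : IsAffineHom (P1σ f i) := by
  have h : IsAffineHom (P1σ f i ≫ P1π f) := by rw [P1σ_π]; infer_instance
  exact IsAffineHom.of_comp (P1σ f i) (P1π f)

lemma P1σ_preimage (i : Fin 2) : P1σ f i ⁻¹ᵁ (P1q f ⁻¹ᵁ PSpace.U K i) = ⊤ := by
  rw [← Scheme.Hom.comp_preimage, P1σ_q, Scheme.Hom.comp_preimage, PSpace.pt_preimage_self]
  rfl

lemma P1σ_crd (i : Fin 2) :
    (P1σ f i).app (P1q f ⁻¹ᵁ PSpace.U K i) ((P1q f).app (PSpace.U K i)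
      (PSpace.crd K i (i.succAbove 0))) = 0 := by
  have key : ∀ g : X ⟶ PSpace K 1, g = f ≫ PSpace.pt K i →
      g.app (PSpace.U K i) (PSpace.crd K i (i.succAbove 0)) = 0 := by
    rintro _ rfl
    rw [Scheme.Hom.comp_app]
    change f.app _ ((PSpace.pt K i).app (PSpace.U K i) (PSpace.crd K i (i.succAbove 0))) = 0
    rw [PSpace.pt_crd, map_zero]
  have h := key _ (P1σ_q f i)
  rw [Scheme.Hom.comp_app] at h
  exact h

lemma P1_sup : P1q f ⁻¹ᵁ PSpace.U K 0 ⊔ P1q f ⁻¹ᵁ PSpace.U K 1 = ⊤ := by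
  rw [eq_top_iff]
  intro y _
  have h : P1q f y ∈ ⨆ i, PSpace.U K (n := 1) i := by rw [PSpace.iSup_U]; trivial
  rw [Opens.mem_iSup] at h
  obtain ⟨i, hi⟩ := h
  fin_cases i
  · exact Or.inl hi
  · exact Or.inr hi

lemma P1_basicOpen (i j : Fin 2) :
    (P1Y f).basicOpen ((P1q f).app (PSpace.U K i) (PSpace.crd K i j)) =
      P1q f ⁻¹ᵁ PSpace.U K i ⊓ P1q f ⁻¹ᵁ PSpace.U K j := by
  rw [← Scheme.preimage_basicOpen, PSpace.basicOpen_crd, Scheme.Hom.preimage_inf]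

lemma P1_aff₀₁ (V : X.Opens) (hV : IsAffineOpen V) :
    IsAffineOpen ((P1π f ⁻¹ᵁ V ⊓ P1q f ⁻¹ᵁ PSpace.U K 0) ⊓
      (P1π f ⁻¹ᵁ V ⊓ P1q f ⁻¹ᵁ PSpace.U K 1)) := by
  have h1 : (P1π f ⁻¹ᵁ V ⊓ P1q f ⁻¹ᵁ PSpace.U K 0) ⊓
      (P1π f ⁻¹ᵁ V ⊓ P1q f ⁻¹ᵁ PSpace.U K 1) =
      (P1Y f).basicOpen (rO (inf_le_right : P1π f ⁻¹ᵁ V ⊓ P1q f ⁻¹ᵁ PSpace.U K 0 ≤ _)
        ((P1q f).app (PSpace.U K 0) (PSpace.crd K 0 1))) := by
    rw [basicOpen_rO, P1_basicOpen]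
    ext x
    simp
    tauto
  rw [h1]
  exact (P1_pushout f 0 V hV).1.basicOpen _

lemma P1_bijV (i : Fin 2) (V : X.Opens) (hV : IsAffineOpen V) : Function.Bijective
    (evT (P1π f) (inf_le_left : P1π f ⁻¹ᵁ V ⊓ P1q f ⁻¹ᵁ PSpace.U K i ≤ P1π f ⁻¹ᵁ V)
      (rO inf_le_right ((P1q f).app (PSpace.U K i) (PSpace.crd K i (i.succAbove 0))))) :=
  poly_pushout (P1_pushout f i V hV).2 (PSpace.crd K i (i.succAbove 0)) (P1_bij K i _ rfl)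

lemma P1_ts : rO (inf_le_left : P1q f ⁻¹ᵁ PSpace.U K 0 ⊓ P1q f ⁻¹ᵁ PSpace.U K 1 ≤ _)
    ((P1q f).app (PSpace.U K 0) (PSpace.crd K 0 1)) *
    rO (inf_le_right : P1q f ⁻¹ᵁ PSpace.U K 0 ⊓ P1q f ⁻¹ᵁ PSpace.U K 1 ≤ _)
    ((P1q f).app (PSpace.U K 1) (PSpace.crd K 1 0)) = 1 := by
  have h := PSpace.crd_mul K (0 : Fin 2) 1 0
  have h2 := congrArg ((P1q f).app (PSpace.U K 0 ⊓ PSpace.U K 1)) h
  rw [map_mul, app_rO, app_rO, PSpace.crd_self, map_one, map_one] at h2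
  exact h2

/-- The projective line over a scheme over a field. -/
noncomputable def P1data : P1Data (P1π f) where
  U₀ := P1q f ⁻¹ᵁ PSpace.U K 0
  U₁ := P1q f ⁻¹ᵁ PSpace.U K 1
  sup_eq := P1_sup f
  aff₀ V hV := (P1_pushout f 0 V hV).1
  aff₁ V hV := (P1_pushout f 1 V hV).1
  aff₀₁ V hV := P1_aff₀₁ f V hV
  t := (P1q f).app (PSpace.U K 0) (PSpace.crd K 0 1)
  s := (P1q f).app (PSpace.U K 1) (PSpace.crd K 1 0)
  basicOpen_t := P1_basicOpen f 0 1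
  basicOpen_s := by rw [P1_basicOpen f 1 0, inf_comm]
  ts := P1_ts f
  bij₀ V hV := P1_bijV f 0 V hV
  bij₁ V hV := P1_bijV f 1 V hV
  σ₀ := P1σ f 0
  σ₁ := P1σ f 1
  σ₀_π := P1σ_π f 0
  σ₁_π := P1σ_π f 1
  aff_σ₀ := P1σ_affine f 0
  aff_σ₁ := P1σ_affine f 1
  σ₀_U := P1σ_preimage f 0
  σ₁_U := P1σ_preimage f 1
  σ₀_t := P1σ_crd f 0
  σ₁_s := P1σ_crd f 1

end Pool.Agent.H92
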