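import Mathlib
import Pool.Agent.H92.P1

open CategoryTheory Limits AlgebraicGeometry TopologicalSpace Opposite

universe w w' u

namespace Pool.Agent.H92

variable {X Y : Scheme.{u}} {π : Y ⟶ X}

lemma MV.symm {M : X.Modules} {W₀ W₁ : X.Opens} (h : MV M W₀ W₁) : MV M W₁ W₀ := by
  intro s
  obtain ⟨a, b, hab⟩ := h (rs (show W₀ ⊓ W₁ ≤ W₁ ⊓ W₀ by rw [inf_comm]) s)
  refine ⟨b, a, ?_⟩
  have := congrArg (rs (show W₁ ⊓ W₀ ≤ W₀ ⊓ W₁ by rw [inf_comm])) hab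
  rw [rs_rs, rs_self, rs_add, rs_rs, rs_rs, add_comm] at this
  exact this

/-- Mayer–Vietoris surjectivity for the two charts is local on the base. -/
theorem TwoCover.mv_of_local (c : TwoCover π) (M : Y.Modules)
    (hπ : AffMV ((Scheme.Modules.pushforward π).obj M))
    (h : ∀ x : X, ∃ V₀ : X.Opens, x ∈ V₀ ∧ ∀ V : X.Opens, IsAffineOpen V → V ≤ V₀ →
      MV M (π ⁻¹ᵁ V ⊓ c.U₀) (π ⁻¹ᵁ V ⊓ c.U₁)) (V : X.Opens) (hV : IsAffineOpen V) :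
    MV M (π ⁻¹ᵁ V ⊓ c.U₀) (π ⁻¹ᵁ V ⊓ c.U₁) := by
  intro s
  let O (V : X.Opens) : Y.Opens := (π ⁻¹ᵁ V ⊓ c.U₀) ⊓ (π ⁻¹ᵁ V ⊓ c.U₁)
  have hO : ∀ {V V' : X.Opens}, V' ≤ V → O V' ≤ O V := fun h =>
    inf_le_inf (inf_le_inf_right _ (Scheme.Hom.preimage_mono π h))
      (inf_le_inf_right _ (Scheme.Hom.preimage_mono π h))
  have hO₀ : ∀ {V V' : X.Opens}, V' ≤ V → π ⁻¹ᵁ V' ⊓ c.U₀ ≤ π ⁻¹ᵁ V ⊓ c.U₀ := fun h =>
    (inf_le_inf_right _ (Scheme.Hom.preimage_mono π h))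
  have hO₁ : ∀ {V V' : X.Opens}, V' ≤ V → π ⁻¹ᵁ V' ⊓ c.U₁ ≤ π ⁻¹ᵁ V ⊓ c.U₁ := fun h =>
    (inf_le_inf_right _ (Scheme.Hom.preimage_mono π h))
  let Dec (V' : X.Opens) (s' : Γ(M, O V')) : Prop :=
    ∃ (s₀ : Γ(M, π ⁻¹ᵁ V' ⊓ c.U₀)) (s₁ : Γ(M, π ⁻¹ᵁ V' ⊓ c.U₁)),
      s' = rs inf_le_left s₀ + rs inf_le_right s₁
  have hDec : ∀ {V V' : X.Opens} (h : V' ≤ V) (s' : Γ(M, O V)), Dec V s' →
      Dec V' (rs (hO h) s') := by
    rintro V V' h s' ⟨s₀, s₁, rfl⟩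
    refine ⟨rs (hO₀ h) s₀, rs (hO₁ h) s₁, ?_⟩
    simp only [rs_add, rs_rs]
  have glue : ∀ (V' F G : X.Opens) (hFV : F ≤ V') (hGV : G ≤ V') (_ : V' ≤ F ⊔ G)
      (_ : MV ((Scheme.Modules.pushforward π).obj M) F G) (s' : Γ(M, O V')),
      Dec F (rs (hO hFV) s') → Dec G (rs (hO hGV) s') → Dec V' s' := by
    intro V' F G hFV hGV hcov hMV s' hf' hg'
    obtain ⟨a₀, a₁, ha⟩ := hf'
    obtain ⟨b₀, b₁, hb⟩ := hg'
    have hF : F ⊓ G ≤ F := inf_le_left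
    have hG : F ⊓ G ≤ G := inf_le_right
    obtain ⟨d, hd0, hd1⟩ := glue_two (M := M) (U := π ⁻¹ᵁ (F ⊓ G))
      (W₀ := π ⁻¹ᵁ (F ⊓ G) ⊓ c.U₀) (W₁ := π ⁻¹ᵁ (F ⊓ G) ⊓ c.U₁) inf_le_left inf_le_left
      (c.le_sup _) (rs (hO₀ hF) a₀ - rs (hO₀ hG) b₀) (rs (hO₁ hG) b₁ - rs (hO₁ hF) a₁) (by
        have k₁ := congrArg (rs (hO hF)) ha
        have k₂ := congrArg (rs (hO hG)) hb
        simp only [rs_add, rs_rs] at k₁ k₂
        simp only [rs_sub, rs_rs]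
        rw [k₁] at k₂
        rw [sub_eq_sub_iff_add_eq_add, k₂, add_comm])
    obtain ⟨d₀, d₁, hd⟩ := hMV d
    have hd' : d = rs (Scheme.Hom.preimage_mono π hF) (unPush π d₀) +
      rs (Scheme.Hom.preimage_mono π hG) (unPush π d₁) := hd
    obtain ⟨s₀, hs₀F, hs₀G⟩ := glue_two (M := M) (U := π ⁻¹ᵁ V' ⊓ c.U₀)
      (W₀ := π ⁻¹ᵁ F ⊓ c.U₀) (W₁ := π ⁻¹ᵁ G ⊓ c.U₀) (hO₀ hFV) (hO₀ hGV) (by
        rw [← inf_sup_right, ← Scheme.Hom.preimage_sup]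
        exact hO₀ hcov)
      (a₀ - rs inf_le_left (unPush π d₀)) (b₀ + rs inf_le_left (unPush π d₁)) (by
        have h2 : (π ⁻¹ᵁ F ⊓ c.U₀) ⊓ (π ⁻¹ᵁ G ⊓ c.U₀) ≤ π ⁻¹ᵁ (F ⊓ G) ⊓ c.U₀ := by
          intro y hy
          exact ⟨⟨hy.1.1, hy.2.1⟩, hy.1.2⟩
        have k₁ := congrArg (rs h2) hd0
        rw [hd'] at k₁
        simp only [rs_sub, rs_add, rs_rs] at k₁ ⊢
        rw [sub_eq_iff_eq_add, add_assoc, add_comm (rs _ (unPush π d₁)), k₁]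
        abel)
    obtain ⟨s₁, hs₁F, hs₁G⟩ := glue_two (M := M) (U := π ⁻¹ᵁ V' ⊓ c.U₁)
      (W₀ := π ⁻¹ᵁ F ⊓ c.U₁) (W₁ := π ⁻¹ᵁ G ⊓ c.U₁) (hO₁ hFV) (hO₁ hGV) (by
        rw [← inf_sup_right, ← Scheme.Hom.preimage_sup]
        exact hO₁ hcov)
      (a₁ + rs inf_le_left (unPush π d₀)) (b₁ - rs inf_le_left (unPush π d₁)) (by
        have h2 : (π ⁻¹ᵁ F ⊓ c.U₁) ⊓ (π ⁻¹ᵁ G ⊓ c.U₁) ≤ π ⁻¹ᵁ (F ⊓ G) ⊓ c.U₁ := by
          intro y hy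
          exact ⟨⟨hy.1.1, hy.2.1⟩, hy.1.2⟩
        have k₁ := congrArg (rs h2) hd1
        rw [hd'] at k₁
        simp only [rs_sub, rs_add, rs_rs] at k₁ ⊢
        rw [eq_sub_iff_add_eq, add_assoc, k₁]
        abel)
    refine ⟨s₀, s₁, ?_⟩
    refine eq_of_rs_two (W₀ := O F) (W₁ := O G) (hO hFV) (hO hGV) ?_ _ _ ?_ ?_
    · intro y hy
      have h3 : π y ∈ F ⊔ G := hcov hy.1.1
      rcases h3 with h3 | h3
      · exact Or.inl ⟨⟨h3, hy.1.2⟩, ⟨h3, hy.2.2⟩⟩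
      · exact Or.inr ⟨⟨h3, hy.1.2⟩, ⟨h3, hy.2.2⟩⟩
    · have k₀ := congrArg (rs (inf_le_left : O F ≤ π ⁻¹ᵁ F ⊓ c.U₀)) hs₀F
      have k₁ := congrArg (rs (inf_le_right : O F ≤ π ⁻¹ᵁ F ⊓ c.U₁)) hs₁F
      simp only [rs_sub, rs_add, rs_rs] at k₀ k₁ ⊢
      rw [k₀, k₁, ha]
      abel
    · have k₀ := congrArg (rs (inf_le_left : O G ≤ π ⁻¹ᵁ G ⊓ c.U₀)) hs₀G
      have k₁ := congrArg (rs (inf_le_right : O G ≤ π ⁻¹ᵁ G ⊓ c.U₁)) hs₁G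
      simp only [rs_sub, rs_add, rs_rs] at k₀ k₁ ⊢
      rw [k₀, k₁, hb]
      abel
  have h1 := ideal_trick hV (fun f => Dec (X.basicOpen f) (rs (hO (X.basicOpen_le f)) s))
    (by
      have hbot : O (X.basicOpen (0 : Γ(X, V))) = ⊥ := by
        rw [X.basicOpen_zero]
        refine le_bot_iff.1 (inf_le_left.trans (inf_le_left.trans ?_))
        exact le_rfl
      exact ⟨0, 0, (sections_bot_eq_zero hbot _).trans (sections_bot_eq_zero hbot _).symm⟩)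
    (by
      intro f g hf hg
      have hle : X.basicOpen (f + g) ≤ V := X.basicOpen_le _
      have haff : IsAffineOpen (X.basicOpen (f + g)) := hV.basicOpen _
      have hu : IsUnit (rO hle (f + g)) := rO_isUnit _
      obtain ⟨v, hv⟩ := hu.exists_left_inv
      have hMV := hπ _ haff (rO hle f) (rO hle g) ⟨v, v, by rw [← mul_add, ← map_add, hv]⟩
      have ef : X.basicOpen (rO hle f) ≤ X.basicOpen f := by
        rw [basicOpen_rO]; exact inf_le_right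
      have eg : X.basicOpen (rO hle g) ≤ X.basicOpen g := by
        rw [basicOpen_rO]; exact inf_le_right
      have hcov : X.basicOpen (f + g) ≤ X.basicOpen (rO hle f) ⊔ X.basicOpen (rO hle g) := by
        rw [basicOpen_rO, basicOpen_rO, ← inf_sup_left]
        exact le_inf le_rfl (X.basicOpen_add_le f g)
      have hf' := hDec ef _ hf
      have hg' := hDec eg _ hg
      have hFV : X.basicOpen (rO hle f) ≤ X.basicOpen (f + g) := X.basicOpen_le _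
      have hGV : X.basicOpen (rO hle g) ≤ X.basicOpen (f + g) := X.basicOpen_le _
      refine glue _ _ _ hFV hGV hcov hMV _ ?_ ?_
      · rw [rs_rs] at hf' ⊢
        exact hf'
      · rw [rs_rs] at hg' ⊢
        exact hg')
    (by
      intro a f hf
      have hle : X.basicOpen (a * f) ≤ X.basicOpen f := by
        rw [X.basicOpen_mul]
        exact inf_le_right
      have := hDec hle _ hf
      rw [rs_rs] at this
      exact this)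
    (by
      intro x hx
      obtain ⟨V₀, hxV₀, hV₀⟩ := h x
      obtain ⟨g, hgV, hxg⟩ := hV.exists_basicOpen_le ⟨x, hxV₀⟩ hx
      exact ⟨g, hxg, hV₀ _ (hV.basicOpen g) hgV _⟩)
  have h2 := hDec (show V ≤ X.basicOpen (1 : Γ(X, V)) by rw [X.basicOpen_one]) _ h1
  rwa [rs_rs, rs_self] at h2

end Pool.Agent.H92
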