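import Mathlib
import Pool.Agent.H92.P1B

open CategoryTheory Limits AlgebraicGeometry TopologicalSpace Opposite

universe w w' u

namespace Pool.Agent.H92

variable {X Y : Scheme.{u}} {π : Y ⟶ X}

lemma pb_rs (f : Y ⟶ X) {M : X.Modules} {U V : X.Opens} (h : V ≤ U) (s : Γ(M, U)) :
    pb f (rs h s) = rs (Scheme.Hom.preimage_mono f h) (pb f s) := pb_res f h s

lemma pb_sum (f : Y ⟶ X) {M : X.Modules} {U : X.Opens} {ι : Type w} (S : Finset ι)
    (s : ι → Γ(M, U)) : pb f (∑ i ∈ S, s i) = ∑ i ∈ S, pb f (s i) := by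
  classical
  induction S using Finset.induction_on with
  | empty => simp only [Finset.sum_empty, pb_zero]
  | insert a S ha ih => rw [Finset.sum_insert ha, Finset.sum_insert ha, pb_add, ih]

lemma pb_comb (f : Y ⟶ X) {M : X.Modules} {U : X.Opens} {ι : Type w} [Fintype ι]
    (b : ι → Γ(M, U)) {V : X.Opens} (h : V ≤ U) (c : ι → Γ(X, V)) :
    pb f (comb b h c) =
      comb (fun i => pb f (b i)) (Scheme.Hom.preimage_mono f h) (fun i => f.app V (c i)) := by
  rw [comb, comb, pb_sum]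
  refine Finset.sum_congr rfl (fun i _ => ?_)
  rw [pb_smul, pb_rs]

/-- combinations of restricted sections -/
lemma comb_rs {M : X.Modules} {U : X.Opens} {ι : Type w} [Fintype ι]
    (b : ι → Γ(M, U)) {U' V : X.Opens} (h : U' ≤ U) (h' : V ≤ U') (c : ι → Γ(X, V)) :
    comb (fun i => rs h (b i)) h' c = comb b (h'.trans h) c := by
  rw [comb, comb]
  refine Finset.sum_congr rfl (fun i _ => ?_)
  rw [rs_rs]

variable (c : P1Data π)

section

variable (G : X.Modules)

/-- The unit of the adjunction. -/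
noncomputable abbrev unitG (f : Y ⟶ X) (G : X.Modules) :
    G ⟶ (Scheme.Modules.pushforward f).obj ((Scheme.Modules.pullback f).obj G) :=
  (Scheme.Modules.pullbackPushforwardAdjunction f).unit.app G

lemma unPush_unitG (f : Y ⟶ X) (G : X.Modules) {U : X.Opens} (s : Γ(G, U)) :
    unPush f ((unitG f G).app U s) = pb f s := rfl

include c in
lemma P1Data.pb_bijective {G : X.Modules} {V : X.Opens} (hV : IsAffineOpen V) {n : ℕ}
    {b : Fin n → Γ(G, V)} (hb : IsBasisOn G V b) :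
    Function.Bijective (pb π : Γ(G, V) → _) := by
  have h1 : Function.Bijective (comb b le_rfl) := hb V le_rfl
  have h2 : Function.Bijective (comb (fun i => pb π (b i)) (le_refl (π ⁻¹ᵁ V))) :=
    hb.pb' π (π ⁻¹ᵁ V) le_rfl
  have h3 : Function.Bijective (fun (d : Fin n → Γ(X, V)) (i : Fin n) => π.app V (d i)) := by
    constructor
    · intro d e h
      ext1 i
      exact (c.bijπ hV).1 (congrFun h i)
    · intro d
      choose e he using fun i => (c.bijπ hV).2 (d i)
      exact ⟨e, funext he⟩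
  rw [← Function.Bijective.of_comp_iff _ h1]
  convert h2.comp h3 using 1
  ext1 d
  exact pb_comb π b le_rfl d

include c in
theorem P1Data.isIso_unit {G : X.Modules} (hG : IsVB G) : IsIso (unitG π G) := by
  refine isIso_of_basis _ (fun V x hx => ?_)
  obtain ⟨W, hxW, hWV, hW, n, b, hb⟩ := hG.exists_affine x V hx
  exact ⟨W, hWV, hxW, c.pb_bijective hW hb⟩

lemma P1Data.acyc_pullback {G : X.Modules} (hG : IsVB G) :
    c.toTwoCover.Acyc ((Scheme.Modules.pullback π).obj G) := by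
  refine ⟨(hG.pullback π).qc.affMV, ?_⟩
  have := c.isIso_unit hG
  refine c.toTwoCover.mv_of_local _ (QC.of_iso (asIso (unitG π G)) hG.qc).affMV (fun x => ?_)
  obtain ⟨V₀, hxV₀, -, hV₀, n, b, hb⟩ := hG.exists_affine x ⊤ trivial
  refine ⟨V₀, hxV₀, fun V hV hVV₀ s => ?_⟩
  have hle : c.W₀ V ⊓ c.W₁ V ≤ π ⁻¹ᵁ V₀ :=
    inf_le_left.trans (inf_le_left.trans (Scheme.Hom.preimage_mono π hVV₀))
  obtain ⟨d, rfl⟩ := (hb.pb' π (c.W₀ V ⊓ c.W₁ V) hle).2 s
  choose a₀ a₁ ha using fun i => c.mvO hV (d i)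
  refine ⟨comb (fun i => pb π (b i))
    (inf_le_left.trans (Scheme.Hom.preimage_mono π hVV₀)) a₀, comb (fun i => pb π (b i))
    (inf_le_left.trans (Scheme.Hom.preimage_mono π hVV₀)) a₁, ?_⟩
  rw [rs_comb, rs_comb]
  simp only [comb]
  rw [← Finset.sum_add_distrib]
  refine Finset.sum_congr rfl (fun i _ => ?_)
  rw [← add_smul, ← ha]
  rfl

/-- The twist-like bundle: sections vanishing along the zero section. -/
noncomputable def P1Data.B (G : X.Modules) : Y.Modules :=
  kernel (unitG c.σ₀ ((Scheme.Modules.pullback π).obj G))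

noncomputable def P1Data.ιB (G : X.Modules) : c.B G ⟶ (Scheme.Modules.pullback π).obj G :=
  kernel.ι (unitG c.σ₀ ((Scheme.Modules.pullback π).obj G))

instance (G : X.Modules) : Mono (c.ιB G) :=
  inferInstanceAs (Mono (kernel.ι (unitG c.σ₀ ((Scheme.Modules.pullback π).obj G))))

noncomputable def P1Data.BSeq (G : X.Modules) : ShortComplex Y.Modules :=
  ShortComplex.mk (c.ιB G) (unitG c.σ₀ ((Scheme.Modules.pullback π).obj G)) (kernel.condition _)

instance (G : X.Modules) : Mono (c.BSeq G).f := inferInstanceAs (Mono (c.ιB G))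

lemma P1Data.BSeq_exact (G : X.Modules) : (c.BSeq G).Exact :=
  ShortComplex.exact_of_f_is_kernel _ (kernelIsKernel _)

lemma P1Data.qcB {G : X.Modules} (hG : IsVB G) : QC (c.B G) := by
  have := c.aff_σ₀
  exact QC.kernel (c.BSeq G) (c.BSeq_exact G) (hG.pullback π).qc
    (((hG.pullback π).pullback c.σ₀).qc.pushforward c.σ₀)

lemma P1Data.pb_ιB (G : X.Modules) {W : Y.Opens} (s : Γ(c.B G, W)) :
    pb c.σ₀ ((c.ιB G).app W s) = 0 := by
  have h1 : (c.ιB G ≫ unitG c.σ₀ ((Scheme.Modules.pullback π).obj G)).app W s = 0 := by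
    rw [show c.ιB G ≫ unitG c.σ₀ ((Scheme.Modules.pullback π).obj G) = 0 from
      kernel.condition _]
    rfl
  exact h1

lemma P1Data.exists_B (G : X.Modules) {W : Y.Opens}
    (t : Γ((Scheme.Modules.pullback π).obj G, W)) (h : pb c.σ₀ t = 0) :
    ∃ s : Γ(c.B G, W), (c.ιB G).app W s = t :=
  exists_of_exact (c.BSeq G) (c.BSeq_exact G) W t h

lemma P1Data.ιB_injective (G : X.Modules) (W : Y.Opens) :
    Function.Injective ((c.ιB G).app W) := app_injective_of_mono _ _

lemma P1Data.ιB_bijective (G : X.Modules) {W : Y.Opens} (hW : W ≤ c.U₁) :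
    Function.Bijective ((c.ιB G).app W) := by
  refine ⟨c.ιB_injective G W, fun t => c.exists_B G t ?_⟩
  apply sections_bot_eq_zero
  rw [← le_bot_iff, ← c.σ₀_U₁]
  exact Scheme.Hom.preimage_mono _ hW

lemma P1Data.pb_σ₀_eq_zero_iff {V : X.Opens} (hV : IsAffineOpen V) {n : ℕ}
    {G : X.Modules} {b : Fin n → Γ(G, V)} (hb : IsBasisOn G V b) (d : Fin n → Γ(Y, c.W₀ V)) :
    pb c.σ₀ (comb (fun i => pb π (b i)) (inf_le_left : c.W₀ V ≤ π ⁻¹ᵁ V) d) = 0 ↔
      ∃ e : Fin n → Γ(Y, c.W₀ V), d = fun i => c.t₀ V * e i := by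
  have hbb := (hb.pb' π).pb' c.σ₀
  have hinj := (hbb _ (Scheme.Hom.preimage_mono c.σ₀ (inf_le_left : c.W₀ V ≤ π ⁻¹ᵁ V))).1
  rw [pb_comb]
  have h0 : comb (fun i => pb c.σ₀ (pb π (b i)))
    (Scheme.Hom.preimage_mono c.σ₀ (inf_le_left : c.W₀ V ≤ π ⁻¹ᵁ V))
      (fun i => c.σ₀.app (c.W₀ V) (d i)) = 0 ↔ (fun i => c.σ₀.app (c.W₀ V) (d i)) = 0 := by
    constructor
    · intro h
      exact hinj (h.trans (comb_zero _ _).symm)
    · intro h
      rw [h, comb_zero]
  rw [h0]
  constructor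
  · intro h
    choose e he using fun i => (c.σ₀_eq_zero_iff hV (d i)).1 (congrFun h i)
    exact ⟨e, funext he⟩
  · rintro ⟨e, rfl⟩
    ext1 i
    exact (c.σ₀_eq_zero_iff hV _).2 ⟨e i, rfl⟩

end

end Pool.Agent.H92
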