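import Mathlib
import Pool.Agent.H92.P1C

open CategoryTheory Limits AlgebraicGeometry TopologicalSpace Opposite

universe w w' u

namespace Pool.Agent.H92

variable {X Y : Scheme.{u}} {π : Y ⟶ X}

lemma app_comb {M N : X.Modules} (g : M ⟶ N) {U V : X.Opens} {ι : Type w} [Fintype ι]
    (b : ι → Γ(M, U)) (h : V ≤ U) (c : ι → Γ(X, V)) :
    g.app V (comb b h c) = comb (fun i => g.app U (b i)) h c := by
  rw [comb, comb, map_sum]
  refine Finset.sum_congr rfl (fun i _ => ?_)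
  rw [Scheme.Modules.Hom.app_smul, app_rs]

/-- Lifting a local basis along a local isomorphism. -/
lemma IsBasisOn.lift {M N : X.Modules} (g : M ⟶ N) {U : X.Opens}
    (hg : ∀ V ≤ U, Function.Bijective (g.app V)) {ι : Type w} [Fintype ι] {b : ι → Γ(N, U)}
    (hb : IsBasisOn N U b) : ∃ b' : ι → Γ(M, U), IsBasisOn M U b' ∧ ∀ i, g.app U (b' i) = b i := by
  choose b' hb' using fun i => (hg U le_rfl).2 (b i)
  refine ⟨b', ?_, hb'⟩
  intro V hV
  change Function.Bijective (comb b' hV)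
  rw [← Function.Bijective.of_comp_iff' (hg V hV)]
  convert hb V hV using 1
  ext1 c
  change g.app V (comb b' hV c) = comb b hV c
  rw [app_comb]
  simp only [hb']

variable (c : P1Data π)

lemma P1Data.isVB_B {G : X.Modules} (hG : IsVB G) : IsVB (c.B G) := by
  intro y
  obtain ⟨V, hyV, -, hV, n, b, hb⟩ := hG.exists_affine (π y) ⊤ trivial
  have hy : y ∈ c.U₀ ⊔ c.U₁ := by rw [c.sup_eq]; trivial
  rcases hy with hy | hy
  · -- the first chart
    have hex : ∀ i, ∃ s : Γ(c.B G, c.W₀ V), (c.ιB G).app _ s =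
        c.t₀ V • rs (inf_le_left : c.W₀ V ≤ π ⁻¹ᵁ V) (pb π (b i)) := by
      intro i
      apply c.exists_B
      rw [pb_smul]
      have : c.σ₀.app (c.W₀ V) (c.t₀ V) = 0 := (c.σ₀_eq_zero_iff hV _).2 ⟨1, by rw [mul_one]⟩
      rw [this, zero_smul]
    choose s hs using hex
    refine ⟨c.W₀ V, ⟨hyV, hy⟩, n, s, (c.qcB hG).isBasisOn (c.aff₀ V hV) s ?_⟩
    have hcomb : ∀ d : Fin n → Γ(Y, c.W₀ V), (c.ιB G).app _ (comb s le_rfl d) =
        comb (fun i => pb π (b i)) inf_le_left (fun i => c.t₀ V * d i) := by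
      intro d
      rw [app_comb, comb, comb]
      refine Finset.sum_congr rfl (fun i _ => ?_)
      rw [hs, rs_self, smul_smul, mul_comm]
    have hbas : Function.Bijective
        (comb (fun i => pb π (b i)) (inf_le_left : c.W₀ V ≤ π ⁻¹ᵁ V)) := hb.pb' π _ _
    constructor
    · intro d e hde
      have h1 := congrArg ((c.ιB G).app _) hde
      rw [hcomb, hcomb] at h1
      have h2 := hbas.1 h1
      ext1 i
      have h3 := congrFun h2 i
      rw [← sub_eq_zero, ← mul_sub] at h3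
      exact sub_eq_zero.1 (c.t₀_regular hV _ h3)
    · intro x
      obtain ⟨d, hd⟩ := hbas.2 ((c.ιB G).app _ x)
      have h1 := c.pb_ιB G x
      rw [← hd, c.pb_σ₀_eq_zero_iff hV hb] at h1
      obtain ⟨e, rfl⟩ := h1
      refine ⟨e, c.ιB_injective G _ ?_⟩
      rw [hcomb]
      exact hd
  · -- the second chart
    obtain ⟨b', hb', -⟩ := ((hb.pb' π).of_le (inf_le_left : c.W₁ V ≤ π ⁻¹ᵁ V)).lift (c.ιB G)
      (fun W hW => c.ιB_bijective G (hW.trans inf_le_right))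
    exact ⟨c.W₁ V, ⟨hyV, hy⟩, n, b', hb'⟩

/-- The direct image of the twisted bundle vanishes. -/
lemma P1Data.sections_B_eq_zero {G : X.Modules} (hG : IsVB G) (V : X.Opens)
    (s : Γ(c.B G, π ⁻¹ᵁ V)) : s = 0 := by
  refine eq_of_rs_cover (fun y hy => ?_)
  obtain ⟨W, hyW, hWV, hW, n, b, hb⟩ := hG.exists_affine (π y) V hy
  refine ⟨π ⁻¹ᵁ W, Scheme.Hom.preimage_mono π hWV, hyW, ?_⟩
  rw [rs_zero]
  generalize rs (Scheme.Hom.preimage_mono π hWV) s = s'
  apply c.ιB_injective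
  rw [map_zero]
  have h1 := c.pb_ιB G s'
  obtain ⟨g, hg⟩ := (c.pb_bijective hW hb).2 ((c.ιB G).app _ s')
  rw [← hg] at h1 ⊢
  obtain ⟨d, rfl⟩ := (hb W le_rfl).2 g
  change pb c.σ₀ (pb π (comb b le_rfl d)) = 0 at h1
  change pb π (comb b le_rfl d) = 0
  rw [pb_comb, pb_comb] at h1
  have h2 := ((hb.pb' π).pb' c.σ₀ _ le_rfl).1 (h1.trans (comb_zero _ _).symm)
  have h3 : d = 0 := by
    ext1 i
    have h4 : c.σ₀.app _ (π.app W (d i)) = 0 := congrFun h2 i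
    have h5 : W ≤ c.σ₀ ⁻¹ᵁ (π ⁻¹ᵁ W) := by
      rw [← Scheme.Hom.comp_preimage, c.σ₀_π]
      exact le_rfl
    have h6 := σ_π_app c.σ₀_π (d i) h5 le_rfl
    rw [h4, map_zero, rO_self] at h6
    exact h6.symm
  rw [h3, comb_zero, pb_zero]

lemma P1Data.acyc_B {G : X.Modules} (hG : IsVB G) : c.toTwoCover.Acyc (c.B G) := by
  refine ⟨(c.qcB hG).affMV, ?_⟩
  refine c.toTwoCover.mv_of_local _ ?_ (fun x => ?_)
  · intro W hW f g hfg s
    refine ⟨0, 0, ?_⟩
    rw [rs_zero, rs_zero, add_zero]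
    exact c.sections_B_eq_zero hG _ s
  obtain ⟨V₀, hxV₀, -, hV₀, n, b, hb⟩ := hG.exists_affine x ⊤ trivial
  refine ⟨V₀, hxV₀, fun V hV hVV₀ s => ?_⟩
  -- decompose in the pullback
  obtain ⟨a₀, a₁, ha⟩ := (c.acyc_pullback hG).2 V hV ((c.ιB G).app _ s)
  have hb' := hb.of_le hVV₀
  -- the value at the section extends to a global section
  obtain ⟨d, hd⟩ := hb.pb' π (c.W₀ V) (inf_le_left.trans (Scheme.Hom.preimage_mono π hVV₀)) |>.2 a₀
  choose p hp using fun i => (c.bij₀ V hV).2 (d i)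
  let r : Fin n → Γ(X, V) := fun i => (p i).coeff 0
  let g : Γ((Scheme.Modules.pullback π).obj G, π ⁻¹ᵁ V) := pb π (comb b hVV₀ r)
  have hg : rs (inf_le_left : c.W₀ V ≤ π ⁻¹ᵁ V) g = comb (fun i => pb π (b i))
      (inf_le_left.trans (Scheme.Hom.preimage_mono π hVV₀))
      (fun i => rO inf_le_left (π.app V (r i))) := by
    rw [show g = _ from pb_comb π b hVV₀ r, rs_comb]
  have h0 : pb c.σ₀ (a₀ - rs inf_le_left g) = 0 := by
    rw [← hd, hg]
    change pb c.σ₀ (comb _ _ d - _) = 0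
    rw [← comb_sub, pb_comb]
    convert comb_zero (fun i => pb c.σ₀ (pb π (b i))) (Scheme.Hom.preimage_mono c.σ₀
      ((inf_le_left : c.W₀ V ≤ π ⁻¹ᵁ V).trans (Scheme.Hom.preimage_mono π hVV₀))) using 2
    ext1 i
    rw [Pi.sub_apply, map_sub, ← hp i]
    have e1 := c.σ₀_evT (V := V) (p i)
    have e2 : c.σ₀.app (c.W₀ V) (rO inf_le_left (π.app V (r i))) =
        rO (c.σ₀_W₀ V).le (r i) := by
      rw [app_rO]
      exact σ_π_app c.σ₀_π _ _ _
    rw [e2]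
    exact sub_eq_zero.2 e1
  obtain ⟨s₀, hs₀⟩ := c.exists_B G _ h0
  obtain ⟨s₁, hs₁⟩ := (c.ιB_bijective G (inf_le_right : c.W₁ V ≤ c.U₁)).2
    (a₁ + rs inf_le_left g)
  refine ⟨s₀, s₁, c.ιB_injective G _ ?_⟩
  rw [map_add, app_rs, app_rs, hs₀, hs₁, ha, rs_sub, rs_add, rs_rs, rs_rs]
  abel

/-- The resolution of the pulled back bundle. -/
noncomputable def P1Data.A (G : X.Modules) : Y.Modules := c.B G ⊞ c.swap.B G

noncomputable def P1Data.φA (G : X.Modules) : c.A G ⟶ (Scheme.Modules.pullback π).obj G :=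
  biprod.desc (c.ιB G) (c.swap.ιB G)

lemma P1Data.isVB_A {G : X.Modules} (hG : IsVB G) : IsVB (c.A G) :=
  (c.isVB_B hG).biprod (c.swap.isVB_B hG)

lemma P1Data.acyc_A {G : X.Modules} (hG : IsVB G) : c.toTwoCover.Acyc (c.A G) := by
  refine c.toTwoCover.isAdapted.biprod _ _ (c.acyc_B hG) ?_
  have h := c.swap.acyc_B hG
  exact ⟨h.1, fun V hV => (h.2 V hV).symm⟩

lemma P1Data.sections_A_eq_zero {G : X.Modules} (hG : IsVB G) (V : X.Opens)
    (s : Γ(c.A G, π ⁻¹ᵁ V)) : s = 0 := by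
  have h := biprod_total_app (M := c.B G) (N := c.swap.B G) (π ⁻¹ᵁ V) s
  rw [c.sections_B_eq_zero hG V ((biprod.fst : c.B G ⊞ c.swap.B G ⟶ _).app _ s),
    c.swap.sections_B_eq_zero hG V ((biprod.snd : c.B G ⊞ c.swap.B G ⟶ _).app _ s),
    map_zero, map_zero, add_zero] at h
  exact h.symm

instance P1Data.epi_φA (G : X.Modules) : Epi (c.φA G) := by
  rw [epi_iff_locallySurjective]
  intro U s y hy
  have hy' : y ∈ c.U₀ ⊔ c.U₁ := by rw [c.sup_eq]; trivial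
  rcases hy' with hy' | hy'
  · obtain ⟨t, ht⟩ := (c.swap.ιB_bijective G (W := U ⊓ c.U₀) inf_le_right).2 (rs inf_le_left s)
    refine ⟨U ⊓ c.U₀, inf_le_left, (biprod.inr : _ ⟶ c.B G ⊞ c.swap.B G).app _ t, ?_, hy, hy'⟩
    have h1 : (biprod.inr : _ ⟶ c.B G ⊞ c.swap.B G) ≫ c.φA G = c.swap.ιB G :=
      biprod.inr_desc _ _
    refine Eq.trans ?_ ht
    rw [← h1]
    rfl
  · obtain ⟨t, ht⟩ := (c.ιB_bijective G (W := U ⊓ c.U₁) inf_le_right).2 (rs inf_le_left s)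
    refine ⟨U ⊓ c.U₁, inf_le_left, (biprod.inl : _ ⟶ c.B G ⊞ c.swap.B G).app _ t, ?_, hy, hy'⟩
    have h1 : (biprod.inl : _ ⟶ c.B G ⊞ c.swap.B G) ≫ c.φA G = c.ιB G :=
      biprod.inl_desc _ _
    refine Eq.trans ?_ ht
    rw [← h1]
    rfl

end Pool.Agent.H92
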