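import Mathlib
import Pool.Agent.H92.P1D

open CategoryTheory Limits AlgebraicGeometry TopologicalSpace Opposite ZeroObject

universe w w' u

namespace Pool.Agent.H92

variable {X Y : Scheme.{u}} {π : Y ⟶ X} (c : P1Data π)

section

variable (C : CochainComplex X.Modules ℤ) (b : ℤ) [C.IsStrictlyLE (b + 1)]

/-- The pulled back complex. -/
noncomputable abbrev pbC (π : Y ⟶ X) (C : CochainComplex X.Modules ℤ) :
    CochainComplex Y.Modules ℤ :=
  ((Scheme.Modules.pullback π).mapHomologicalComplex (ComplexShape.up ℤ)).obj C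

/-- The morphism killing the last term. -/
noncomputable def P1Data.ψ :
    (HomologicalComplex.single Y.Modules (ComplexShape.up ℤ) (b + 1)).obj (c.A (C.X (b + 1))) ⟶
      pbC π C :=
  HomologicalComplex.mkHomFromSingle (K := pbC π C) (c.φA (C.X (b + 1))) (by
    intro k hk
    have hk' : b + 1 + 1 = k := hk
    have h1 : IsZero (C.X k) := C.isZero_of_isStrictlyLE (b + 1) k (by lia)
    have h2 : IsZero ((pbC π C).X k) := (Scheme.Modules.pullback π).map_isZero h1
    exact h2.eq_of_tgt _ _)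

/-- The cone. -/
noncomputable abbrev P1Data.cone : CochainComplex Y.Modules ℤ :=
  CochainComplex.mappingCone (c.ψ C b)

noncomputable def P1Data.coneXIso (i : ℤ) : (c.cone C b).X i ≅
    ((HomologicalComplex.single Y.Modules (ComplexShape.up ℤ) (b + 1)).obj
      (c.A (C.X (b + 1)))).X (i + 1) ⊞ (pbC π C).X i :=
  HomologicalComplex.homotopyCofiber.XIsoBiprod (c.ψ C b) i (i + 1) (by simp)

variable {C}

omit [C.IsStrictlyLE (b + 1)] in
lemma P1Data.single_vb (hC : ∀ i, IsVB (C.X i)) (i : ℤ) :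
    IsVB (((HomologicalComplex.single Y.Modules (ComplexShape.up ℤ) (b + 1)).obj
      (c.A (C.X (b + 1)))).X i) := by
  by_cases hi : i = b + 1
  · subst hi
    exact (c.isVB_A (hC _)).of_iso (HomologicalComplex.singleObjXSelf _ _ _).symm
  · exact IsVB.of_isZero (HomologicalComplex.isZero_single_obj_X _ _ _ _ hi)

omit [C.IsStrictlyLE (b + 1)] in
lemma P1Data.single_acyc (hC : ∀ i, IsVB (C.X i)) (i : ℤ) :
    c.toTwoCover.Acyc (((HomologicalComplex.single Y.Modules (ComplexShape.up ℤ) (b + 1)).obj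
      (c.A (C.X (b + 1)))).X i) := by
  by_cases hi : i = b + 1
  · subst hi
    exact c.toTwoCover.isAdapted.of_iso (HomologicalComplex.singleObjXSelf _ _ _).symm
      (c.acyc_A (hC _))
  · exact c.toTwoCover.isAdapted.injective _
      (HomologicalComplex.isZero_single_obj_X _ _ _ _ hi).injective

omit [C.IsStrictlyLE (b + 1)] in
lemma P1Data.single_push (hC : ∀ i, IsVB (C.X i)) (i : ℤ) :
    IsZero ((Scheme.Modules.pushforward π).obj
    (((HomologicalComplex.single Y.Modules (ComplexShape.up ℤ) (b + 1)).obj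
      (c.A (C.X (b + 1)))).X i)) := by
  by_cases hi : i = b + 1
  · subst hi
    refine IsZero.of_iso ?_ ((Scheme.Modules.pushforward π).mapIso
      (HomologicalComplex.singleObjXSelf _ _ _))
    rw [IsZero.iff_id_eq_zero]
    ext V s
    rw [id_app_apply, zero_app_apply]
    exact c.sections_A_eq_zero (hC _) V s
  · exact (Scheme.Modules.pushforward π).map_isZero
      (HomologicalComplex.isZero_single_obj_X _ _ _ _ hi)

lemma P1Data.cone_vb (hC : ∀ i, IsVB (C.X i)) (i : ℤ) : IsVB ((c.cone C b).X i) :=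
  ((c.single_vb b hC _).biprod ((hC i).pullback π)).of_iso (c.coneXIso C b i).symm

lemma P1Data.cone_acyc (hC : ∀ i, IsVB (C.X i)) (i : ℤ) :
    c.toTwoCover.Acyc ((c.cone C b).X i) :=
  c.toTwoCover.isAdapted.of_iso (c.coneXIso C b i).symm
    (c.toTwoCover.isAdapted.biprod _ _ (c.single_acyc b hC _) (c.acyc_pullback (hC i)))

lemma P1Data.cone_ge (a : ℤ) (hab : a ≤ b) [C.IsStrictlyGE a] : (c.cone C b).IsStrictlyGE a := by
  have : (pbC π C).IsStrictlyGE a := by
    rw [CochainComplex.isStrictlyGE_iff]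
    intro i hi
    exact (Scheme.Modules.pullback π).map_isZero (C.isZero_of_isStrictlyGE a i hi)
  exact CochainComplex.isStrictlyGE_mappingCone (c.ψ C b) (b + 1) a a

lemma P1Data.epi_cone_d : Epi ((c.cone C b).d b (b + 1)) := by
  have h := CochainComplex.mappingCone.inl_v_d (c.ψ C b) (b + 1) b (b + 1 + 1) (by lia) (by lia)
  have hz : IsZero (((HomologicalComplex.single Y.Modules (ComplexShape.up ℤ) (b + 1)).obj
      (c.A (C.X (b + 1)))).X (b + 1 + 1)) :=
    HomologicalComplex.isZero_single_obj_X _ _ _ _ (by lia)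
  rw [hz.eq_of_tgt (HomologicalComplex.d _ (b + 1) (b + 1 + 1)) 0, zero_comp, sub_zero] at h
  have e1 : Epi ((c.ψ C b).f (b + 1)) := by
    have : (c.ψ C b).f (b + 1) = _ := HomologicalComplex.mkHomFromSingle_f (K := pbC π C)
      (c.φA (C.X (b + 1))) _
    rw [this]
    have h2 : Epi (Y := (pbC π C).X (b + 1)) (c.φA (C.X (b + 1))) := c.epi_φA (C.X (b + 1))
    exact epi_comp _ _
  have e2 : Epi ((CochainComplex.mappingCone.inr (c.ψ C b)).f (b + 1)) := by
    have hid := CochainComplex.mappingCone.id_X (c.ψ C b) (b + 1) (b + 1 + 1) rfl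
    rw [hz.eq_of_tgt ((CochainComplex.mappingCone.fst (c.ψ C b)).1.v (b + 1) (b + 1 + 1) rfl) 0,
      zero_comp, zero_add] at hid
    exact epi_of_epi_fac hid
  have e3 : Epi ((c.ψ C b).f (b + 1) ≫ (CochainComplex.mappingCone.inr (c.ψ C b)).f (b + 1)) :=
    epi_comp _ _
  exact epi_of_epi_fac h

lemma P1Data.cone_isZero (i : ℤ) (hi : b + 1 < i) : IsZero ((c.cone C b).X i) := by
  rw [CochainComplex.mappingCone.isZero_X_iff]
  refine ⟨HomologicalComplex.isZero_single_obj_X _ _ _ _ (by lia), ?_⟩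
  exact (Scheme.Modules.pullback π).map_isZero (C.isZero_of_isStrictlyLE (b + 1) i (by lia))

lemma P1Data.cone_le : (c.cone C b).IsLE b := by
  rw [CochainComplex.isLE_iff]
  intro i hi
  by_cases h : i = b + 1
  · subst h
    rw [HomologicalComplex.exactAt_iff' _ b (b + 1) (b + 1 + 1) (by simp) (by simp)]
    have hz := c.cone_isZero b (C := C) (b + 1 + 1) (by lia)
    have he := c.epi_cone_d b (C := C)
    rw [ShortComplex.exact_iff_epi _ (hz.eq_of_tgt _ _)]
    exact he
  · refine HomologicalComplex.ExactAt.of_iso (K := c.cone C b) ?_ (Iso.refl _)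
    rw [HomologicalComplex.exactAt_iff]
    exact ShortComplex.exact_of_isZero_X₂ _ (c.cone_isZero b i (by lia))

end

end Pool.Agent.H92
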