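import Mathlib
import Pool.Agent.H92.Step

open CategoryTheory Limits AlgebraicGeometry TopologicalSpace Opposite ZeroObject

universe w w' u

namespace Pool.Agent.H92

variable {X Y : Scheme.{u}} {π : Y ⟶ X} (c : P1Data π)

section

variable (C : CochainComplex X.Modules ℤ) (b : ℤ) [C.IsStrictlyLE (b + 1)]

/-- The push forward of the cone. -/
noncomputable abbrev P1Data.pushCone : CochainComplex X.Modules ℤ :=
  ((Scheme.Modules.pushforward π).mapHomologicalComplex (ComplexShape.up ℤ)).obj (c.cone C b)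

/-- The unit, for complexes. -/
noncomputable def toPushPb (π : Y ⟶ X) (C : CochainComplex X.Modules ℤ) :
    C ⟶ ((Scheme.Modules.pushforward π).mapHomologicalComplex
      (ComplexShape.up ℤ)).obj (pbC π C) where
  f i := unitG π (C.X i)
  comm' i j _ := ((Scheme.Modules.pullbackPushforwardAdjunction π).unit.naturality (C.d i j)).symm

/-- The comparison map. -/
noncomputable def P1Data.toPushCone : C ⟶ c.pushCone C b :=
  toPushPb π C ≫ ((Scheme.Modules.pushforward π).mapHomologicalComplex
      (ComplexShape.up ℤ)).map (CochainComplex.mappingCone.inr (c.ψ C b))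

variable {C}

lemma P1Data.isIso_push_inr (hC : ∀ i, IsVB (C.X i)) (i : ℤ) :
    IsIso ((Scheme.Modules.pushforward π).map
      ((CochainComplex.mappingCone.inr (c.ψ C b)).f i)) := by
  refine ⟨(Scheme.Modules.pushforward π).map ((CochainComplex.mappingCone.snd (c.ψ C b)).v i i
    (add_zero i)), ?_, ?_⟩
  · rw [← Functor.map_comp, CochainComplex.mappingCone.inr_f_snd_v,
      CategoryTheory.Functor.map_id]
  · have hid := CochainComplex.mappingCone.id_X (c.ψ C b) i (i + 1) rfl
    have h3 := congrArg (Scheme.Modules.pushforward π).map hid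
    rw [Functor.map_add, CategoryTheory.Functor.map_id, Functor.map_comp, Functor.map_comp] at h3
    rw [(c.single_push b hC (i + 1)).eq_of_tgt ((Scheme.Modules.pushforward π).map
      ((CochainComplex.mappingCone.fst (c.ψ C b)).1.v i (i + 1) rfl)) 0, zero_comp,
      zero_add] at h3
    exact h3

lemma P1Data.isIso_toPushCone_f (hC : ∀ i, IsVB (C.X i)) (i : ℤ) :
    IsIso ((c.toPushCone C b).f i) := by
  have h1 : IsIso ((toPushPb π C).f i) := c.isIso_unit (hC i)
  have h2 : IsIso ((((Scheme.Modules.pushforward π).mapHomologicalComplex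
      (ComplexShape.up ℤ)).map (CochainComplex.mappingCone.inr (c.ψ C b))).f i) :=
    c.isIso_push_inr b hC i
  unfold P1Data.toPushCone
  rw [HomologicalComplex.comp_f]
  exact IsIso.comp_isIso

lemma P1Data.isIso_toPushCone (hC : ∀ i, IsVB (C.X i)) : IsIso (c.toPushCone C b) := by
  have := c.isIso_toPushCone_f b hC
  exact HomologicalComplex.Hom.isIso_of_components _

/-- The new complex. -/
noncomputable abbrev P1Data.C' (C : CochainComplex X.Modules ℤ) (b : ℤ)
    [C.IsStrictlyLE (b + 1)] : CochainComplex Y.Modules ℤ :=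
  (c.cone C b).truncLE b

lemma P1Data.C'_vb (hC : ∀ i, IsVB (C.X i)) (i : ℤ) : IsVB ((c.C' C b).X i) := by
  rcases lt_trichotomy i b with hi | hi | hi
  · exact (c.cone_vb b hC i).of_iso ((c.cone C b).truncLEXIso b i hi).symm
  · subst hi
    refine IsVB.of_iso ((c.cone C i).truncLEXIsoCycles i).symm ?_
    let S : ShortComplex Y.Modules := ShortComplex.mk ((c.cone C i).iCycles i)
      ((c.cone C i).d i (i + 1)) (by simp)
    have he : Epi S.g := c.epi_cone_d i (C := C)
    have hS : S.ShortExact :=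
      { exact := S.exact_of_f_is_kernel ((c.cone C i).cyclesIsKernel i (i + 1) (by simp))
        mono_f := by dsimp [S]; infer_instance }
    exact IsVB.kernel S hS (c.cone_vb i hC i) (c.cone_vb i hC (i + 1))
  · exact IsVB.of_isZero ((c.C' C b).isZero_of_isStrictlyLE b i hi)

variable [HasDerivedCategory X.Modules] [HasDerivedCategory Y.Modules]

include c in
theorem P1Data.step (hC : ∀ i, IsVB (C.X i)) (a : ℤ) (hab : a ≤ b) [C.IsStrictlyGE a] :
    ∃ C' : CochainComplex Y.Modules ℤ, C'.IsStrictlyLE b ∧ (∀ i, IsVB (C'.X i)) ∧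
      C'.IsStrictlyGE a ∧
      ∀ (h' : CochainComplex.plus _ C') (h : CochainComplex.plus _ C), Nonempty
        ((Scheme.Modules.pushforward π).rightDerivedFunctorPlus.obj
          (DerivedCategory.Plus.Q.obj ⟨C', h'⟩) ≅ DerivedCategory.Plus.Q.obj ⟨C, h⟩) := by
  have hge := c.cone_ge (C := C) b a hab
  refine ⟨c.C' C b, inferInstance, c.C'_vb b hC, inferInstance, ?_⟩
  intro h' h
  have hle := c.cone_le (C := C) b
  have hq : QuasiIso ((c.cone C b).ιTruncLE b) := inferInstance
  have hcone : CochainComplex.plus _ (c.cone C b) := ⟨a, hge⟩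
  let ι : (⟨c.C' C b, h'⟩ : CochainComplex.Plus Y.Modules) ⟶ ⟨c.cone C b, hcone⟩ :=
    ObjectProperty.homMk ((c.cone C b).ιTruncLE b)
  have h1 := isIso_Q_map_of_quasiIso ι hq
  have h2 := c.toTwoCover.isAdapted.rightDerivedIso ⟨c.cone C b, hcone⟩ (c.cone_acyc b hC)
  have h3 := c.isIso_toPushCone b hC
  let e0 : C ≅ c.pushCone C b := asIso (c.toPushCone C b)
  let e : (⟨C, h⟩ : CochainComplex.Plus X.Modules) ≅
      (Scheme.Modules.pushforward π).mapCochainComplexPlus.obj ⟨c.cone C b, hcone⟩ :=
    ObjectProperty.isoMk _ e0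
  exact ⟨(Scheme.Modules.pushforward π).rightDerivedFunctorPlus.mapIso
    (asIso (DerivedCategory.Plus.Q.map ι)) ≪≫ h2 ≪≫ (DerivedCategory.Plus.Q.mapIso e).symm⟩

end

end Pool.Agent.H92
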