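import Mathlib
import Pool.Agent.H92.DerivedMore
import Pool.Agent.H92.Step2
import Pool.Agent.H92.P1Inst2

open CategoryTheory Limits AlgebraicGeometry TopologicalSpace ZeroObject

universe w w' u

namespace Pool.Agent.H92

section

variable {X Y Z : Scheme.{u}} {π : Y ⟶ X}
  [∀ X : Scheme.{u}, HasDerivedCategory.{w} X.Modules]

/-- The derived push forward. -/
noncomputable abbrev Rpush (f : Y ⟶ X) :
    DerivedCategory.Plus Y.Modules ⥤ DerivedCategory.Plus X.Modules :=
  (Scheme.Modules.pushforward f).rightDerivedFunctorPlus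

lemma TwoCover.rpush_comp (c : TwoCover π) (g : Z ⟶ Y) (K : DerivedCategory.Plus Z.Modules) :
    Nonempty ((Rpush (g ≫ π)).obj K ≅ (Rpush π).obj ((Rpush g).obj K)) := by
  obtain ⟨e₁⟩ := rightDerived_comp (Scheme.Modules.pushforward g) (Scheme.Modules.pushforward π)
    c.isAdapted (fun I hI => c.acyc_of_flasque ((flasque_of_injective I hI).pushforward g)) K
  obtain ⟨e₂⟩ := rightDerived_congr (Scheme.Modules.pushforwardComp g π) K
  exact ⟨e₂.symm ≪≫ e₁⟩

lemma rpush_id (K : DerivedCategory.Plus X.Modules) : Nonempty ((Rpush (𝟙 X)).obj K ≅ K) := by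
  obtain ⟨e₁⟩ := rightDerived_congr (Scheme.Modules.pushforwardId X) K
  obtain ⟨e₂⟩ := rightDerived_id K
  exact ⟨e₁ ≪≫ e₂⟩

end

variable (K : Type u) [Field K]

/-- The product of a scheme over `K` with a projective space. -/
noncomputable def prodPS (X : Over (Spec (CommRingCat.of K))) (n : ℕ) :
    Over (Spec (CommRingCat.of K)) :=
  Over.mk (pullback.fst X.hom (PSpace.toSpec K n) ≫ X.hom)

/-- The projection to the first factor. -/
noncomputable def prodPS.fst (X : Over (Spec (CommRingCat.of K))) (n : ℕ) :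
    (prodPS K X n).left ⟶ X.left :=
  pullback.fst X.hom (PSpace.toSpec K n)

/-- The product of a scheme over `K` with a list of projective spaces. -/
noncomputable def prodList : List ℕ → Over (Spec (CommRingCat.of K)) →
    Over (Spec (CommRingCat.of K))
  | [], X => X
  | n :: l, X => prodList l (prodPS K X n)

/-- The projection to the first factor. -/
noncomputable def prodList.fst : (l : List ℕ) → (X : Over (Spec (CommRingCat.of K))) →
    ((prodList K l X).left ⟶ X.left)
  | [], X => 𝟙 X.left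
  | n :: l, X => prodList.fst l (prodPS K X n) ≫ prodPS.fst K X n

variable {K}

lemma single_plus {A : Type*} [Category A] [Preadditive A] [HasZeroObject A] (E : A) (a : ℤ) :
    CochainComplex.plus A
      ((HomologicalComplex.single A (ComplexShape.up ℤ) a).obj E) := ⟨a, inferInstance⟩

variable [∀ X : Scheme.{u}, HasDerivedCategory.{w} X.Modules]

/-- Complexes of vector bundles are direct images of vector bundles. -/
theorem tower (k : ℕ) : ∀ (X : Over (Spec (CommRingCat.of K))) (a : ℤ)
    (C : CochainComplex X.left.Modules ℤ) (_ : C.IsStrictlyGE a) (_ : C.IsStrictlyLE (a + k))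
    (_ : ∀ i, IsVB (C.X i)) (h : CochainComplex.plus _ C),
    ∃ E : (prodList K (List.replicate k 1) X).left.Modules, IsVB E ∧
      Nonempty ((Rpush (prodList.fst K (List.replicate k 1) X)).obj
        (DerivedCategory.Plus.Q.obj ⟨_, single_plus E a⟩) ≅ DerivedCategory.Plus.Q.obj ⟨C, h⟩) := by
  induction k with
  | zero =>
    intro X a C hge hle hC h
    have hle' : C.IsStrictlyLE a := by simpa using hle
    obtain ⟨E, ⟨e⟩⟩ := C.exists_iso_single a
    have hE : IsVB E := (hC a).of_iso ((HomologicalComplex.eval X.left.Modules (ComplexShape.up ℤ) a).mapIso e ≪≫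
      HomologicalComplex.singleObjXSelf (ComplexShape.up ℤ) a E)
    refine ⟨E, hE, ?_⟩
    obtain ⟨e₂⟩ := rpush_id (DerivedCategory.Plus.Q.obj
      (⟨_, single_plus E a⟩ : CochainComplex.Plus X.left.Modules))
    have e₃ : (⟨_, single_plus E a⟩ : CochainComplex.Plus X.left.Modules) ≅ ⟨C, h⟩ :=
      ObjectProperty.isoMk _ e.symm
    exact ⟨e₂ ≪≫ DerivedCategory.Plus.Q.mapIso e₃⟩
  | succ k ih =>
    intro X a C hge hle hC h
    have hle' : C.IsStrictlyLE (a + k + 1) := by
      have : a + ((k + 1 : ℕ) : ℤ) = a + k + 1 := by push_cast; ring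
      rwa [this] at hle
    let c := P1data X.hom
    obtain ⟨C', hC'le, hC'vb, hC'ge, hC'⟩ := c.step (b := a + k) hC a (by lia)
    have h' : CochainComplex.plus _ C' := ⟨a, hC'ge⟩
    obtain ⟨e⟩ := hC' h' h
    obtain ⟨E, hE, ⟨e₂⟩⟩ := ih (prodPS K X 1) a C' hC'ge hC'le hC'vb h'
    refine ⟨E, hE, ?_⟩
    obtain ⟨e₃⟩ := c.toTwoCover.rpush_comp (prodList.fst K (List.replicate k 1) (prodPS K X 1))
      (DerivedCategory.Plus.Q.obj ⟨_, single_plus E a⟩)
    exact ⟨e₃ ≪≫ (Rpush _).mapIso e₂ ≪≫ e⟩

end Pool.Agent.H92
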