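import Mathlib
import Pool.Agent.H92.Tower

open CategoryTheory Limits AlgebraicGeometry TopologicalSpace

universe w w' u

namespace Pool.Agent.H92

variable (K : Type u) [Field K]

/-- Projective space as a scheme over the base field. -/
noncomputable def PS (n : ℕ) : Over (Spec (CommRingCat.of K)) := Over.mk (PSpace.toSpec K n)

/-- The projection of a product to the first factor. -/
noncomputable def prodPS.homFst (X : Over (Spec (CommRingCat.of K))) (n : ℕ) :
    prodPS K X n ⟶ X :=
  Over.homMk (prodPS.fst K X n) rfl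

/-- The projection of a product to the second factor. -/
noncomputable def prodPS.homSnd (X : Over (Spec (CommRingCat.of K))) (n : ℕ) :
    prodPS K X n ⟶ PS K n :=
  Over.homMk (pullback.snd X.hom (PSpace.toSpec K n)) pullback.condition.symm

lemma prodPS.lift_exists {X T : Over (Spec (CommRingCat.of K))} {n : ℕ} (a : T ⟶ X)
    (b : T ⟶ PS K n) : ∃ f : T ⟶ prodPS K X n, f ≫ prodPS.homFst K X n = a ∧
      f ≫ prodPS.homSnd K X n = b := by
  let b' : T.left ⟶ PSpace K n := b.left
  have hb : b' ≫ PSpace.toSpec K n = T.hom := Over.w b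
  have ha : a.left ≫ X.hom = T.hom := Over.w a
  have h : a.left ≫ X.hom = b' ≫ PSpace.toSpec K n := ha.trans hb.symm
  refine ⟨Over.homMk (pullback.lift a.left b' h) ?_, ?_, ?_⟩
  · have h2 := pullback.lift_fst_assoc (f := X.hom) (g := PSpace.toSpec K n) a.left b' h X.hom
    exact h2.trans ha
  · ext1
    exact pullback.lift_fst _ _ _
  · ext1
    exact pullback.lift_snd _ _ _

lemma prodPS.hom_ext {X T : Over (Spec (CommRingCat.of K))} {n : ℕ} {f g : T ⟶ prodPS K X n}
    (h₁ : f ≫ prodPS.homFst K X n = g ≫ prodPS.homFst K X n)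
    (h₂ : f ≫ prodPS.homSnd K X n = g ≫ prodPS.homSnd K X n) : f = g := by
  ext1
  apply pullback.hom_ext
  · exact congrArg CommaMorphism.left h₁
  · exact congrArg CommaMorphism.left h₂

/-- The projection to the first factor. -/
noncomputable def prodList.hom : (l : List ℕ) → (X : Over (Spec (CommRingCat.of K))) →
    (prodList K l X ⟶ X)
  | [], X => 𝟙 X
  | n :: l, X => prodList.hom l (prodPS K X n) ≫ prodPS.homFst K X n

lemma prodList.hom_left : ∀ (l : List ℕ) (X : Over (Spec (CommRingCat.of K))),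
    (prodList.hom K l X).left = prodList.fst K l X
  | [], X => rfl
  | n :: l, X => by
    rw [prodList.hom, prodList.fst, Over.comp_left, prodList.hom_left l]
    rfl

/-- The universal property of the product. -/
theorem prodList_univ (k : ℕ) : ∀ (X : Over (Spec (CommRingCat.of K))),
    ∃ q : Fin k → (prodList K (List.replicate k 1) X ⟶ PS K 1),
      ∀ (T : Over (Spec (CommRingCat.of K))) (a : T ⟶ X) (b : Fin k → (T ⟶ PS K 1)),
        ∃! f : T ⟶ prodList K (List.replicate k 1) X,
          f ≫ prodList.hom K (List.replicate k 1) X = a ∧ ∀ i, f ≫ q i = b i := by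
  induction k with
  | zero =>
    intro X
    refine ⟨Fin.elim0, fun T a b => ⟨a, ⟨Category.comp_id a, fun i => i.elim0⟩, ?_⟩⟩
    rintro f ⟨hf, -⟩
    exact (Category.comp_id f).symm.trans hf
  | succ k ih =>
    intro X
    obtain ⟨q, hq⟩ := ih (prodPS K X 1)
    refine ⟨Fin.cons (prodList.hom K (List.replicate k 1) (prodPS K X 1) ≫
      prodPS.homSnd K X 1) q, fun T a b => ?_⟩
    obtain ⟨g, hg₁, hg₂⟩ := prodPS.lift_exists K a (b 0)
    obtain ⟨f, ⟨hf₁, hf₂⟩, hf₃⟩ := hq T g (Fin.tail b)
    refine ⟨f, ⟨?_, ?_⟩, ?_⟩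
    · change f ≫ prodList.hom K (List.replicate k 1) (prodPS K X 1) ≫ prodPS.homFst K X 1 = a
      rw [← Category.assoc, hf₁, hg₁]
    · intro i
      refine Fin.cases ?_ (fun j => ?_) i
      · change f ≫ prodList.hom K (List.replicate k 1) (prodPS K X 1) ≫ prodPS.homSnd K X 1 = b 0
        rw [← Category.assoc, hf₁, hg₂]
      · exact hf₂ j
    · rintro f' ⟨h₁, h₂⟩
      apply hf₃
      refine ⟨prodPS.hom_ext K ?_ ?_, fun j => h₂ j.succ⟩
      · rw [hg₁, Category.assoc]
        exact h₁
      · rw [hg₂, Category.assoc]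
        exact h₂ 0

end Pool.Agent.H92
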