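import Mathlib

open CategoryTheory Limits ZeroObject

universe v u

namespace Pool.Agent.H92

variable {A : Type u} [Category.{v} A] [Abelian A]

section

variable (M : A) {i₀ i₁ : ℤ} (h : (ComplexShape.up ℤ).Rel i₀ i₁)

/-- The disk complex. -/
noncomputable def disk : CochainComplex A ℤ := HomologicalComplex.double (𝟙 M) h

include h in
lemma ne_of_rel : i₀ ≠ i₁ := by
  have : i₀ + 1 = i₁ := h
  lia

/-- objects of the disk complex -/
noncomputable def diskX₀ : (disk M h).X i₀ ≅ M :=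
  HomologicalComplex.doubleXIso₀ (𝟙 M) h

noncomputable def diskX₁ : (disk M h).X i₁ ≅ M :=
  HomologicalComplex.doubleXIso₁ (𝟙 M) h (ne_of_rel h)

lemma disk_d : (disk M h).d i₀ i₁ = (diskX₀ M h).hom ≫ (diskX₁ M h).inv := by
  have := HomologicalComplex.double_d (𝟙 M) h (ne_of_rel h)
  rw [Category.id_comp] at this
  exact this

lemma isZero_disk_X (i : ℤ) (h₀ : i ≠ i₀) (h₁ : i ≠ i₁) : IsZero ((disk M h).X i) :=
  HomologicalComplex.isZero_double_X _ _ i h₀ h₁

lemma disk_hom_ext {K : CochainComplex A ℤ} {f g : K ⟶ disk M h} (h₀ : f.f i₀ = g.f i₀)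
    (h₁ : f.f i₁ = g.f i₁) : f = g :=
  HomologicalComplex.to_double_hom_ext h₀ h₁

open Classical in
/-- Morphisms to a disk complex. -/
noncomputable def toDisk {M : A} {C : CochainComplex A ℤ} (φ : C.X i₁ ⟶ M) : C ⟶ disk M h where
  f i := if h₀ : i = i₀ then eqToHom (by rw [h₀]) ≫ C.d i₀ i₁ ≫ φ ≫ (diskX₀ M h).inv ≫
      eqToHom (by rw [h₀])
    else if h₁ : i = i₁ then eqToHom (by rw [h₁]) ≫ φ ≫ (diskX₁ M h).inv ≫
      eqToHom (by rw [h₁]) else 0
  comm' i k hik := by
    by_cases h₀ : i = i₀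
    · subst h₀
      obtain rfl := (ComplexShape.up ℤ).next_eq hik h
      rw [dif_pos rfl, dif_neg (ne_of_rel h).symm, dif_pos rfl, disk_d]
      simp only [eqToHom_refl, Category.id_comp, Category.comp_id, Category.assoc,
        Iso.inv_hom_id_assoc]
    · by_cases h₂ : k = i₀
      · subst h₂
        rw [dif_neg h₀, dif_pos rfl]
        have : i ≠ i₁ := by
          have h3 : i + 1 = k := hik
          have h4 : k + 1 = i₁ := h
          lia
        rw [dif_neg this]
        simp
      · by_cases h₁ : k = i₁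
        · have h3 : i + 1 = k := hik
          have h4 : i₀ + 1 = i₁ := h
          lia
        · exact (isZero_disk_X M h k h₂ h₁).eq_of_tgt _ _

lemma toDisk_f₀ {M : A} {C : CochainComplex A ℤ} (φ : C.X i₁ ⟶ M) :
    (toDisk h φ).f i₀ = C.d i₀ i₁ ≫ φ ≫ (diskX₀ M h).inv := by
  dsimp [toDisk]
  rw [if_pos rfl]
  simp

lemma toDisk_f₁ {M : A} {C : CochainComplex A ℤ} (φ : C.X i₁ ⟶ M) :
    (toDisk h φ).f i₁ = φ ≫ (diskX₁ M h).inv := by
  dsimp [toDisk]
  rw [dif_neg (ne_of_rel h).symm, if_pos rfl]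
  simp

/-- Functoriality of disks. -/
noncomputable def mapDisk {M N : A} (φ : M ⟶ N) : disk M h ⟶ disk N h :=
  toDisk h ((diskX₁ M h).hom ≫ φ)

lemma mapDisk_f₁ {M N : A} (φ : M ⟶ N) : (mapDisk h φ).f i₁ =
    (diskX₁ M h).hom ≫ φ ≫ (diskX₁ N h).inv := by
  rw [mapDisk, toDisk_f₁, Category.assoc]

lemma mapDisk_f₀ {M N : A} (φ : M ⟶ N) : (mapDisk h φ).f i₀ =
    (diskX₀ M h).hom ≫ φ ≫ (diskX₀ N h).inv := by
  rw [mapDisk, toDisk_f₀, disk_d, Category.assoc, Category.assoc, Iso.inv_hom_id_assoc]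

instance epi_mapDisk {M N : A} (φ : M ⟶ N) [Epi φ] : Epi (mapDisk h φ) := by
  have : ∀ i, Epi ((mapDisk h φ).f i) := by
    intro i
    by_cases h₀ : i = i₀
    · subst h₀
      rw [mapDisk_f₀]
      infer_instance
    · by_cases h₁ : i = i₁
      · subst h₁
        rw [mapDisk_f₁]
        infer_instance
      · exact ⟨fun _ _ _ => (isZero_disk_X N h i h₀ h₁).eq_of_src _ _⟩
  exact HomologicalComplex.epi_of_epi_f _ inferInstance

lemma acyclic_disk : (disk M h).Acyclic := by
  intro i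
  by_cases h₀ : i = i₀
  · subst h₀
    rw [(disk M h).exactAt_iff' (i - 1) i i₁ (by simp) ((ComplexShape.up ℤ).next_eq' h)]
    rw [ShortComplex.exact_iff_mono _ ((isZero_disk_X M h (i - 1) (by lia) (by
      have : i + 1 = i₁ := h
      lia)).eq_of_src _ _)]
    change Mono ((disk M h).d i i₁)
    rw [disk_d]
    infer_instance
  · by_cases h₁ : i = i₁
    · subst h₁
      rw [(disk M h).exactAt_iff' i₀ i (i + 1) ((ComplexShape.up ℤ).prev_eq' h) (by simp)]
      rw [ShortComplex.exact_iff_epi _ ((isZero_disk_X M h (i + 1) (by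
        have : i₀ + 1 = i := h
        lia) (by lia)).eq_of_tgt _ _)]
      change Epi ((disk M h).d i₀ i)
      rw [disk_d]
      infer_instance
    · rw [HomologicalComplex.exactAt_iff]
      exact ShortComplex.exact_of_isZero_X₂ _ (isZero_disk_X M h i h₀ h₁)

end

lemma quasiIso_of_shortExact (S : ShortComplex (CochainComplex A ℤ)) (hS : S.ShortExact)
    (h₁ : S.X₁.Acyclic) : QuasiIso S.g := by
  rw [quasiIso_iff]
  intro i
  rw [quasiIsoAt_iff_isIso_homologyMap]
  have h2 : ∀ i, IsZero (S.X₁.homology i) := fun i =>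
    (HomologicalComplex.exactAt_iff_isZero_homology _ _).1 (h₁ i)
  have hm : Mono (HomologicalComplex.homologyMap S.g i) :=
    ShortComplex.Exact.mono_g (hS.homology_exact₂ i) ((h2 i).eq_of_src _ _)
  have he : Epi (HomologicalComplex.homologyMap S.g i) :=
    ShortComplex.Exact.epi_f (hS.homology_exact₃ i (i + 1) (by simp)) ((h2 (i + 1)).eq_of_tgt _ _)
  exact isIso_of_mono_of_epi _

lemma shortExact_kernel {B : Type*} [Category* B] [Abelian B] {K L : B} (g : K ⟶ L) [Epi g] :
    (ShortComplex.mk (kernel.ι g) g (kernel.condition g)).ShortExact :=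
  { exact := ShortComplex.exact_kernel g
    mono_f := inferInstanceAs (Mono (kernel.ι g))
    epi_g := inferInstanceAs (Epi g) }

lemma quasiIso_of_isPullback {P K L M : CochainComplex A ℤ} {q : P ⟶ K} {p : P ⟶ L} {f : K ⟶ M}
    {g : L ⟶ M} (sq : IsPullback q p f g) [Epi g] (hL : L.Acyclic) (hM : M.Acyclic) :
    QuasiIso q := by
  have hq : Epi q := Abelian.epi_fst_of_isLimit f g sq.isLimit
  have hS₁ := shortExact_kernel g
  have hS₂ := shortExact_kernel q
  have h1 : QuasiIso g := by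
    rw [quasiIso_iff]
    intro i
    rw [quasiIsoAt_iff_isIso_homologyMap]
    exact (((HomologicalComplex.exactAt_iff_isZero_homology _ _).1 (hL i)).isIso
      ((HomologicalComplex.exactAt_iff_isZero_homology _ _).1 (hM i)) _)
  have h2 := hS₁.acyclic_X₁ h1
  have := isIso_kernel_map_of_isPullback sq
  let e := asIso (kernel.map _ _ _ _ sq.w)
  exact quasiIso_of_shortExact _ hS₂ (fun i => (h2 i).of_iso e.symm)

end Pool.Agent.H92
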