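import Mathlib
import Pool.Agent.H92.PbStep

open CategoryTheory Limits ZeroObject

universe v u

namespace Pool.Agent.H92

variable {A : Type u} [Category.{v} A] [Abelian A]

/-- Replacing the object in one degree of a complex along an epimorphism. -/
theorem exists_improvement (C : CochainComplex A ℤ) {i₀ i₁ : ℤ}
    (h : (ComplexShape.up ℤ).Rel i₀ i₁) {V : A} (φ : V ⟶ C.X i₁) [Epi φ] :
    ∃ (C' : CochainComplex A ℤ) (q : C' ⟶ C), QuasiIso q ∧
      (∀ i, i ≠ i₀ → i ≠ i₁ → Nonempty (C'.X i ≅ C.X i)) ∧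
      Nonempty (C'.X i₁ ≅ V) ∧
      ∃ S : ShortComplex A, S.ShortExact ∧ Nonempty (S.X₁ ≅ C'.X i₀) ∧
        Nonempty (S.X₂ ≅ C.X i₀ ⊞ V) ∧ Nonempty (S.X₃ ≅ C.X i₁) := by
  let f := toDisk h (𝟙 (C.X i₁))
  let g := mapDisk h φ
  have sq : IsPullback (pullback.fst f g) (pullback.snd f g) f g := IsPullback.of_hasPullback f g
  have sq' : ∀ i, IsPullback ((pullback.fst f g).f i) ((pullback.snd f g).f i) (f.f i) (g.f i) :=
    fun i => sq.map (HomologicalComplex.eval A _ i)
  have hg : Epi g := epi_mapDisk h φ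
  refine ⟨pullback f g, pullback.fst f g, quasiIso_of_isPullback sq (acyclic_disk V h)
    (acyclic_disk _ h), ?_, ?_, ?_⟩
  · intro i h₀ h₁
    have h2 : IsIso (g.f i) := (isZero_disk_X V h i h₀ h₁).isIso
      (isZero_disk_X (C.X i₁) h i h₀ h₁) _
    have h3 := (sq' i).isIso_fst_of_isIso
    exact ⟨asIso ((pullback.fst f g).f i)⟩
  · have h2 : IsIso (f.f i₁) := by
      dsimp only [f]
      rw [toDisk_f₁, Category.id_comp]
      infer_instance
    have h3 := (sq' i₁).isIso_snd_of_isIso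
    exact ⟨asIso ((pullback.snd f g).f i₁) ≪≫ diskX₁ V h⟩
  · refine ⟨(sq' i₀).toCommSq.shortComplex', ?_, ⟨Iso.refl _⟩,
      ⟨biprod.mapIso (Iso.refl _) (diskX₀ V h)⟩, ⟨diskX₀ (C.X i₁) h⟩⟩
    have h2 : Epi (g.f i₀) := inferInstance
    exact
      { exact := (sq' i₀).exact_shortComplex'
        mono_f := (sq' i₀).mono_shortComplex'_f
        epi_g := by
          have h3 : Epi (-(g.f i₀)) := by
            rw [Preadditive.epi_iff_cancel_zero]
            intro P k hk
            rw [Preadditive.neg_comp, neg_eq_zero] at hk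
            exact (Preadditive.epi_iff_cancel_zero _).1 h2 _ k hk
          have : biprod.inr ≫ biprod.desc (f.f i₀) (-(g.f i₀)) = -(g.f i₀) := biprod.inr_desc _ _
          exact @epi_of_epi_fac _ _ _ _ _ _ _ _ h3 this }

end Pool.Agent.H92
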