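import Mathlib
import Pool.Agent.H92.VB

open CategoryTheory Limits AlgebraicGeometry TopologicalSpace Opposite

universe w w' u

namespace Pool.Agent.H92

variable {X : Scheme.{u}}

/-- Constructor for morphisms of sheaves of modules. -/
noncomputable def mkHom {M N : X.Modules} (f : ∀ V : X.Opens, Γ(M, V) →+ Γ(N, V))
    (hn : ∀ (U V : X.Opens) (h : V ≤ U) (s : Γ(M, U)), f V (rs h s) = rs h (f U s))
    (hs : ∀ (V : X.Opens) (r : Γ(X, V)) (s : Γ(M, V)), f V (r • s) = r • f V s) : M ⟶ N :=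
  ⟨PresheafOfModules.homMk (M₁ := M.val) (M₂ := N.val)
    { app := fun V => AddCommGrpCat.ofHom (f V.unop)
      naturality := fun U V g => by
        ext s
        exact hn U.unop V.unop g.unop.le s } (fun V r s => hs V.unop r s)⟩

lemma mkHom_app {M N : X.Modules} (f : ∀ V : X.Opens, Γ(M, V) →+ Γ(N, V))
    (hn : ∀ (U V : X.Opens) (h : V ≤ U) (s : Γ(M, U)), f V (rs h s) = rs h (f U s))
    (hs : ∀ (V : X.Opens) (r : Γ(X, V)) (s : Γ(M, V)), f V (r • s) = r • f V s)
    (V : X.Opens) (s : Γ(M, V)) : (mkHom f hn hs).app V s = f V s := rfl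

/-- Coordinate data: an abstract form of the standard covering of projective space. -/
structure CrdData (X : Scheme.{u}) (ι : Type) [Fintype ι] where
  U : ι → X.Opens
  aff : ∀ i, IsAffineOpen (U i)
  iSup_U : ⨆ i, U i = ⊤
  g : ∀ i : ι, ι → Γ(X, U i)
  g_self : ∀ i, g i i = 1
  g_mul : ∀ i j k, rO (inf_le_left : U i ⊓ U j ≤ _) (g i j) *
    rO (inf_le_right : U i ⊓ U j ≤ _) (g j k) = rO (inf_le_left : U i ⊓ U j ≤ _) (g i k)
  basicOpen_g : ∀ i j, X.basicOpen (g i j) = U i ⊓ U j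

variable {ι : Type} [Fintype ι] (c : CrdData X ι)

lemma CrdData.g_mul' {i j k : ι} {W : X.Opens} (hi : W ≤ c.U i) (hj : W ≤ c.U j) :
    rO hi (c.g i j) * rO hj (c.g j k) = rO hi (c.g i k) := by
  have h := congrArg (rO (le_inf hi hj)) (c.g_mul i j k)
  rw [map_mul, rO_rO, rO_rO, rO_rO] at h
  exact h

/-- Sections of the twisting sheaf. -/
noncomputable def CrdData.twSec (n : ℕ) (V : X.Opens) : AddSubgroup (∀ j : ι, Γ(X, V ⊓ c.U j)) where
  carrier := {a | ∀ (j k : ι) (W : X.Opens) (hj : W ≤ V ⊓ c.U j) (hk : W ≤ V ⊓ c.U k),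
    rO hj (a j) = rO hk (a k) * rO (hk.trans inf_le_right) (c.g k j) ^ n}
  zero_mem' := by
    intro j k W hj hk
    simp
  add_mem' := by
    intro a b ha hb j k W hj hk
    rw [Pi.add_apply, Pi.add_apply, map_add, map_add, ha j k W hj hk, hb j k W hj hk, add_mul]
  neg_mem' := by
    intro a ha j k W hj hk
    rw [Pi.neg_apply, Pi.neg_apply, map_neg, map_neg, ha j k W hj hk, neg_mul]

noncomputable instance (n : ℕ) (V : X.Opens) : SMul Γ(X, V) (c.twSec n V) where
  smul r a := ⟨fun j => rO inf_le_left r * a.1 j, by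
    intro j k W hj hk
    rw [map_mul, map_mul, a.2 j k W hj hk, rO_rO, rO_rO, mul_assoc]⟩

lemma CrdData.smul_coe (n : ℕ) (V : X.Opens) (r : Γ(X, V)) (a : c.twSec n V) (j : ι) :
    (r • a).1 j = rO inf_le_left r * a.1 j := rfl

noncomputable instance (n : ℕ) (V : X.Opens) : Module Γ(X, V) (c.twSec n V) where
  one_smul a := by
    ext j
    rw [c.smul_coe, map_one, one_mul]
  mul_smul r s a := by
    ext j
    rw [c.smul_coe, c.smul_coe, c.smul_coe, map_mul, mul_assoc]
  smul_zero r := by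
    ext j
    rw [c.smul_coe]
    exact mul_zero _
  smul_add r a b := by
    ext j
    rw [c.smul_coe]
    exact mul_add _ _ _
  add_smul r s a := by
    ext j
    rw [c.smul_coe, map_add, add_mul]
    rfl
  zero_smul a := by
    ext j
    rw [c.smul_coe, map_zero, zero_mul]
    rfl

/-- Restriction maps of the twisting sheaf. -/
noncomputable def CrdData.twRes (n : ℕ) {V W : X.Opens} (h : W ≤ V) :
    c.twSec n V →+ c.twSec n W where
  toFun a := ⟨fun j => rO (inf_le_inf_right _ h) (a.1 j), by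
    intro j k W' hj hk
    rw [rO_rO, rO_rO]
    exact a.2 j k W' _ _⟩
  map_zero' := by
    ext j
    exact map_zero _
  map_add' a b := by
    ext j
    exact map_add _ _ _

lemma CrdData.twRes_coe (n : ℕ) {V W : X.Opens} (h : W ≤ V) (a : c.twSec n V) (j : ι) :
    (c.twRes n h a).1 j = rO (inf_le_inf_right _ h) (a.1 j) := rfl

/-- The twisting sheaf as a presheaf of abelian groups. -/
noncomputable def CrdData.twPre (n : ℕ) : TopCat.Presheaf AddCommGrpCat.{u} X where
  obj V := AddCommGrpCat.of (c.twSec n V.unop)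
  map f := AddCommGrpCat.ofHom (c.twRes n f.unop.le)
  map_id V := by
    ext a j
    exact rO_self _ _
  map_comp f g := by
    ext a j
    exact (rO_rO _ _ _).symm

lemma CrdData.twPre_isSheaf (n : ℕ) : (c.twPre n).IsSheaf := by
  rw [TopCat.Presheaf.isSheaf_iff_isSheafUniqueGluing]
  intro α W sf hsf
  have key : ∀ (x y : α) (j : ι) (T : X.Opens) (hx : T ≤ W x ⊓ c.U j) (hy : T ≤ W y ⊓ c.U j),
      rO hx ((sf x : c.twSec n (W x)).1 j) = rO hy ((sf y : c.twSec n (W y)).1 j) := by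
    intro x y j T hx hy
    have h1 : c.twRes n (inf_le_left : W x ⊓ W y ≤ W x) (sf x) =
      c.twRes n (inf_le_right : W x ⊓ W y ≤ W y) (sf y) := hsf x y
    have h2 := congrFun (congrArg Subtype.val h1) j
    rw [c.twRes_coe, c.twRes_coe] at h2
    have h3 := congrArg (rO (le_inf (le_inf (hx.trans inf_le_left) (hy.trans inf_le_left))
      (hx.trans inf_le_right) : T ≤ (W x ⊓ W y) ⊓ c.U j)) h2
    rw [rO_rO, rO_rO] at h3
    exact h3
  have hcov : ∀ j, iSup W ⊓ c.U j ≤ ⨆ x, W x ⊓ c.U j := by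
    intro j
    rw [iSup_inf_eq]
  have hex : ∀ j, ∃ t : Γ(X, iSup W ⊓ c.U j), ∀ x,
      rO (inf_le_inf_right _ (le_iSup W x)) t = (sf x : c.twSec n (W x)).1 j := fun j =>
    glue_rO (fun x => W x ⊓ c.U j) (fun x => inf_le_inf_right _ (le_iSup W x)) (hcov j)
      (fun x => (sf x : c.twSec n (W x)).1 j) (fun x y => key x y j _ _ _)
  choose t ht using hex
  have hmem : ∀ {j : ι} {T : X.Opens} (h : T ≤ iSup W ⊓ c.U j), ∀ y ∈ T, ∃ x, y ∈ T ⊓ W x := by
    intro j T h y hy
    obtain ⟨x, hx⟩ := Opens.mem_iSup.1 ((h.trans inf_le_left) hy)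
    exact ⟨x, hy, hx⟩
  refine ⟨(⟨t, ?_⟩ : c.twSec n (iSup W)), ?_, ?_⟩
  · intro j k T hj hk
    refine eq_of_rO_cover (fun y hy => ?_)
    obtain ⟨x, hx⟩ := hmem hj y hy
    refine ⟨T ⊓ W x, inf_le_left, hx, ?_⟩
    have h1 := (sf x : c.twSec n (W x)).2 j k (T ⊓ W x)
      (le_inf inf_le_right (inf_le_left.trans (hj.trans inf_le_right)))
      (le_inf inf_le_right (inf_le_left.trans (hk.trans inf_le_right)))
    rw [← ht, ← ht, rO_rO, rO_rO] at h1
    rw [map_mul, map_pow, rO_rO, rO_rO, rO_rO]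
    exact h1
  · intro x
    apply Subtype.ext
    ext1 j
    exact ht j x
  · intro s hs
    apply Subtype.ext
    ext1 j
    refine eq_of_rO_cover (fun y hy => ?_)
    obtain ⟨x, hx⟩ := hmem le_rfl y hy
    refine ⟨W x ⊓ c.U j, inf_le_inf_right _ (le_iSup W x), ⟨hx.2, hy.2⟩, ?_⟩
    have h1 := congrFun (congrArg Subtype.val (hs x)) j
    exact h1.trans (ht j x).symm

/-- The twisting sheaf. -/
noncomputable def CrdData.tw (n : ℕ) : X.Modules where
  val :=
    let _ : ∀ V : (Opens X)ᵒᵖ, Module (X.ringCatSheaf.obj.obj V) ((c.twPre n).obj V) :=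
      fun V => inferInstanceAs (Module Γ(X, V.unop) (c.twSec n V.unop))
    PresheafOfModules.ofPresheaf (c.twPre n) (by
      intro V W f r a
      apply Subtype.ext
      ext1 j
      change rO (inf_le_inf_right _ f.unop.le) (rO inf_le_left r * a.1 j) =
        rO inf_le_left (rO f.unop.le r) * rO (inf_le_inf_right _ f.unop.le) (a.1 j)
      rw [map_mul, rO_rO, rO_rO])
  isSheaf := c.twPre_isSheaf n

end Pool.Agent.H92
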