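import Mathlib
import Pool.Agent.H92.Tw

open CategoryTheory Limits AlgebraicGeometry TopologicalSpace Opposite

universe w w' u

namespace Pool.Agent.H92

variable {X : Scheme.{u}} {ι : Type} [Fintype ι] (c : CrdData X ι)

/-- sections of the twisting sheaf, as families -/
def CrdData.mkTw {n : ℕ} {V : X.Opens} (a : c.twSec n V) : Γ(c.tw n, V) := a

/-- sections of the twisting sheaf, as families -/
def CrdData.unTw {n : ℕ} {V : X.Opens} (a : Γ(c.tw n, V)) : c.twSec n V := a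

lemma CrdData.unTw_add {n : ℕ} {V : X.Opens} (a b : Γ(c.tw n, V)) :
    c.unTw (a + b) = c.unTw a + c.unTw b := rfl

lemma CrdData.unTw_smul {n : ℕ} {V : X.Opens} (r : Γ(X, V)) (a : Γ(c.tw n, V)) :
    c.unTw (r • a) = r • c.unTw a := rfl

lemma CrdData.unTw_rs {n : ℕ} {V W : X.Opens} (h : W ≤ V) (a : Γ(c.tw n, V)) :
    c.unTw (rs h a) = c.twRes n h (c.unTw a) := rfl

lemma CrdData.unTw_mkTw {n : ℕ} {V : X.Opens} (a : c.twSec n V) : c.unTw (c.mkTw a) = a := rfl

lemma CrdData.unTw_injective {n : ℕ} {V : X.Opens} :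
    Function.Injective (c.unTw : Γ(c.tw n, V) → _) := fun _ _ h => h

/-- The local generator. -/
noncomputable def CrdData.e (n : ℕ) (j : ι) : Γ(c.tw n, c.U j) :=
  c.mkTw ⟨fun k => rO inf_le_left (c.g j k) ^ n, by
    intro k l W hk hl
    rw [map_pow, map_pow, rO_rO, rO_rO, ← mul_pow,
      c.g_mul' (hl.trans inf_le_left) (hl.trans inf_le_right)]⟩

lemma CrdData.e_coe (n : ℕ) (j k : ι) :
    (c.unTw (c.e n j)).1 k = rO inf_le_left (c.g j k) ^ n := rfl

lemma CrdData.isBasisOn_tw (n : ℕ) (j : ι) :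
    IsBasisOn (c.tw n) (c.U j) (fun _ : Fin 1 => c.e n j) := by
  intro V hV
  change Function.Bijective (comb (fun _ : Fin 1 => c.e n j) hV)
  have hcomb : ∀ (a : Fin 1 → Γ(X, V)) (k : ι),
      (c.unTw (comb (fun _ : Fin 1 => c.e n j) hV a)).1 k = rO inf_le_left (a 0) *
        rO (inf_le_left.trans hV) (c.g j k) ^ n := by
    intro a k
    rw [comb, Fin.sum_univ_one, c.unTw_smul, c.smul_coe, c.unTw_rs, c.twRes_coe, c.e_coe, map_pow,
      rO_rO]
  constructor
  · intro a b hab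
    have h1 := congrFun (congrArg Subtype.val (congrArg c.unTw hab)) j
    rw [hcomb, hcomb, c.g_self, map_one, one_pow, mul_one, mul_one] at h1
    have h2 := congrArg (rO (le_inf le_rfl hV : V ≤ V ⊓ c.U j)) h1
    rw [rO_rO, rO_rO, rO_self, rO_self] at h2
    ext1 i
    rw [Subsingleton.elim i 0]
    exact h2
  · intro t
    refine ⟨fun _ => rO (le_inf le_rfl hV : V ≤ V ⊓ c.U j) ((c.unTw t).1 j), ?_⟩
    apply c.unTw_injective
    apply Subtype.ext
    ext1 k
    rw [hcomb]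
    have h1 := (c.unTw t).2 k j (V ⊓ c.U k) le_rfl (le_inf inf_le_left (inf_le_left.trans hV))
    rw [rO_self] at h1
    rw [h1, rO_rO]

section hom

variable {F : X.Modules}

/-- compatible families of sections -/
structure CrdData.Fam (c : CrdData X ι) (F : X.Modules) (n : ℕ) where
  s : ∀ j, Γ(F, c.U j)
  comp : ∀ (j k : ι) (W : X.Opens) (hj : W ≤ c.U j) (hk : W ≤ c.U k),
    rs hk (s k) = rO hk (c.g k j) ^ n • rs hj (s j)

variable {n : ℕ} (f : c.Fam F n)

lemma CrdData.glue_exists {V : X.Opens} (a : c.twSec n V) :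
    ∃ t : Γ(F, V), ∀ j, rs (inf_le_left : V ⊓ c.U j ≤ V) t =
      a.1 j • rs (inf_le_right : V ⊓ c.U j ≤ c.U j) (f.s j) := by
  obtain ⟨t, ht, -⟩ := TopCat.Sheaf.existsUnique_gluing' ⟨_, F.isSheaf⟩
    (fun j => V ⊓ c.U j) V (fun j => homOfLE inf_le_left) (by
      rw [← inf_iSup_eq, c.iSup_U, inf_top_eq]) (fun j => a.1 j • rs (inf_le_right) (f.s j)) (by
      intro j k
      change rs (inf_le_left : (V ⊓ c.U j) ⊓ (V ⊓ c.U k) ≤ V ⊓ c.U j)
        (a.1 j • rs inf_le_right (f.s j)) =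
        rs (inf_le_right : (V ⊓ c.U j) ⊓ (V ⊓ c.U k) ≤ V ⊓ c.U k)
          (a.1 k • rs inf_le_right (f.s k))
      rw [rs_smul', rs_smul', rs_rs, rs_rs, a.2 j k _ inf_le_left inf_le_right,
        f.comp j k ((V ⊓ c.U j) ⊓ (V ⊓ c.U k)) (inf_le_left.trans inf_le_right)
          (inf_le_right.trans inf_le_right), smul_smul])
  exact ⟨t, ht⟩

lemma CrdData.eq_of_rs {V : X.Opens} {s t : Γ(F, V)}
    (h : ∀ j, rs (inf_le_left : V ⊓ c.U j ≤ V) s = rs inf_le_left t) : s = t := by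
  refine eq_of_rs_cover (fun x hx => ?_)
  have hx' : x ∈ ⨆ i, c.U i := by rw [c.iSup_U]; trivial
  obtain ⟨j, hj⟩ := Opens.mem_iSup.1 hx'
  exact ⟨V ⊓ c.U j, inf_le_left, ⟨hx, hj⟩, h j⟩

/-- The glued section. -/
noncomputable def CrdData.gl {V : X.Opens} (a : c.twSec n V) : Γ(F, V) :=
  (c.glue_exists f a).choose

lemma CrdData.rs_gl {V : X.Opens} (a : c.twSec n V) (j : ι) :
    rs (inf_le_left : V ⊓ c.U j ≤ V) (c.gl f a) =
      a.1 j • rs (inf_le_right : V ⊓ c.U j ≤ c.U j) (f.s j) :=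
  (c.glue_exists f a).choose_spec j

/-- The morphism from the twisting sheaf determined by a compatible family. -/
noncomputable def CrdData.twHom : c.tw n ⟶ F :=
  mkHom (fun V =>
    { toFun := fun a => c.gl f (c.unTw a)
      map_zero' := by
        refine c.eq_of_rs (fun j => ?_)
        rw [c.rs_gl, rs_zero]
        exact zero_smul _ _
      map_add' := by
        intro a b
        refine c.eq_of_rs (fun j => ?_)
        rw [rs_add, c.rs_gl, c.rs_gl, c.rs_gl, c.unTw_add]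
        exact add_smul _ _ _ })
    (by
      intro U V h a
      refine c.eq_of_rs (fun j => ?_)
      change rs _ (c.gl f (c.unTw (rs h a))) = rs _ (rs h (c.gl f (c.unTw a)))
      rw [c.rs_gl, c.unTw_rs, c.twRes_coe, rs_rs]
      have h1 := congrArg (rs (inf_le_inf_right (c.U j) h)) (c.rs_gl f (c.unTw a) j)
      rw [rs_rs, rs_smul', rs_rs] at h1
      exact h1.symm)
    (by
      intro V r a
      refine c.eq_of_rs (fun j => ?_)
      change rs _ (c.gl f (c.unTw (r • a))) = rs _ (r • c.gl f (c.unTw a))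
      rw [c.rs_gl, rs_smul', c.rs_gl, c.unTw_smul, c.smul_coe, mul_smul])

lemma CrdData.twHom_e (j : ι) : (c.twHom f).app (c.U j) (c.e n j) = f.s j := by
  refine c.eq_of_rs (fun k => ?_)
  change rs _ (c.gl f (c.unTw (c.e n j))) = _
  rw [c.rs_gl, c.e_coe, f.comp k j (c.U j ⊓ c.U k) inf_le_right inf_le_left]

end hom

end Pool.Agent.H92
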