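import Mathlib
import Pool.Agent.H92.Tw2

open CategoryTheory Limits AlgebraicGeometry TopologicalSpace Opposite

universe w w' u

namespace Pool.Agent.H92

variable {X : Scheme.{u}} {ι : Type} [Fintype ι] (c : CrdData X ι)

lemma CrdData.aff_inf (i j : ι) : IsAffineOpen (c.U i ⊓ c.U j) := by
  rw [← c.basicOpen_g i j]
  exact (c.aff i).basicOpen _

/-- Serre's extension lemma. -/
theorem CrdData.exists_fam {F : X.Modules} (hF : QC F) (i : ι) (s : Γ(F, c.U i)) :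
    ∃ (n : ℕ) (f : c.Fam F n), f.s i = s := by
  classical
  -- extension of the section to the other charts
  have h1 : ∀ j, ∃ (n : ℕ) (t : Γ(F, c.U j)), ∀ (W : X.Opens) (hj : W ≤ c.U j) (hi : W ≤ c.U i),
      rs hj t = rO hj (c.g j i) ^ n • rs hi s := by
    intro j
    have hb := c.basicOpen_g j i
    obtain ⟨n, t, ht⟩ := (hF (c.U j) (c.aff j) (c.g j i)).1 (rs (hb.le.trans inf_le_right) s)
    refine ⟨n, t, fun W hj hi => ?_⟩
    have h2 := congrArg (rs ((le_inf hj hi).trans hb.ge)) ht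
    rw [rs_rs, rs_smul', rs_rs, map_pow, rO_rO] at h2
    exact h2
  choose n₁ t₁ ht₁ using h1
  obtain ⟨n₀, hn₀⟩ : ∃ n₀, ∀ j, n₁ j ≤ n₀ := ⟨∑ j, n₁ j, fun j =>
    Finset.single_le_sum (f := n₁) (fun _ _ => Nat.zero_le _) (Finset.mem_univ j)⟩
  obtain ⟨t, ht, hti⟩ : ∃ t : ∀ j, Γ(F, c.U j), (∀ j (W : X.Opens) (hj : W ≤ c.U j)
      (hi : W ≤ c.U i), rs hj (t j) = rO hj (c.g j i) ^ n₀ • rs hi s) ∧ t i = s := by
    refine ⟨fun j => c.g j i ^ (n₀ - n₁ j) • t₁ j, ?_, ?_⟩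
    · intro j W hj hi
      rw [rs_smul', ht₁ j W hj hi, smul_smul, map_pow, ← pow_add, Nat.sub_add_cancel (hn₀ j)]
    · dsimp only
      have h3 := ht₁ i (c.U i) le_rfl le_rfl
      rw [c.g_self, map_one, one_pow, one_smul, rs_self, rs_self] at h3
      rw [c.g_self, one_pow, one_smul, h3]
  -- comparison of the extensions
  have h2 : ∀ p : ι × ι, ∃ l : ℕ,
      (rO (inf_le_right : c.U p.1 ⊓ c.U p.2 ≤ _) (c.g p.2 i)) ^ l •
        (rs (inf_le_right : c.U p.1 ⊓ c.U p.2 ≤ _) (t p.2) -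
        rO (inf_le_right : c.U p.1 ⊓ c.U p.2 ≤ _) (c.g p.2 p.1) ^ n₀ •
          rs (inf_le_left : c.U p.1 ⊓ c.U p.2 ≤ _) (t p.1)) = 0 := by
    rintro ⟨j, k⟩
    dsimp only
    let W := c.U j ⊓ c.U k
    let r : Γ(X, W) := rO inf_le_right (c.g k i)
    refine (hF W (c.aff_inf j k) r).2 _ ?_
    have hb : X.basicOpen r = W ⊓ (c.U k ⊓ c.U i) := by
      rw [← c.basicOpen_g]
      exact basicOpen_rO _ _
    have hi : X.basicOpen r ≤ c.U i := hb.le.trans (inf_le_right.trans inf_le_right)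
    have hW := X.basicOpen_le r
    rw [rs_sub, rs_smul', rs_rs, rs_rs, ht k _ _ hi, ht j _ _ hi, smul_smul, map_pow, rO_rO,
      ← mul_pow, c.g_mul', sub_self]
  choose l₁ hl₁ using h2
  obtain ⟨l, hl⟩ : ∃ l, ∀ p, l₁ p ≤ l := ⟨∑ p, l₁ p, fun p =>
    Finset.single_le_sum (f := l₁) (fun _ _ => Nat.zero_le _) (Finset.mem_univ p)⟩
  have hl₂ : ∀ j k, rO (inf_le_right : c.U j ⊓ c.U k ≤ _) (c.g k i) ^ l •
      (rs (inf_le_right : c.U j ⊓ c.U k ≤ _) (t k) -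
        rO (inf_le_right : c.U j ⊓ c.U k ≤ _) (c.g k j) ^ n₀ •
          rs (inf_le_left : c.U j ⊓ c.U k ≤ _) (t j)) = 0 :=
    fun j k => pow_smul_le (hl₁ (j, k)) (hl (j, k))
  refine ⟨n₀ + l, ⟨fun j => c.g j i ^ l • t j, ?_⟩, ?_⟩
  · intro j k W hj hk
    have h3 := congrArg (rs (le_inf hj hk)) (hl₂ j k)
    rw [rs_smul', rs_sub, rs_smul', rs_rs, rs_rs, rs_zero, smul_sub, sub_eq_zero, map_pow, map_pow,
      rO_rO, rO_rO] at h3
    rw [rs_smul', rs_smul', map_pow, map_pow, h3, smul_smul, smul_smul, ← c.g_mul' hk hj,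
      mul_pow, pow_add]
    congr 1
    ring
  · change c.g i i ^ l • t i = s
    rw [c.g_self, one_pow, one_smul, hti]

end Pool.Agent.H92
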