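import Mathlib
import Pool.Agent.H92.Tw3

open CategoryTheory Limits AlgebraicGeometry TopologicalSpace Opposite ZeroObject

universe w w' u

namespace Pool.Agent.H92

variable {X : Scheme.{u}} {ι : Type} [Fintype ι] (c : CrdData X ι)

/-- Coherence with respect to the covering. -/
structure CrdData.Coh (F : X.Modules) : Prop where
  qc : QC F
  fin : ∀ i, Module.Finite Γ(X, c.U i) Γ(F, c.U i)

/-- Coherent and projective on the covering. -/
structure CrdData.Bun (F : X.Modules) : Prop extends c.Coh F where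
  proj : ∀ i, Module.Projective Γ(X, c.U i) Γ(F, c.U i)

variable {c}

lemma CrdData.Bun.isVB {F : X.Modules} (h : c.Bun F) : IsVB F := by
  refine IsVB.of_qc h.qc (fun x => ?_)
  have hx' : x ∈ ⨆ i, c.U i := by rw [c.iSup_U]; trivial
  obtain ⟨j, hj⟩ := Opens.mem_iSup.1 hx'
  exact ⟨c.U j, hj, c.aff j, h.fin j, h.proj j⟩

lemma CrdData.Coh.biprod {F G : X.Modules} (hF : c.Coh F) (hG : c.Coh G) : c.Coh (F ⊞ G) := by
  refine ⟨hF.qc.biprod hG.qc, fun i => ?_⟩
  have := hF.fin i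
  have := hG.fin i
  exact Module.Finite.equiv (biprodSec F G (c.U i)).symm

lemma CrdData.Bun.biprod {F G : X.Modules} (hF : c.Bun F) (hG : c.Bun G) : c.Bun (F ⊞ G) := by
  refine ⟨hF.toCoh.biprod hG.toCoh, fun i => ?_⟩
  have := hF.proj i
  have := hG.proj i
  exact Module.Projective.of_equiv (biprodSec F G (c.U i)).symm

variable (c)

lemma CrdData.bun_tw (n : ℕ) : c.Bun (c.tw n) := by
  have hvb : IsVB (c.tw n) := by
    intro x
    have hx' : x ∈ ⨆ i, c.U i := by rw [c.iSup_U]; trivial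
    obtain ⟨j, hj⟩ := Opens.mem_iSup.1 hx'
    exact ⟨c.U j, hj, 1, _, c.isBasisOn_tw n j⟩
  refine ⟨⟨hvb.qc, fun i => ((c.isBasisOn_tw n i).free le_rfl).2⟩, fun i => ?_⟩
  have := ((c.isBasisOn_tw n i).free le_rfl).1
  exact Module.Projective.of_free

lemma CrdData.bun_of_isZero {F : X.Modules} (h : IsZero F) : c.Bun F := by
  have hs : ∀ V, Subsingleton Γ(F, V) := by
    intro V
    constructor
    intro s t
    have : (𝟙 F : F ⟶ F) = 0 := h.eq_of_src _ _
    have h1 : ∀ s : Γ(F, V), s = 0 := fun s => by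
      rw [← id_app_apply V s, this, zero_app_apply]
    rw [h1 s, h1 t]
  refine ⟨⟨(IsVB.of_isZero h).qc, fun i => ?_⟩, fun i => ?_⟩
  · have := hs (c.U i)
    infer_instance
  · have := hs (c.U i)
    have : Module.Free Γ(X, c.U i) Γ(F, c.U i) := Module.Free.of_subsingleton _ _
    exact Module.Projective.of_free

theorem CrdData.exists_bun_hom {F : X.Modules} (hF : QC F)
    (T : Finset (Σ i, Γ(F, c.U i))) :
    ∃ (V : X.Modules) (φ : V ⟶ F), c.Bun V ∧ ∀ p ∈ T, ∃ v, φ.app (c.U p.1) v = p.2 := by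
  classical
  induction T using Finset.induction_on with
  | empty =>
    exact ⟨(0 : X.Modules), 0, c.bun_of_isZero (isZero_zero _), by simp⟩
  | insert p T hp ih =>
    obtain ⟨V, φ, hV, hφ⟩ := ih
    obtain ⟨n, f, hf⟩ := c.exists_fam hF p.1 p.2
    refine ⟨V ⊞ c.tw n, biprod.desc φ (c.twHom f), hV.biprod (c.bun_tw n), ?_⟩
    intro q hq
    rw [Finset.mem_insert] at hq
    rcases hq with rfl | hq
    · refine ⟨(biprod.inr : _ ⟶ V ⊞ c.tw n).app _ (c.e n q.1), ?_⟩
      rw [← comp_app_apply, biprod.inr_desc, c.twHom_e, hf]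
    · obtain ⟨v, hv⟩ := hφ q hq
      refine ⟨(biprod.inl : _ ⟶ V ⊞ c.tw n).app _ v, ?_⟩
      rw [← comp_app_apply, biprod.inl_desc, hv]

/-- Serre's theorem: coherent sheaves are quotients of bundles. -/
theorem CrdData.exists_epi {F : X.Modules} (hF : c.Coh F) :
    ∃ (V : X.Modules) (φ : V ⟶ F), c.Bun V ∧ Epi φ := by
  classical
  choose T hT using fun i => (hF.fin i).fg_top
  obtain ⟨V, φ, hV, hφ⟩ := c.exists_bun_hom hF.qc
    (Finset.univ.biUnion (fun i => (T i).map ⟨Sigma.mk i, sigma_mk_injective⟩))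
  have hsurj : ∀ i, Function.Surjective (appL φ (c.U i)) := by
    intro i
    rw [← LinearMap.range_eq_top, eq_top_iff, ← hT i, Submodule.span_le]
    intro s hs
    obtain ⟨v, hv⟩ := hφ ⟨i, s⟩ (by
      rw [Finset.mem_biUnion]
      exact ⟨i, Finset.mem_univ i, Finset.mem_map_of_mem _ hs⟩)
    exact ⟨v, hv⟩
  refine ⟨V, φ, hV, ?_⟩
  rw [epi_iff_locallySurjective]
  intro W s x hx
  have hx' : x ∈ ⨆ i, c.U i := by rw [c.iSup_U]; trivial
  obtain ⟨i, hi⟩ := Opens.mem_iSup.1 hx'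
  obtain ⟨f, hfW, hxf⟩ := (c.aff i).exists_basicOpen_le ⟨x, hx⟩ hi
  obtain ⟨n, t, ht⟩ := (hF.qc (c.U i) (c.aff i) f).1 (rs hfW s)
  obtain ⟨v, hv⟩ := hsurj i t
  have hu : IsUnit (rO (X.basicOpen_le f) f) := rO_isUnit f
  obtain ⟨w, hw⟩ := (hu.pow n).exists_left_inv
  refine ⟨X.basicOpen f, hfW, w • rs (X.basicOpen_le f) v, ?_, hxf⟩
  rw [Scheme.Modules.Hom.app_smul, app_rs]
  change w • rs _ (appL φ (c.U i) v) = rs hfW s
  rw [hv, ht, smul_smul, hw, one_smul]

end Pool.Agent.H92
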