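import Mathlib

open CategoryTheory Limits Polynomial

universe w w' u

namespace Pool.Agent.H92

section elem

variable {R M N : Type*} [CommRing R] [AddCommGroup M] [Module R M] [AddCommGroup N] [Module R N]
  [Module R[X] N] [IsScalarTower R R[X] N]

/-- Extension of an `R`-linear map to the polynomial module. -/
noncomputable def pmLift (h : M →ₗ[R] N) : PolynomialModule R M →ₗ[R[X]] N where
  toFun x := x.coeff.sum (fun i m => (X : R[X]) ^ i • h m)
  map_add' x y := by
    rw [PolynomialModule.coeff_add]
    exact Finsupp.sum_add_index' (by simp) (by simp)
  map_smul' p x := by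
    have hadd : ∀ x y : PolynomialModule R M, (x + y).coeff.sum
        (fun i m => (X : R[X]) ^ i • h m) = x.coeff.sum (fun i m => (X : R[X]) ^ i • h m) +
          y.coeff.sum (fun i m => (X : R[X]) ^ i • h m) := by
      intro x y
      rw [PolynomialModule.coeff_add]
      exact Finsupp.sum_add_index' (by simp) (by simp)
    rw [RingHom.id_apply]
    induction x using PolynomialModule.induction_linear with
    | zero => simp
    | add x y hx hy => rw [smul_add, hadd, hadd, smul_add, hx, hy]
    | single i m =>
      induction p using Polynomial.induction_on' with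
      | add p q hp hq => rw [add_smul, hadd, add_smul, hp, hq]
      | monomial j r =>
        rw [PolynomialModule.monomial_smul_single, PolynomialModule.coeff_single,
          PolynomialModule.coeff_single, Finsupp.sum_single_index (by simp),
          Finsupp.sum_single_index (by simp), map_smul, ← C_mul_X_pow_eq_monomial, mul_smul,
          smul_smul (X ^ j : R[X]), ← pow_add]
        have : ∀ n : N, (C r : R[X]) • n = r • n := by
          intro n
          rw [← algebraMap_smul R[X] r n]
          rfl
        rw [this, smul_comm]

lemma pmLift_single (h : M →ₗ[R] N) (i : ℕ) (m : M) :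
    pmLift h (PolynomialModule.single R i m) = (X : R[X]) ^ i • h m := by
  have : pmLift h (PolynomialModule.single R i m) =
    (PolynomialModule.single R i m).coeff.sum (fun i m => (X : R[X]) ^ i • h m) := rfl
  rw [this, PolynomialModule.coeff_single, Finsupp.sum_single_index (by simp)]

lemma single_eq (i : ℕ) (m : M) : PolynomialModule.single R i m =
    (X : R[X]) ^ i • PolynomialModule.single R 0 m := by
  rw [X_pow_eq_monomial, PolynomialModule.monomial_smul_single, add_zero, one_smul]

omit [Module R N] [IsScalarTower R R[X] N] in
lemma pm_hom_ext (f g : PolynomialModule R M →ₗ[R[X]] N)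
    (h : ∀ m, f (PolynomialModule.single R 0 m) = g (PolynomialModule.single R 0 m)) : f = g := by
  ext x
  induction x using PolynomialModule.induction_linear with
  | zero => simp
  | add x y hx hy => rw [map_add, map_add, hx, hy]
  | single i m => rw [single_eq, map_smul, map_smul, h]

example : IsScalarTower R R[X] (PolynomialModule R M) := inferInstance

/-- The functoriality of the polynomial module. -/
noncomputable def pmMap {M' : Type*} [AddCommGroup M'] [Module R M'] (f : M →ₗ[R] M') :
    PolynomialModule R M →ₗ[R[X]] PolynomialModule R M' where
  toFun := PolynomialModule.map R f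
  map_add' := map_add _
  map_smul' p x := by
    rw [PolynomialModule.map_smul, RingHom.id_apply]
    have : algebraMap R R = RingHom.id R := rfl
    rw [this, Polynomial.map_id]

lemma pmMap_coeff {M' : Type*} [AddCommGroup M'] [Module R M'] (f : M →ₗ[R] M')
    (x : PolynomialModule R M) (n : ℕ) : (pmMap f x).coeff n = f (x.coeff n) := rfl

lemma pmMap_injective {M' : Type*} [AddCommGroup M'] [Module R M'] (f : M →ₗ[R] M')
    (hf : Function.Injective f) : Function.Injective (pmMap f) := by
  intro x y h
  ext n
  apply hf
  rw [← pmMap_coeff, h, pmMap_coeff]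

lemma pmMap_surjective {M' : Type*} [AddCommGroup M'] [Module R M'] (f : M →ₗ[R] M')
    (hf : Function.Surjective f) : Function.Surjective (pmMap f) := by
  intro x
  induction x using PolynomialModule.induction_linear with
  | zero => exact ⟨0, map_zero _⟩
  | add x y hx hy =>
    obtain ⟨a, rfl⟩ := hx
    obtain ⟨b, rfl⟩ := hy
    exact ⟨a + b, map_add _ _ _⟩
  | single i m =>
    obtain ⟨m', rfl⟩ := hf m
    exact ⟨PolynomialModule.single R i m', PolynomialModule.map_single R f i m'⟩

lemma pmMap_exact {M' M'' : Type*} [AddCommGroup M'] [Module R M'] [AddCommGroup M'']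
    [Module R M''] (f : M →ₗ[R] M') (g : M' →ₗ[R] M'') (h : Function.Exact f g) :
    Function.Exact (pmMap f) (pmMap g) := by
  classical
  intro y
  constructor
  · intro hy
    have h1 : ∀ n, ∃ m, f m = y.coeff n := by
      intro n
      apply (h _).1
      rw [← pmMap_coeff, hy]
      rfl
    choose c hc using h1
    refine ⟨PolynomialModule.ofCoeff R (Finsupp.onFinset y.coeff.support
      (fun n => if y.coeff n = 0 then 0 else c n) ?_), ?_⟩
    · intro n hn
      rw [Finsupp.mem_support_iff]
      intro h0
      exact hn (if_pos h0)
    · ext n
      rw [pmMap_coeff]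
      change f (if y.coeff n = 0 then 0 else c n) = y.coeff n
      split_ifs with h0
      · rw [h0, map_zero]
      · exact hc n
  · rintro ⟨x, rfl⟩
    ext n
    rw [pmMap_coeff, pmMap_coeff]
    exact (h _).2 ⟨_, rfl⟩

end elem

end Pool.Agent.H92
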