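import Mathlib
import Pool.Agent.H92.Syz

open CategoryTheory Limits Polynomial

universe w w' u

namespace Pool.Agent.H92

section

variable {R M : Type*} [CommRing R] [AddCommGroup M] [Module R M]
  [Module R[X] M] [IsScalarTower R R[X] M]

/-- The action map. -/
noncomputable def pmEv : PolynomialModule R M →ₗ[R[X]] M := pmLift (LinearMap.id : M →ₗ[R] M)

lemma pmEv_single (i : ℕ) (m : M) :
    pmEv (PolynomialModule.single R i m) = (X : R[X]) ^ i • m := by
  rw [pmEv, pmLift_single, LinearMap.id_apply]

/-- multiplication by the variable -/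
noncomputable def mulX : M →ₗ[R] M where
  toFun m := (X : R[X]) • m
  map_add' := smul_add _
  map_smul' _ _ := smul_comm _ _ _

noncomputable def pmδ₀ : M →ₗ[R] PolynomialModule R M :=
  PolynomialModule.lsingle R 1 - (PolynomialModule.lsingle R 0).comp (mulX (R := R) (M := M))

lemma pmδ₀_apply (m : M) : pmδ₀ m = PolynomialModule.single R 1 m -
    PolynomialModule.single R 0 ((X : R[X]) • m) := rfl

/-- The characteristic map. -/
noncomputable def pmδ : PolynomialModule R M →ₗ[R[X]] PolynomialModule R M :=
  pmLift (pmδ₀ (R := R) (M := M))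

lemma pmδ_single (i : ℕ) (m : M) : pmδ (PolynomialModule.single R i m) =
    PolynomialModule.single R (i + 1) m - PolynomialModule.single R i ((X : R[X]) • m) := by
  rw [pmδ, pmLift_single, pmδ₀_apply, smul_sub, X_pow_eq_monomial,
    PolynomialModule.monomial_smul_single, PolynomialModule.monomial_smul_single, one_smul,
    one_smul, add_zero]

lemma pmEv_δ (x : PolynomialModule R M) : pmEv (pmδ x) = 0 := by
  induction x using PolynomialModule.induction_linear with
  | zero => simp
  | add x y hx hy => rw [map_add, map_add, hx, hy, add_zero]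
  | single i m =>
    rw [pmδ_single, map_sub, pmEv_single, pmEv_single, smul_smul, ← pow_succ, sub_self]

lemma pmEv_surjective : Function.Surjective (pmEv (R := R) (M := M)) := by
  intro m
  exact ⟨PolynomialModule.single R 0 m, by rw [pmEv_single, pow_zero, one_smul]⟩

lemma pmδ_mod (x : PolynomialModule R M) :
    ∃ y, x = pmδ y + PolynomialModule.single R 0 (pmEv x) := by
  induction x using PolynomialModule.induction_linear with
  | zero => exact ⟨0, by simp⟩
  | add x y hx hy =>
    obtain ⟨a, ha⟩ := hx
    obtain ⟨b, hb⟩ := hy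
    refine ⟨a + b, ?_⟩
    rw [map_add, map_add, PolynomialModule.single_add]
    nth_rewrite 1 [ha, hb]
    abel
  | single i m =>
    induction i generalizing m with
    | zero => exact ⟨0, by simp [pmEv_single]⟩
    | succ i ih =>
      obtain ⟨y, hy⟩ := ih ((X : R[X]) • m)
      refine ⟨PolynomialModule.single R i m + y, ?_⟩
      rw [pmEv_single, smul_smul, ← pow_succ] at hy
      rw [map_add, pmδ_single, pmEv_single, add_assoc, ← hy, sub_add_cancel]

lemma pm_exact : Function.Exact (pmδ (R := R) (M := M)) pmEv := by
  intro x
  constructor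
  · intro hx
    obtain ⟨y, hy⟩ := pmδ_mod x
    rw [hx, PolynomialModule.single_zero, add_zero] at hy
    exact ⟨y, hy.symm⟩
  · rintro ⟨y, rfl⟩
    exact pmEv_δ y

lemma pmδ_coeff (x : PolynomialModule R M) (n : ℕ) :
    (pmδ x).coeff (n + 1) = x.coeff n - (X : R[X]) • x.coeff (n + 1) := by
  induction x using PolynomialModule.induction_linear with
  | zero => simp
  | add x y hx hy =>
    rw [show pmδ (x + y) = pmδ x + pmδ y from map_add _ _ _, PolynomialModule.coeff_add,
      PolynomialModule.coeff_add, Finsupp.add_apply,
      Finsupp.add_apply, Finsupp.add_apply, hx, hy, smul_add]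
    abel
  | single i m =>
    rw [pmδ_single]
    change (PolynomialModule.single R (i + 1) m).coeff (n + 1) -
      (PolynomialModule.single R i ((X : R[X]) • m)).coeff (n + 1) = _
    simp only [PolynomialModule.coeff_single, Finsupp.single_apply]
    congr 1
    · simp
    · split_ifs <;> simp

lemma pmδ_injective : Function.Injective (pmδ (R := R) (M := M)) := by
  rw [injective_iff_map_eq_zero]
  intro x hx
  have h1 : ∀ n, x.coeff n = (X : R[X]) • x.coeff (n + 1) := by
    intro n
    have := pmδ_coeff x n
    rw [hx] at this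
    exact (sub_eq_zero.1 this.symm)
  have h2 : ∀ k n, x.coeff n = (X : R[X]) ^ k • x.coeff (n + k) := by
    intro k
    induction k with
    | zero => intro n; simp
    | succ k ih =>
      intro n
      rw [ih n, h1 (n + k), smul_smul, ← pow_succ, add_assoc]
  ext n
  obtain ⟨N, hN⟩ : ∃ N, ∀ k ≥ N, x.coeff k = 0 := by
    refine ⟨x.coeff.support.sup id + 1, fun k hk => ?_⟩
    by_contra h
    have := Finset.le_sup (f := id) (Finsupp.mem_support_iff.2 h)
    simp only [id] at this
    lia
  rw [h2 N n, hN (n + N) (by lia), smul_zero]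
  rfl

end

/-- Global dimension at most `n`. -/
def GD (R : Type u) [CommRing R] (n : ℕ) : Prop :=
  ∀ M : ModuleCat.{u} R, HasProjectiveDimensionLE M n

lemma pm_projective {R P : Type u} [CommRing R] [AddCommGroup P] [Module R P]
    [Module.Projective R P] : Module.Projective R[X] (PolynomialModule R P) := by
  refine Module.Projective.of_lifting_property ?_
  intro M N _ _ _ _ f g hf
  let _ : Module R M := Module.compHom M (C : R →+* R[X])
  let _ : Module R N := Module.compHom N (C : R →+* R[X])
  have : IsScalarTower R R[X] M := ⟨fun r p m => by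
    rw [Polynomial.smul_eq_C_mul, mul_smul]; rfl⟩
  have : IsScalarTower R R[X] N := ⟨fun r p m => by
    rw [Polynomial.smul_eq_C_mul, mul_smul]; rfl⟩
  let g₀ : P →ₗ[R] N := (g.restrictScalars R).comp (PolynomialModule.lsingle R 0)
  obtain ⟨h₀, hh₀⟩ := Module.projective_lifting_property (f.restrictScalars R) g₀ hf
  refine ⟨pmLift h₀, pm_hom_ext _ _ (fun m => ?_)⟩
  rw [LinearMap.comp_apply, pmLift_single, pow_zero, one_smul]
  exact LinearMap.congr_fun hh₀ m

end Pool.Agent.H92
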