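import Mathlib
import Pool.Agent.H92.Syz2

open CategoryTheory Limits Polynomial

universe w w' u

namespace Pool.Agent.H92

lemma shortExact_of_maps {R : Type u} [Ring R] {A B C : Type u} [AddCommGroup A] [Module R A]
    [AddCommGroup B] [Module R B] [AddCommGroup C] [Module R C] (f : A →ₗ[R] B) (g : B →ₗ[R] C)
    (hf : Function.Injective f) (hg : Function.Surjective g) (h : Function.Exact f g) :
    (ModuleCat.shortComplexOfCompEqZero f g h.linearMap_comp_eq_zero).ShortExact :=
  ModuleCat.shortComplex_shortExact _ h hf hg

lemma pm_pd {R : Type u} [CommRing R] (n : ℕ) (M : ModuleCat.{u} R)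
    (h : HasProjectiveDimensionLE M n) :
    HasProjectiveDimensionLE (ModuleCat.of R[X] (PolynomialModule R M)) n := by
  induction n generalizing M with
  | zero =>
    rw [← projective_iff_hasProjectiveDimensionLE_zero, ← IsProjective.iff_projective] at h ⊢
    exact pm_projective
  | succ n ih =>
    have S_exact := M.shortExact_projectiveShortComplex
    have h1 := (S_exact.hasProjectiveDimensionLT_X₃_iff n inferInstance).mp h
    have h2 := ih _ h1
    have h3 : Function.Exact M.projectiveShortComplex.f.hom M.projectiveShortComplex.g.hom :=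
      (ShortComplex.ShortExact.moduleCat_exact_iff_function_exact _).1 S_exact.exact
    have h4 : Function.Injective M.projectiveShortComplex.f.hom :=
      (ModuleCat.mono_iff_injective _).1 S_exact.mono_f
    have h5 : Function.Surjective M.projectiveShortComplex.g.hom :=
      (ModuleCat.epi_iff_surjective _).1 S_exact.epi_g
    have h6 := shortExact_of_maps _ _ (pmMap_injective _ h4) (pmMap_surjective _ h5)
      (pmMap_exact _ _ h3)
    refine (h6.hasProjectiveDimensionLT_X₃_iff n ?_).mpr h2
    have : Module.Projective R M.projectiveShortComplex.X₂ :=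
      (IsProjective.iff_projective _).2 inferInstance
    exact (IsProjective.iff_projective _).1 pm_projective

lemma GD.polynomial {R : Type u} [CommRing R] {n : ℕ} (h : GD R n) : GD R[X] (n + 1) := by
  intro M
  let _ : Module R M := Module.compHom M (C : R →+* R[X])
  have : IsScalarTower R R[X] M := ⟨fun r p m => by
    rw [Polynomial.smul_eq_C_mul, mul_smul]; rfl⟩
  have h1 := pm_pd n (ModuleCat.of R M) (h _)
  have h2 := shortExact_of_maps (pmδ (R := R) (M := M)) pmEv pmδ_injective pmEv_surjective pm_exact
  have h3 : HasProjectiveDimensionLT (ModuleCat.of R[X] (PolynomialModule R M)) (n + 1) := h1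
  exact h2.hasProjectiveDimensionLT_X₃ (n + 1) h3
    (hasProjectiveDimensionLT_of_ge (ModuleCat.of R[X] (PolynomialModule R M)) (n + 1) _
      (Nat.le_succ _))

attribute [local instance] RingHomInvPair.of_ringEquiv in
lemma GD.of_ringEquiv {R S : Type u} [CommRing R] [CommRing S] (e : R ≃+* S) {n : ℕ}
    (h : GD R n) : GD S n := by
  intro M
  let _ : Module R M := Module.compHom M (e : R →+* S)
  have := h (ModuleCat.of R M)
  let e' : ModuleCat.of R M ≃ₛₗ[RingHomClass.toRingHom e] M :=
    { toFun := id
      map_add' := fun _ _ => rfl
      map_smul' := fun _ _ => rfl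
      invFun := id
      left_inv := fun _ => rfl
      right_inv := fun _ => rfl }
  exact ModuleCat.hasProjectiveDimensionLE_of_semiLinearEquiv.{u, u} e e' n

lemma GD.field (K : Type u) [Field K] : GD K 0 := by
  intro M
  rw [← projective_iff_hasProjectiveDimensionLE_zero, ← IsProjective.iff_projective]
  have : Module.Free K M := Module.Free.of_divisionRing K M
  exact Module.Projective.of_free

lemma GD.mvPolynomial (K : Type u) [Field K] (n : ℕ) : GD (MvPolynomial (Fin n) K) n := by
  induction n with
  | zero => exact (GD.field K).of_ringEquiv (MvPolynomial.isEmptyRingEquiv K (Fin 0)).symm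
  | succ n ih => exact ih.polynomial.of_ringEquiv (MvPolynomial.finSuccEquiv K n).symm.toRingEquiv

end Pool.Agent.H92
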