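import Mathlib
import Pool.Agent.H92.Imp
import Pool.Agent.H92.Serre
import Pool.Agent.H92.Syz3

open CategoryTheory Limits AlgebraicGeometry TopologicalSpace Opposite ZeroObject

universe w w' u

namespace Pool.Agent.H92

variable {X : Scheme.{u}} {ι : Type} [Fintype ι] {c : CrdData X ι}

/-- linear equivalence on sections -/
noncomputable def appE {M N : X.Modules} (e : M ≅ N) (U : X.Opens) :
    Γ(M, U) ≃ₗ[Γ(X, U)] Γ(N, U) :=
  LinearEquiv.ofLinearMap (appL e.hom U) (appL e.inv U) (by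
    ext s
    rw [LinearMap.comp_apply, appL_apply, appL_apply, ← comp_app_apply, e.inv_hom_id]
    rfl) (by
    ext s
    rw [LinearMap.comp_apply, appL_apply, appL_apply, ← comp_app_apply, e.hom_inv_id]
    rfl)

lemma CrdData.Coh.of_iso {F G : X.Modules} (e : F ≅ G) (hF : c.Coh F) : c.Coh G := by
  refine ⟨QC.of_iso e hF.qc, fun i => ?_⟩
  have := hF.fin i
  exact Module.Finite.equiv (appE e (c.U i))

lemma CrdData.Bun.of_iso {F G : X.Modules} (e : F ≅ G) (hF : c.Bun F) : c.Bun G := by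
  refine ⟨hF.toCoh.of_iso e, fun i => ?_⟩
  have := hF.proj i
  exact Module.Projective.of_equiv (appE e (c.U i))

lemma CrdData.Coh.kernel (hN : ∀ i, IsNoetherianRing Γ(X, c.U i)) (S : ShortComplex X.Modules)
    (hS : S.ShortExact) (h₂ : c.Coh S.X₂) (h₃ : c.Coh S.X₃) : c.Coh S.X₁ := by
  have := hS.mono_f
  refine ⟨QC.kernel S hS.exact h₂.qc h₃.qc, fun i => ?_⟩
  have := hN i
  have := h₂.fin i
  exact Module.Finite.of_injective (appL S.f (c.U i)) (app_injective_of_mono S.f (c.U i))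

theorem CrdData.resolution_aux (hN : ∀ i, IsNoetherianRing Γ(X, c.U i))
    (C : CochainComplex X.Modules ℤ) (hC : ∀ i, c.Coh (C.X i)) (a b : ℤ)
    (ha : ∀ i < a, IsZero (C.X i)) (hb : ∀ i > b, IsZero (C.X i)) (t : ℕ) :
    ∃ (C' : CochainComplex X.Modules ℤ) (q : C' ⟶ C), QuasiIso q ∧ (∀ i, c.Coh (C'.X i)) ∧
      (∀ i, b + 1 - t ≤ i → c.Bun (C'.X i)) ∧ (∀ i > b, IsZero (C'.X i)) ∧
      (∀ i, i < a → i < b - t → IsZero (C'.X i)) := by
  induction t with
  | zero =>
    refine ⟨C, 𝟙 C, inferInstance, hC, ?_, hb, fun i hi _ => ha i hi⟩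
    intro i hi
    exact c.bun_of_isZero (hb i (by simp at hi; lia))
  | succ t ih =>
    obtain ⟨C', q, hq, hcoh, hbun, hgt, hlt⟩ := ih
    obtain ⟨V, φ, hV, hφ⟩ := c.exists_epi (hcoh (b - t))
    have hrel : (ComplexShape.up ℤ).Rel (b - t - 1) (b - t) := by simp
    obtain ⟨C'', q', hq', hiso, ⟨e₁⟩, S, hS, ⟨e₂⟩, ⟨e₃⟩, ⟨e₄⟩⟩ :=
      exists_improvement C' hrel φ
    have hc₀ : c.Coh (C''.X (b - t - 1)) := by
      refine CrdData.Coh.of_iso e₂ (CrdData.Coh.kernel hN S hS ?_ ?_)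
      · exact CrdData.Coh.of_iso e₃.symm ((hcoh _).biprod hV.toCoh)
      · exact (hcoh _).of_iso e₄.symm
    refine ⟨C'', q' ≫ q, inferInstance, ?_, ?_, ?_, ?_⟩
    · intro i
      by_cases h₀ : i = b - t - 1
      · rw [h₀]
        exact hc₀
      · by_cases h₁ : i = b - t
        · rw [h₁]
          exact hV.toCoh.of_iso e₁.symm
        · obtain ⟨e⟩ := hiso i h₀ h₁
          exact (hcoh i).of_iso e.symm
    · intro i hi
      push_cast at hi
      by_cases h₁ : i = b - t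
      · rw [h₁]
        exact hV.of_iso e₁.symm
      · obtain ⟨e⟩ := hiso i (by lia) h₁
        exact (hbun i (by lia)).of_iso e.symm
    · intro i hi
      obtain ⟨e⟩ := hiso i (by lia) (by lia)
      exact (hgt i hi).of_iso e
    · intro i hi hi'
      push_cast at hi'
      obtain ⟨e⟩ := hiso i (by lia) (by lia)
      exact (hlt i hi (by lia)).of_iso e

end Pool.Agent.H92
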