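import Mathlib
import Pool.Agent.H92.Reso

open CategoryTheory Limits AlgebraicGeometry TopologicalSpace Opposite ZeroObject

universe w w' u

namespace Pool.Agent.H92

variable {X : Scheme.{u}}

/-- sections over an open as a module -/
noncomputable abbrev secM (M : X.Modules) (U : X.Opens) : ModuleCat.{u} Γ(X, U) :=
  ModuleCat.of Γ(X, U) Γ(M, U)

lemma sections_shortExact (S : ShortComplex X.Modules) (hS : S.ShortExact) (h : QC S.X₁)
    {U : X.Opens} (hU : IsAffineOpen U) :
    ∃ T : ShortComplex (ModuleCat.{u} Γ(X, U)), T.ShortExact ∧ T.X₁ = secM S.X₁ U ∧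
      T.X₂ = secM S.X₂ U ∧ T.X₃ = secM S.X₃ U := by
  have := hS.mono_f
  have hex : Function.Exact (appL S.f U) (appL S.g U) := by
    intro t
    constructor
    · intro ht
      obtain ⟨s, hs⟩ := exists_of_exact S hS.exact U t ht
      exact ⟨s, hs⟩
    · rintro ⟨s, rfl⟩
      rw [appL_apply, appL_apply, ← comp_app_apply, S.zero, zero_app_apply]
  exact ⟨_, shortExact_of_maps (appL S.f U) (appL S.g U) (app_injective_of_mono S.f U)
    (fun s => lifts_affine S hS h.affMV hU s) hex, rfl, rfl, rfl⟩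

lemma pd_X₁ (S : ShortComplex X.Modules) (hS : S.ShortExact) (h : QC S.X₁)
    {U : X.Opens} (hU : IsAffineOpen U) (n : ℕ)
    (h₂ : HasProjectiveDimensionLT (secM S.X₂ U) n)
    (h₃ : HasProjectiveDimensionLT (secM S.X₃ U) (n + 1)) :
    HasProjectiveDimensionLT (secM S.X₁ U) n := by
  obtain ⟨T, hT, e₁, e₂, e₃⟩ := sections_shortExact S hS h hU
  rw [← e₁]
  rw [← e₂] at h₂
  rw [← e₃] at h₃
  exact hT.hasProjectiveDimensionLT_X₁ n h₂ h₃

lemma pd_X₂ (S : ShortComplex X.Modules) (hS : S.ShortExact) (h : QC S.X₁)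
    {U : X.Opens} (hU : IsAffineOpen U) (n : ℕ)
    (h₁ : HasProjectiveDimensionLT (secM S.X₁ U) n)
    (h₃ : HasProjectiveDimensionLT (secM S.X₃ U) n) :
    HasProjectiveDimensionLT (secM S.X₂ U) n := by
  obtain ⟨T, hT, e₁, e₂, e₃⟩ := sections_shortExact S hS h hU
  rw [← e₂]
  rw [← e₁] at h₁
  rw [← e₃] at h₃
  exact hT.hasProjectiveDimensionLT_X₂ n h₁ h₃

section

variable (K : CochainComplex X.Modules ℤ)

lemma cycles_shortExact (i : ℤ) (h : K.ExactAt (i + 1)) :
    (ShortComplex.mk (K.iCycles i) (K.toCycles i (i + 1)) (by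
      rw [← cancel_mono (K.iCycles (i + 1))]
      simp)).ShortExact := by
  have hmono : Mono (K.iCycles (i + 1)) := inferInstance
  refine { exact := ?_, mono_f := ?_, epi_g := ?_ }
  · refine ShortComplex.exact_of_f_is_kernel _ ?_
    exact KernelFork.IsLimit.ofι' _ _ (fun {T} k hk => ⟨K.liftCycles k (i + 1) (by simp) (by
      rw [← K.toCycles_i i (i + 1), ← Category.assoc]
      dsimp at hk
      rw [hk, zero_comp]), by simp⟩)
  · exact inferInstanceAs (Mono (K.iCycles i))
  · exact Preadditive.epi_of_isZero_cokernel' _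
      (K.homologyIsCokernel i (i + 1) (by simp))
      ((HomologicalComplex.exactAt_iff_isZero_homology _ _).1 h)

lemma qc_cycles (hK : ∀ i, QC (K.X i)) (i : ℤ) : QC (K.cycles i) := by
  let S : ShortComplex X.Modules := ShortComplex.mk (K.iCycles i) (K.d i (i + 1)) (by simp)
  have hm : Mono S.f := inferInstanceAs (Mono (K.iCycles i))
  exact QC.kernel S (S.exact_of_f_is_kernel (K.cyclesIsKernel i (i + 1) (by simp))) (hK i)
    (hK (i + 1))

lemma pd_projective {R : Type u} [CommRing R] {M : Type u} [AddCommGroup M] [Module R M]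
    (h : Module.Projective R M) (n : ℕ) : HasProjectiveDimensionLT (ModuleCat.of R M) (n + 1) := by
  have h1 : Projective (ModuleCat.of R M) := (IsProjective.iff_projective _).1 h
  have h2 : HasProjectiveDimensionLT (ModuleCat.of R M) 1 := inferInstance
  exact hasProjectiveDimensionLT_of_ge _ 1 _ (by lia)

variable {K}

lemma pd_cycles (hK : ∀ i, QC (K.X i)) {U : X.Opens} (hU : IsAffineOpen U) {m : ℕ}
    (hG : GD Γ(X, U) m) {a : ℤ} (hex : ∀ i < a, K.ExactAt i)
    (hp : ∀ i, a - m - 1 ≤ i → Module.Projective Γ(X, U) Γ(K.X i, U)) (t : ℕ) (ht : t ≤ m) :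
    HasProjectiveDimensionLT (secM (K.cycles (a - 1 - t)) U) (m - t + 1) := by
  induction t with
  | zero => exact hG _
  | succ t ih =>
    have ih' := ih (by lia)
    obtain ⟨i, hi⟩ : ∃ i : ℤ, i = a - 1 - ((t + 1 : ℕ) : ℤ) := ⟨_, rfl⟩
    have hi' : a - 1 - (t : ℤ) = i + 1 := by
      rw [hi]
      push_cast
      ring
    rw [hi'] at ih'
    rw [← hi]
    have hS := cycles_shortExact K i (hex _ (by lia))
    have hproj := hp i (by
      rw [hi]
      push_cast
      lia)
    refine pd_X₁ _ hS (qc_cycles K hK i) hU _ (pd_projective hproj _) ?_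
    have e : m - (t + 1) + 1 + 1 = m - t + 1 := by lia
    rw [e]
    exact ih'

lemma secM_zero {M : X.Modules} (h : IsZero M) (U : X.Opens) (n : ℕ) :
    HasProjectiveDimensionLT (secM M U) n := by
  have hs : Subsingleton Γ(M, U) := by
    constructor
    intro s t
    have : (𝟙 M : M ⟶ M) = 0 := h.eq_of_src _ _
    have h1 : ∀ s : Γ(M, U), s = 0 := fun s => by
      rw [← id_app_apply U s, this, zero_app_apply]
    rw [h1 s, h1 t]
  have h0 : IsZero (secM M U) := ModuleCat.isZero_of_subsingleton _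
  have := h0.hasProjectiveDimensionLT_zero
  exact hasProjectiveDimensionLT_of_ge _ 0 _ (by lia)

lemma projective_last (hK : ∀ i, QC (K.X i)) {U : X.Opens} (hU : IsAffineOpen U) {m : ℕ}
    (hG : GD Γ(X, U) m) {a : ℤ} (hex : ∀ i < a, K.ExactAt i)
    (hp : ∀ i, a - m - 1 ≤ i → Module.Projective Γ(X, U) Γ(K.X i, U))
    (hz : ∀ i, i < a - m - 2 → IsZero (K.X i)) :
    Module.Projective Γ(X, U) Γ(K.X (a - m - 2), U) := by
  have h1 := pd_cycles hK hU hG hex hp m le_rfl
  obtain ⟨i, hi⟩ : ∃ i : ℤ, i = a - m - 2 := ⟨_, rfl⟩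
  have hi' : a - 1 - (m : ℤ) = i + 1 := by lia
  rw [hi', Nat.sub_self] at h1
  rw [← hi] at hz ⊢
  have hS := cycles_shortExact K i (hex _ (by lia))
  -- the cycles in the last degree vanish
  obtain ⟨k, hk⟩ : ∃ k : ℤ, k + 1 = i := ⟨i - 1, by lia⟩
  have hz' : IsZero (K.cycles i) := by
    have h2 := cycles_shortExact K k (hex _ (by lia))
    have h3 : Epi (K.toCycles k (k + 1)) := h2.epi_g
    have h4 : IsZero (K.cycles (k + 1)) := by
      rw [IsZero.iff_id_eq_zero, ← cancel_epi (K.toCycles k (k + 1))]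
      exact (hz k (by lia)).eq_of_src _ _
    rwa [hk] at h4
  have h5 := pd_X₂ _ hS (qc_cycles K hK i) hU 1 (secM_zero hz' U 1) h1
  have h6 : HasProjectiveDimensionLT (ModuleCat.of Γ(X, U) Γ(K.X i, U)) 1 := h5
  rw [← projective_iff_hasProjectiveDimensionLT_one, ← IsProjective.iff_projective] at h6
  exact h6

end

end Pool.Agent.H92
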