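import Mathlib
import Pool.Agent.H92.Reso2
import Pool.Agent.H92.PSpace2

open CategoryTheory Limits AlgebraicGeometry TopologicalSpace Opposite ZeroObject

universe w w' u

namespace Pool.Agent.H92

section

variable {X : Scheme.{u}} {ι : Type} [Fintype ι] (c : CrdData X ι)

theorem CrdData.resolution {m : ℕ} (hN : ∀ i, IsNoetherianRing Γ(X, c.U i))
    (hG : ∀ i, GD Γ(X, c.U i) m) (C : CochainComplex X.Modules ℤ) (hC : ∀ i, c.Coh (C.X i))
    (a b : ℤ) (hab : a ≤ b) (ha : ∀ i < a, IsZero (C.X i)) (hb : ∀ i > b, IsZero (C.X i)) :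
    ∃ (C' : CochainComplex X.Modules ℤ) (q : C' ⟶ C), QuasiIso q ∧ (∀ i, IsVB (C'.X i)) ∧
      (∀ i > b, IsZero (C'.X i)) ∧ (∀ i < a - m - 2, IsZero (C'.X i)) := by
  obtain ⟨t, ht⟩ : ∃ t : ℕ, (t : ℤ) = b - a + m + 2 := ⟨(b - a + m + 2).toNat, by lia⟩
  obtain ⟨C', q, hq, hcoh, hbun, hgt, hlt⟩ := c.resolution_aux hN C hC a b ha hb t
  have hz : ∀ i, i < a - m - 2 → IsZero (C'.X i) := fun i hi => hlt i (by lia) (by lia)
  refine ⟨C', q, hq, ?_, hgt, hz⟩
  have hex : ∀ i < a, C'.ExactAt i := by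
    intro i hi
    rw [HomologicalComplex.exactAt_iff_isZero_homology]
    have h1 : QuasiIsoAt q i := inferInstance
    rw [quasiIsoAt_iff_isIso_homologyMap] at h1
    have h2 : C.ExactAt i := by
      rw [HomologicalComplex.exactAt_iff]
      exact ShortComplex.exact_of_isZero_X₂ _ (ha i hi)
    rw [HomologicalComplex.exactAt_iff_isZero_homology] at h2
    exact h2.of_iso (asIso (HomologicalComplex.homologyMap q i))
  intro i
  by_cases h₁ : a - m - 1 ≤ i
  · exact (hbun i (by lia)).isVB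
  · by_cases h₂ : i = a - m - 2
    · rw [h₂]
      refine CrdData.Bun.isVB (c := c) ⟨hcoh _, fun l => ?_⟩
      exact projective_last (fun i => (hcoh i).qc) (c.aff l) (hG l) hex
        (fun i hi => (hbun i (by lia)).proj l) hz
    · exact IsVB.of_isZero (hz i (by lia))

end

variable (K : Type u) [Field K] (n : ℕ)

/-- The standard coordinates of projective space. -/
noncomputable def psCrd : CrdData (PSpace K n) (Fin (n + 1)) where
  U := PSpace.U K
  aff := PSpace.isAffineOpen_U K
  iSup_U := PSpace.iSup_U K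
  g := PSpace.crd K
  g_self := PSpace.crd_self K
  g_mul := PSpace.crd_mul K
  basicOpen_g := PSpace.basicOpen_crd K

/-- The coordinate ring of the chart. -/
noncomputable def chartE (i : Fin (n + 1)) :
    MvPolynomial (Fin n) K ≃+* Γ(PSpace K n, PSpace.U K i) :=
  RingEquiv.ofBijective ((PSpace.toSec K (MvPolynomial.X i)).comp (chart K i))
    ((PSpace.toSec_bijective K i).comp (chart_bijective K i))

theorem PSpace.resolution (C : CochainComplex (PSpace K n).Modules ℤ)
    (hC : ∀ i, (psCrd K n).Coh (C.X i))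
    (a b : ℤ) (hab : a ≤ b) (ha : ∀ i < a, IsZero (C.X i)) (hb : ∀ i > b, IsZero (C.X i)) :
    ∃ (C' : CochainComplex (PSpace K n).Modules ℤ) (q : C' ⟶ C), QuasiIso q ∧
      (∀ i, IsVB (C'.X i)) ∧
      (∀ i > b, IsZero (C'.X i)) ∧ (∀ i < a - n - 2, IsZero (C'.X i)) := by
  refine (psCrd K n).resolution (fun i => ?_) (fun i => ?_) C hC a b hab ha hb
  · exact isNoetherianRing_of_ringEquiv (MvPolynomial (Fin n) K) (chartE K n i)
  · exact (GD.mvPolynomial K n).of_ringEquiv (chartE K n i)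

end Pool.Agent.H92
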