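import Mathlib
import Pool.Agent.H92.ProdUniv
import Pool.Agent.H92.Reso3

open CategoryTheory Limits AlgebraicGeometry TopologicalSpace ZeroObject

universe w w' u

namespace Pool.Agent.H92

lemma IsCoh.coh {X : Scheme.{u}} {M : X.Modules} (h : IsCoh M) {ι : Type} [Fintype ι]
    (c : CrdData X ι) : c.Coh M := by
  have := h.1
  exact ⟨QC.of_isQuasicoherent M, fun i => h.2 _ (c.aff i)⟩

section

variable {A : Type*} [Category A] [Abelian A] [HasDerivedCategory A]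

lemma plus_Q (C : CochainComplex.Plus A) :
    DerivedCategory.Plus.ι.obj (DerivedCategory.Plus.Q.obj C) = DerivedCategory.Q.obj C.obj := rfl

lemma plus_single (E : A) : (DerivedCategory.Plus.singleFunctor A 0).obj E =
    DerivedCategory.Plus.Q.obj ⟨_, single_plus E 0⟩ := rfl

end

variable {K : Type u} [Field K]

variable [∀ X : Scheme.{u}, HasDerivedCategory.{w} X.Modules]

lemma Q_iso {X : Scheme.{u}} {C D : CochainComplex X.Modules ℤ} (q : C ⟶ D) (hq : QuasiIso q) :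
    Nonempty (DerivedCategory.Q.obj C ≅ DerivedCategory.Q.obj D) :=
  ⟨asIso (DerivedCategory.Q.map q)⟩

/-- Bounded complexes of vector bundles are direct images, up to shift. -/
theorem tower_shift (X : Over (Spec (CommRingCat.of K))) (C : CochainComplex X.left.Modules ℤ)
    (a b : ℤ) (hge : C.IsStrictlyGE a) (hle : C.IsStrictlyLE b) (hC : ∀ i, IsVB (C.X i)) :
    ∃ (t : ℕ) (Y : Over (Spec (CommRingCat.of K))) (p : Y ⟶ X) (q : Fin t → (Y ⟶ PS K 1))
      (E : Y.left.Modules) (s : ℤ), 1 ≤ t ∧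
      (∀ (T : Over (Spec (CommRingCat.of K))) (a : T ⟶ X) (b : Fin t → (T ⟶ PS K 1)),
        ∃! f : T ⟶ Y, f ≫ p = a ∧ ∀ i, f ≫ q i = b i) ∧ IsVB E ∧
      IsRPushOf p.left E s C := by
  obtain ⟨k, hk⟩ : ∃ k : ℕ, b ≤ a + k := ⟨(b - a).toNat, by lia⟩
  let C' : CochainComplex X.left.Modules ℤ := C⟦a⟧
  have h1 : C'.IsStrictlyGE 0 := C.isStrictlyGE_shift a a 0 (by lia)
  have h2 : C'.IsStrictlyLE (0 + ((k + 1 : ℕ) : ℤ)) := by
    have h3 : C.IsStrictlyLE (a + (k + 1)) := C.isStrictlyLE_of_le b _ (by lia)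
    exact C.isStrictlyLE_shift (a + (k + 1)) a _ (by push_cast; ring)
  have h4 : CochainComplex.plus _ C' := ⟨0, h1⟩
  obtain ⟨E, hE, ⟨e⟩⟩ := tower (K := K) (k + 1) X 0 C' h1 h2 (fun i => hC (i + a)) h4
  obtain ⟨q, hq⟩ := prodList_univ K (k + 1) X
  refine ⟨k + 1, _, prodList.hom K (List.replicate (k + 1) 1) X, q, E, -a, by lia, hq, hE, ⟨?_⟩⟩
  rw [prodList.hom_left]
  let e₁ := DerivedCategory.Plus.ι.mapIso e
  let e₂ : DerivedCategory.Plus.ι.obj (DerivedCategory.Plus.Q.obj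
      (⟨C', h4⟩ : CochainComplex.Plus X.left.Modules)) ≅ (DerivedCategory.Q.obj C)⟦a⟧ :=
    (DerivedCategory.Q.commShiftIso a).app C
  exact (shiftFunctor _ (-a)).mapIso (e₁ ≪≫ e₂) ≪≫
    (shiftShiftNeg (DerivedCategory.Q.obj C) a)

variable (K)

/-- Every bounded complex of coherent sheaves on projective space is the direct image of a vector
bundle, up to shift. -/
theorem main (m : ℕ) (C : CochainComplex (PSpace K m).Modules ℤ) (h : IsBddCoh C) :
    ∃ (t : ℕ) (Y : Scheme.{u}) (p : Y ⟶ PSpace K m) (q : Fin t → (Y ⟶ PSpace K 1))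
      (E : Y.Modules) (s : ℤ), 1 ≤ t ∧ IsProdWith (PSpace.toSpec K m) (PSpace.toSpec K 1) p q ∧
        IsVB E ∧ IsRPushOf p E s C := by
  obtain ⟨⟨a, hge⟩, ⟨b, hle⟩, hC⟩ := h
  obtain ⟨C', q, hq, hvb, hgt, hlt⟩ := PSpace.resolution K m C (fun i => (hC i).coh _)
    (min a b) b (min_le_right _ _) (fun i hi => hge i (by lia)) hle
  have hge' : C'.IsStrictlyGE (min a b - m - 2) := by
    rw [CochainComplex.isStrictlyGE_iff]
    exact hlt
  have hle' : C'.IsStrictlyLE b := by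
    rw [CochainComplex.isStrictlyLE_iff]
    exact hgt
  obtain ⟨t, Y, p, q', E, s, ht, hY, hE, ⟨e⟩⟩ := tower_shift (PS K m) C' _ _ hge' hle' hvb
  obtain ⟨e'⟩ := Q_iso q hq
  let p₀ : Y.left ⟶ PSpace K m := p.left
  let q₀ : ∀ i, Y.left ⟶ PSpace K 1 := fun i => (q' i).left
  have hp : p₀ ≫ PSpace.toSpec K m = Y.hom := Over.w p
  have hq₀ : ∀ i, q₀ i ≫ PSpace.toSpec K 1 = Y.hom := fun i => Over.w (q' i)
  refine ⟨t, Y.left, p₀, q₀, E, s, ht, ⟨fun i => (hq₀ i).trans hp.symm, ?_⟩, hE, ⟨e ≪≫ e'⟩⟩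
  intro T f g hfg
  let T' : Over (Spec (CommRingCat.of K)) := Over.mk (f ≫ PSpace.toSpec K m)
  let f' : T' ⟶ PS K m := Over.homMk f rfl
  let g' : ∀ i, T' ⟶ PS K 1 := fun i => Over.homMk (g i) (hfg i)
  obtain ⟨h, ⟨h₁, h₂⟩, h₃⟩ := hY T' f' g'
  refine ⟨h.left, ⟨?_, fun i => ?_⟩, ?_⟩
  · exact congrArg CommaMorphism.left h₁
  · exact congrArg CommaMorphism.left (h₂ i)
  · rintro k ⟨k₁, k₂⟩
    have hk : k ≫ Y.hom = T'.hom := by
      rw [← hp, ← Category.assoc, k₁]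
      rfl
    have h4 := h₃ (Over.homMk k hk) ⟨by ext1; exact k₁, fun i => by ext1; exact k₂ i⟩
    exact congrArg CommaMorphism.left h4

end Pool.Agent.H92
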